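import Pool.Agent.W764.FB.Cover

/-!
The covering lemma for essentially injective maps, with an arbitrary power of the number of arcs.
The proof is the one of `Pool.Agent.W764.FB.covering`.
-/

set_option autoImplicit false

open MeasureTheory Filter Topology Set
open scoped ENNReal

namespace Pool.Agent.H806.Gap

open Pool.Agent.W764.FB
open Pool.Agent.H706R2.Ren (U labels measurableSet_U)

/-- **The covering lemma**, with an arbitrary power of the number of arcs. -/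
theorem covering_pow {p : ℕ} (hp : 2 ≤ p) (μ : Measure T) [IsProbabilityMeasure μ]
    (hinv : MeasurePreserving (fun x : T => p • x) μ μ) (h : EssInj p μ) {κ c : ℝ} (hκ : 0 < κ)
    (hc : 0 < c) (k : ℕ) : ∃ (K : ℕ) (cen : Fin K → T) (ρ : ℝ), 1 ≤ K ∧ 0 < ρ ∧
      ρ * (K : ℝ) ^ k ≤ c ∧
      μ.real (U cen ρ)ᶜ ≤ κ := by
  classical
  have hpR : (2 : ℝ) ≤ p := by exact_mod_cast hp
  obtain ⟨Q1, lab1, hlab1⟩ := labels (ε := 1 / (2 * (p : ℝ))) (by positivity)
  set s : ℕ := 3 * (k + 1) * (Q1 + 1) with hs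
  have hs1 : 1 ≤ s := Nat.mul_pos (by omega) (by omega)
  have hsR : (0 : ℝ) < s := by exact_mod_cast hs1
  have hq : (1 + (Q1 : ℝ) / s) ^ k ≤ 3 / 2 := by
    have h1 : (Q1 : ℝ) / s ≤ 1 / (3 * (k + 1)) := by
      rw [div_le_div_iff₀ hsR (by positivity), hs]
      push_cast
      nlinarith
    have h2 : 1 + (Q1 : ℝ) / s ≤ Real.exp (1 / (3 * (k + 1))) := by
      have := Real.add_one_le_exp (1 / (3 * ((k : ℝ) + 1)))
      linarith
    have h3 : (1 + (Q1 : ℝ) / s) ^ k ≤ Real.exp (1 / (3 * (k + 1))) ^ k := by gcongr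
    rw [← Real.exp_nat_mul] at h3
    have h4 : (k : ℝ) * (1 / (3 * (k + 1))) ≤ 1 / 3 := by
      rw [mul_one_div, div_le_div_iff₀ (by positivity) (by norm_num)]
      linarith
    have h5 : Real.exp (1 / 3) ≤ 3 / 2 := by
      have h6 : (Real.exp (1 / 3)) ^ 3 ≤ (3 / 2 : ℝ) ^ 3 := by
        rw [← Real.exp_nat_mul]
        have : Real.exp ((3 : ℕ) * (1 / 3)) = Real.exp 1 := by norm_num
        rw [this]
        have := Real.exp_one_lt_d9
        norm_num
        linarith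
      exact (pow_le_pow_iff_left₀ (Real.exp_pos _).le (by norm_num) (by norm_num)).1 h6
    exact h3.trans ((Real.exp_le_exp.2 h4).trans h5)
  obtain ⟨b, hb⟩ : ∃ b : ℕ, (s : ℝ) ^ k * (3 / 4 : ℝ) ^ b < 1 / 2 := by
    have h1 : Tendsto (fun b : ℕ => (s : ℝ) ^ k * (3 / 4 : ℝ) ^ b) atTop (𝓝 ((s : ℝ) ^ k * 0)) :=
      (tendsto_pow_atTop_nhds_zero_of_lt_one (by norm_num) (by norm_num)).const_mul _
    rw [mul_zero] at h1
    exact (h1.eventually (gt_mem_nhds (show (0 : ℝ) < 1 / 2 by norm_num))).exists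
  have hb1 : 1 ≤ b := by
    rcases Nat.eq_zero_or_pos b with h0 | h0
    · rw [h0, pow_zero, mul_one] at hb
      have h1 : (1 : ℝ) ≤ s := by exact_mod_cast hs1
      have h2 : (1 : ℝ) ≤ (s : ℝ) ^ k := one_le_pow₀ h1
      linarith
    · exact h0
  have hbR : (0 : ℝ) < b := by exact_mod_cast hb1
  obtain ⟨Z, hZm, hZκ, η, hη, hZ⟩ := local_inj (by omega : 0 < p) μ h (ε := κ / b) (by positivity)
  set η' : ℝ := min η (1 / 4) with hη'
  have hη'0 : 0 < η' := lt_min hη (by norm_num)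
  have hZ' : ∀ x ∈ Z, ∀ y ∈ Z, ‖p • (x - y)‖ ≤ η' → ‖x - y‖ ≤ ‖p • (x - y)‖ / p :=
    fun x hx y hy hxy => hZ x hx y hy (hxy.trans (min_le_left _ _))
  obtain ⟨Q0, lab0, hlab0⟩ := labels (ε := η') hη'0
  have hQ0 : 1 ≤ Q0 := by
    rcases Nat.eq_zero_or_pos Q0 with h0 | h0
    · subst h0
      exact (lab0 0).elim0
    · exact h0
  obtain ⟨g, hg⟩ : ∃ g : ℕ, (Q0 : ℝ) ^ k * η' * (1 / 2 : ℝ) ^ (g + 1) < c := by
    have h1 : Tendsto (fun b : ℕ => (Q0 : ℝ) ^ k * η' * (1 / 2 : ℝ) ^ (b + 1)) atTop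
        (𝓝 ((Q0 : ℝ) ^ k * η' * 0)) :=
      ((tendsto_pow_atTop_nhds_zero_of_lt_one (by norm_num) (by norm_num)).comp
        (tendsto_add_atTop_nat 1)).const_mul _
    rw [mul_zero] at h1
    exact (h1.eventually (gt_mem_nhds hc)).exists
  set g1 : ℕ := g + 1 with hg1
  have hg1R : (0 : ℝ) < g1 := by exact_mod_cast (by omega : 0 < g1)
  set N : ℕ := b * g1 with hN
  set CS := Finset.univ.filter fun c : Fin N → Fin (Q1 + 1) =>
      (Finset.univ.filter fun j => c j ≠ 0).card ≤ g1 with hCS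
  set M : ℕ := CS.card with hM
  have hMle : (M : ℝ) ≤ (s : ℝ) ^ g1 * (1 + (Q1 : ℝ) / s) ^ N := card_codes Q1 s N g1 hs1
  set Good : Set T := {x | Pool.Agent.H706R2.Ren.out p Z N x ≤ g1} with hGood
  have hgc : ∀ x ∈ Good, code p Z lab1 N x ∈ CS := by
    intro x hx
    rw [hCS, Finset.mem_filter]
    refine ⟨Finset.mem_univ _, ?_⟩
    rw [card_code]
    exact hx
  have hM1 : 1 ≤ M := by
    rw [hM, Nat.one_le_iff_ne_zero, Ne, Finset.card_eq_zero]
    intro h0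
    have : (fun _ => 0 : Fin N → Fin (Q1 + 1)) ∈ CS := by
      rw [hCS, Finset.mem_filter]
      refine ⟨Finset.mem_univ _, ?_⟩
      simp
    rw [h0] at this
    exact absurd this (Finset.notMem_empty _)
  set e : Fin (Q0 * M) ≃ Fin Q0 × CS := (finProdFinEquiv (m := Q0) (n := M)).symm.trans
    (Equiv.prodCongr (Equiv.refl _) CS.equivFin.symm) with he
  set pick : Fin Q0 × CS → T := fun a => if hx : ∃ x ∈ Good, lab0 ((p ^ N) • x) = a.1 ∧
    code p Z lab1 N x = a.2 then hx.choose else 0 with hpick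
  refine ⟨Q0 * M, fun i => pick (e i), η' / (p : ℝ) ^ N, Nat.mul_pos hQ0 hM1, by positivity,
    ?_, ?_⟩
  · have h1 : (M : ℝ) ^ k ≤ ((s : ℝ) ^ k * (3 / 2 : ℝ) ^ b) ^ g1 := by
      calc (M : ℝ) ^ k ≤ ((s : ℝ) ^ g1 * (1 + (Q1 : ℝ) / s) ^ N) ^ k := by gcongr
        _ = ((s : ℝ) ^ k * ((1 + (Q1 : ℝ) / s) ^ k) ^ b) ^ g1 := by
            rw [hN, mul_pow, mul_pow, ← pow_mul, ← pow_mul, ← pow_mul, ← pow_mul, ← pow_mul]
            congr 2 <;> ring
        _ ≤ ((s : ℝ) ^ k * (3 / 2 : ℝ) ^ b) ^ g1 := by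
            gcongr
    have h2 : (2 : ℝ) ^ N ≤ (p : ℝ) ^ N := pow_le_pow_left₀ (by norm_num) hpR _
    have h3 : (M : ℝ) ^ k / (p : ℝ) ^ N ≤ (1 / 2 : ℝ) ^ g1 := by
      calc (M : ℝ) ^ k / (p : ℝ) ^ N ≤ ((s : ℝ) ^ k * (3 / 2 : ℝ) ^ b) ^ g1 / (2 : ℝ) ^ N := by
            gcongr
        _ = ((s : ℝ) ^ k * (3 / 4 : ℝ) ^ b) ^ g1 := by
            rw [hN, pow_mul, ← div_pow]
            congr 1
            rw [mul_div_assoc, ← div_pow]
            norm_num
        _ ≤ (1 / 2 : ℝ) ^ g1 := by gcongr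
    calc η' / (p : ℝ) ^ N * ((Q0 * M : ℕ) : ℝ) ^ k
        = (Q0 : ℝ) ^ k * η' * ((M : ℝ) ^ k / (p : ℝ) ^ N) := by push_cast; rw [mul_pow]; ring
      _ ≤ (Q0 : ℝ) ^ k * η' * (1 / 2 : ℝ) ^ g1 := by gcongr
      _ ≤ c := hg.le
  · have hsub : (U (fun i => pick (e i)) (η' / (p : ℝ) ^ N))ᶜ ⊆
        {y | (g1 : ℝ) ≤ Pool.Agent.H706R2.Ren.out p Z N y} := by
      intro x hx
      by_contra hcon
      apply hx
      have hxG : x ∈ Good := by
        simp only [mem_ofPred_eq, not_le] at hcon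
        have : Pool.Agent.H706R2.Ren.out p Z N x < g1 := by exact_mod_cast hcon
        exact this.le
      unfold U
      rw [mem_iUnion]
      set a : Fin Q0 × CS := (lab0 ((p ^ N) • x), ⟨code p Z lab1 N x, hgc x hxG⟩) with ha
      refine ⟨e.symm a, ?_⟩
      have hex : ∃ x ∈ Good, lab0 ((p ^ N) • x) = a.1 ∧ code p Z lab1 N x = a.2 :=
        ⟨x, hxG, rfl, rfl⟩
      have hp1 : pick (e (e.symm a)) = hex.choose := by
        rw [Equiv.apply_symm_apply, hpick]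
        simp only [dif_pos hex]
      show x ∈ Metric.closedBall (pick (e (e.symm a))) _
      rw [Metric.mem_closedBall, dist_eq_norm, hp1]
      have hsp := hex.choose_spec
      refine same_code (by omega : 0 < p) (min_le_right _ _) hZ' hlab1 N x hex.choose ?_ ?_
      · rw [smul_sub]
        exact hlab0 _ _ hsp.2.1.symm
      · exact hsp.2.2.symm
    have h1 := markov_gen p μ hinv hZm N (a := (g1 : ℝ))
    have h2 : (N : ℝ) * μ.real Zᶜ ≤ g1 * κ := by
      calc (N : ℝ) * μ.real Zᶜ ≤ N * (κ / b) := by gcongr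
        _ = g1 * κ := by rw [hN]; push_cast; field_simp
    have h3 : μ.real {y | (g1 : ℝ) ≤ Pool.Agent.H706R2.Ren.out p Z N y} ≤ κ :=
      le_of_mul_le_mul_left (h1.trans h2) hg1R
    exact (measureReal_mono hsub).trans h3

end Pool.Agent.H806.Gap
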