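import Pool.Agent.H806_Gap.Zero

/-!
The covering property of the singular invariant measures.
-/

set_option autoImplicit false

open MeasureTheory Filter Topology Set
open scoped ENNReal

namespace Pool.Agent.H806.Gap

open Pool.Agent.W764.FB (T EssInj hh)
open Pool.Agent.H706R2.Ren (U measurableSet_U)
open Metric (closedBall mem_closedBall)

/-- packing -/
lemma packing (μ : Measure T) [IsProbabilityMeasure μ] {G : Set T} {r β : ℝ} (hβ : 0 < β)
    (hG : ∀ x ∈ G, β ≤ μ.real (closedBall x r)) :
    ∃ (K : ℕ) (cen : Fin K → T), 1 ≤ K ∧ (K : ℝ) ≤ 1 / β + 1 ∧ G ⊆ U cen (2 * r) := by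
  classical
  set P : ℕ → Prop := fun n => ∃ Y : Finset T, (∀ y ∈ Y, y ∈ G) ∧ Y.card = n ∧
    ∀ y ∈ Y, ∀ y' ∈ Y, y ≠ y' → 2 * r < dist y y' with hP
  have hPn : ∀ n, P n → (n : ℝ) * β ≤ 1 := by
    rintro n ⟨Y, hYG, rfl, hY⟩
    have hdis : (Y : Set T).PairwiseDisjoint fun y => closedBall y r := by
      intro y hy y' hy' hne
      refine Set.disjoint_left.2 fun z hz hz' => ?_
      rw [mem_closedBall] at hz hz'
      have h1 := hY y hy y' hy' hne
      have h2 := dist_triangle_left y y' z
      linarith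
    have h1 : μ.real (⋃ y ∈ Y, closedBall y r) = ∑ y ∈ Y, μ.real (closedBall y r) :=
      measureReal_biUnion_finset hdis fun y _ => measurableSet_closedBall
    have h2 : μ.real (⋃ y ∈ Y, closedBall y r) ≤ 1 := measureReal_le_one
    rw [h1] at h2
    refine le_trans ?_ h2
    calc (Y.card : ℝ) * β = ∑ y ∈ Y, β := by rw [Finset.sum_const, nsmul_eq_mul]
      _ ≤ _ := Finset.sum_le_sum fun y hy => hG y (hYG y hy)
  have hP0 : P 0 := ⟨∅, by simp, rfl, by simp⟩
  set N : ℕ := ⌊1 / β⌋₊ with hN
  have hPN : ∀ n, P n → n ≤ N := by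
    intro n hn
    rw [hN]
    refine Nat.le_floor ?_
    rw [le_div_iff₀ hβ]
    exact hPn n hn
  set n := Nat.findGreatest P N with hn
  have hPn0 : P n := Nat.findGreatest_spec (Nat.zero_le N) hP0
  obtain ⟨Y, hYG, hYn, hY⟩ := hPn0
  refine ⟨n + 1, Fin.cons 0 fun i : Fin n => ((Y.equivFin.symm (Fin.cast hYn.symm i)) : Y).1,
    by omega, ?_, ?_⟩
  · have h1 : (n : ℝ) * β ≤ 1 := hPn n ⟨Y, hYG, hYn, hY⟩
    push_cast
    rw [← le_div_iff₀ hβ] at h1
    linarith
  · intro x hx
    unfold U
    rw [mem_iUnion]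
    by_contra hc
    push Not at hc
    have hfar : ∀ y ∈ Y, 2 * r < dist x y := by
      intro y hy
      have h1 := hc (Fin.succ (Fin.cast hYn (Y.equivFin ⟨y, hy⟩)))
      rw [Fin.cons_succ] at h1
      simp only [Fin.cast_cast, Fin.cast_eq_self, Equiv.symm_apply_apply] at h1
      rw [mem_closedBall, not_le] at h1
      exact h1
    have hxY : x ∉ Y := by
      intro h
      have h1 := hfar x h
      rw [dist_self] at h1
      -- then `r` is negative and the ball is empty
      have h2 := hG x hx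
      rw [Metric.closedBall_eq_empty.2 (by linarith)] at h2
      simp at h2
      linarith
    have hPs : P (n + 1) := by
      refine ⟨insert x Y, ?_, ?_, ?_⟩
      · intro y hy
        rcases Finset.mem_insert.1 hy with rfl | hy
        · exact hx
        · exact hYG y hy
      · rw [Finset.card_insert_of_notMem hxY, hYn]
      · intro y hy y' hy' hne
        rcases Finset.mem_insert.1 hy with h1 | h1 <;> rcases Finset.mem_insert.1 hy' with h2 | h2
        · exact absurd (h1.trans h2.symm) hne
        · rw [h1]; exact hfar y' h2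
        · rw [h2, dist_comm]; exact hfar y h1
        · exact hY y h1 y' h2 hne
    have := Nat.le_findGreatest (hPN _ hPs) hPs
    omega

/-- the real version of `expand` -/
lemma expand_real (μ : Measure T) [IsProbabilityMeasure μ] {r : ℝ} (hr : 0 < r) (C : ℕ) :
    Integrable (fun x => μ.real (closedBall x (C * r)) / μ.real (closedBall x r)) μ ∧
      ∫ x, μ.real (closedBall x (C * r)) / μ.real (closedBall x r) ∂μ ≤ 2 * (C + 1) := by
  have h1 := expand μ hr C
  have hm : Measurable fun x => μ (closedBall x (C * r)) / μ (closedBall x r) :=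
    (measurable_ball μ _).div (measurable_ball μ _)
  have htop : ∫⁻ x, μ (closedBall x (C * r)) / μ (closedBall x r) ∂μ ≠ ⊤ :=
    ne_top_of_le_ne_top (by
      exact ENNReal.mul_ne_top ENNReal.ofNat_ne_top
        (ENNReal.add_ne_top.2 ⟨ENNReal.natCast_ne_top _, ENNReal.one_ne_top⟩)) h1
  have e1 : (fun x => μ.real (closedBall x (C * r)) / μ.real (closedBall x r)) =
      fun x => (μ (closedBall x (C * r)) / μ (closedBall x r)).toReal := by
    funext x
    rw [measureReal_def, measureReal_def, ENNReal.toReal_div]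
  rw [e1]
  refine ⟨integrable_toReal_of_lintegral_ne_top hm.aemeasurable htop, ?_⟩
  rw [integral_toReal hm.aemeasurable (ae_lt_top hm htop)]
  have h2 := ENNReal.toReal_mono (by
    exact ENNReal.mul_ne_top ENNReal.ofNat_ne_top
        (ENNReal.add_ne_top.2 ⟨ENNReal.natCast_ne_top _, ENNReal.one_ne_top⟩)) h1
  refine h2.trans (le_of_eq ?_)
  rw [ENNReal.toReal_mul, ENNReal.toReal_add (ENNReal.natCast_ne_top _) ENNReal.one_ne_top]
  simp

lemma pos_ball_real (μ : Measure T) [IsProbabilityMeasure μ] {r : ℝ} (hr : 0 < r) :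
    ∀ᵐ x ∂μ, 0 < μ.real (closedBall x r) := by
  filter_upwards [pos_ball μ hr] with x hx
  exact ENNReal.toReal_pos hx.ne' (measure_ne_top _ _)

/-- one step of the information -/
lemma step_info (μ : Measure T) [IsProbabilityMeasure μ] {r δ ε : ℝ} {C : ℕ} (hr : 0 < r)
    (hC : 2 ≤ C) (hδ : 0 < δ) (hδ1 : δ ≤ 1)
    (h : μ.real {x | μ.real (closedBall x (r / C)) ≤ δ * μ.real (closedBall x r)} ≤ ε) :
    Integrable (fun x => Real.log (μ.real (closedBall x r)) -
        Real.log (μ.real (closedBall x (r / C)))) μ ∧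
      ∫ x, (Real.log (μ.real (closedBall x r)) - Real.log (μ.real (closedBall x (r / C)))) ∂μ ≤
        Real.log (1 / δ) + ε * Real.log C + 3 := by
  have hCR : (2 : ℝ) ≤ C := by exact_mod_cast hC
  have hC0 : (0 : ℝ) < C := by linarith
  have hs : 0 < r / C := by positivity
  have hCr : (C : ℝ) * (r / C) = r := by field_simp
  obtain ⟨h1, h2⟩ := expand_real μ hs C
  rw [hCr] at h1 h2
  set E : Set T := {x | μ.real (closedBall x (r / C)) ≤ δ * μ.real (closedBall x r)} with hE
  have hEm : MeasurableSet E := measurableSet_ratio μ _ _ _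
  set Y : T → ℝ := fun x => μ.real (closedBall x r) / μ.real (closedBall x (r / C)) with hY
  have hlogC : 0 ≤ Real.log C := Real.log_nonneg (by linarith)
  have hlogδ : 0 ≤ Real.log (1 / δ) := Real.log_nonneg (by rw [le_div_iff₀ hδ]; linarith)
  -- pointwise facts
  have hpt : ∀ᵐ x ∂μ, 0 ≤ Real.log (μ.real (closedBall x r)) - Real.log (μ.real (closedBall x (r / C))) ∧
      Real.log (μ.real (closedBall x r)) - Real.log (μ.real (closedBall x (r / C))) ≤ Y x ∧
      Real.log (μ.real (closedBall x r)) - Real.log (μ.real (closedBall x (r / C))) ≤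
        Real.log (1 / δ) + E.indicator (fun _ => Real.log C) x + (C : ℝ)⁻¹ * Y x := by
    filter_upwards [pos_ball_real μ hr, pos_ball_real μ hs] with x hx1 hx2
    have hle : μ.real (closedBall x (r / C)) ≤ μ.real (closedBall x r) :=
      measureReal_mono (Metric.closedBall_subset_closedBall (div_le_self hr.le (by linarith)))
    have hY0 : 0 < Y x := by rw [hY]; positivity
    have e1 : Real.log (μ.real (closedBall x r)) - Real.log (μ.real (closedBall x (r / C))) =
        Real.log (Y x) := by rw [hY, Real.log_div hx1.ne' hx2.ne']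
    have hY1 : 1 ≤ Y x := by rw [hY, le_div_iff₀ hx2]; linarith
    rw [e1]
    refine ⟨Real.log_nonneg hY1, ?_, ?_⟩
    · have := Real.log_le_sub_one_of_pos hY0
      linarith
    · by_cases hxE : x ∈ E
      · rw [indicator_of_mem hxE]
        have h3 : Real.log (Y x) = Real.log C + Real.log ((C : ℝ)⁻¹ * Y x) := by
          rw [← Real.log_mul hC0.ne' (by positivity)]
          congr 1
          field_simp
        have h4 := Real.log_le_sub_one_of_pos (show 0 < (C : ℝ)⁻¹ * Y x by positivity)
        rw [h3]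
        linarith
      · rw [indicator_of_notMem hxE]
        have h3 : δ * μ.real (closedBall x r) < μ.real (closedBall x (r / C)) := not_le.1 hxE
        have h4 : Y x ≤ 1 / δ := by
          rw [hY, div_le_div_iff₀ hx2 hδ]
          linarith
        have h5 := Real.log_le_log hY0 h4
        have h6 : 0 ≤ (C : ℝ)⁻¹ * Y x := by positivity
        linarith
  have hmeas : AEStronglyMeasurable (fun x => Real.log (μ.real (closedBall x r)) -
      Real.log (μ.real (closedBall x (r / C)))) μ :=
    ((measurable_ball μ r).ennreal_toReal.log.sub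
      (measurable_ball μ (r / C)).ennreal_toReal.log).aestronglyMeasurable
  have hint : Integrable (fun x => Real.log (μ.real (closedBall x r)) -
      Real.log (μ.real (closedBall x (r / C)))) μ := by
    refine Integrable.mono' h1 hmeas ?_
    filter_upwards [hpt] with x hx
    rw [Real.norm_of_nonneg hx.1]
    exact hx.2.1
  refine ⟨hint, ?_⟩
  have hind : Integrable (fun x => E.indicator (fun _ => Real.log C) x) μ :=
    (integrable_const _).indicator hEm
  have hA : Integrable (fun x => Real.log (1 / δ) + E.indicator (fun _ => Real.log C) x) μ :=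
    (integrable_const _).add hind
  have hint2 : Integrable (fun x => Real.log (1 / δ) + E.indicator (fun _ => Real.log C) x +
      (C : ℝ)⁻¹ * Y x) μ := hA.add (h1.const_mul _)
  calc ∫ x, (Real.log (μ.real (closedBall x r)) - Real.log (μ.real (closedBall x (r / C)))) ∂μ
      ≤ ∫ x, (Real.log (1 / δ) + E.indicator (fun _ => Real.log C) x + (C : ℝ)⁻¹ * Y x) ∂μ :=
        integral_mono_ae hint hint2 (hpt.mono fun x hx => hx.2.2)
    _ = Real.log (1 / δ) + μ.real E * Real.log C + (C : ℝ)⁻¹ * ∫ x, Y x ∂μ := by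
        rw [integral_add hA (h1.const_mul _), integral_add (integrable_const _) hind,
          integral_const, integral_indicator_const _ hEm, integral_const_mul]
        simp
    _ ≤ Real.log (1 / δ) + ε * Real.log C + (C : ℝ)⁻¹ * (2 * (C + 1)) := by gcongr
    _ ≤ _ := by
        have : (C : ℝ)⁻¹ * (2 * (C + 1)) ≤ 3 := by
          rw [inv_mul_le_iff₀ hC0]; linarith
        linarith

/-- the information at the scale `r / C ^ J` -/
lemma info (μ : Measure T) [IsProbabilityMeasure μ] {r1 δ ε : ℝ} {C : ℕ} (hr1 : 0 < r1)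
    (hC : 2 ≤ C) (hδ : 0 < δ) (hδ1 : δ ≤ 1)
    (h : ∀ r : ℝ, 0 < r → r ≤ r1 →
      μ.real {x | μ.real (closedBall x (r / C)) ≤ δ * μ.real (closedBall x r)} ≤ ε) :
    ∃ Q0 : ℝ, 0 ≤ Q0 ∧ ∀ J : ℕ,
      Integrable (fun x => -Real.log (μ.real (closedBall x (r1 / (C : ℝ) ^ J)))) μ ∧
      ∫ x, -Real.log (μ.real (closedBall x (r1 / (C : ℝ) ^ J))) ∂μ ≤
        Q0 + J * (Real.log (1 / δ) + ε * Real.log C + 3) := by
  have hCR : (2 : ℝ) ≤ C := by exact_mod_cast hC
  obtain ⟨C', hC'⟩ := exists_nat_ge (1 / r1)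
  have hC'1 : 1 ≤ C' * r1 := by
    rw [div_le_iff₀ hr1] at hC'; exact hC'
  obtain ⟨h1, h2⟩ := expand_real μ hr1 C'
  have huniv : ∀ x : T, μ.real (closedBall x (C' * r1)) = 1 := by
    intro x
    have : closedBall x (C' * r1) = univ := by
      refine eq_univ_of_forall fun y => ?_
      rw [mem_closedBall, dist_eq_norm]
      have h3 : ‖y - x‖ ≤ 1 / 2 := by
        have := AddCircle.norm_le_half_period (p := (1 : ℝ)) (x := y - x) one_ne_zero
        simpa using this
      linarith
    rw [this, probReal_univ]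
  simp_rw [huniv] at h1 h2
  have hbase : Integrable (fun x => -Real.log (μ.real (closedBall x r1))) μ ∧
      ∫ x, -Real.log (μ.real (closedBall x r1)) ∂μ ≤ 2 * ((C' : ℝ) + 1) := by
    have hpt : ∀ᵐ x ∂μ, 0 ≤ -Real.log (μ.real (closedBall x r1)) ∧
        -Real.log (μ.real (closedBall x r1)) ≤ 1 / μ.real (closedBall x r1) := by
      filter_upwards [pos_ball_real μ hr1] with x hx
      have h3 : μ.real (closedBall x r1) ≤ 1 := measureReal_le_one
      refine ⟨?_, ?_⟩
      · have := Real.log_nonpos hx.le h3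
        linarith
      · rw [← Real.log_inv, ← one_div]
        have := Real.log_le_sub_one_of_pos (show 0 < 1 / μ.real (closedBall x r1) by positivity)
        linarith
    have hint : Integrable (fun x => -Real.log (μ.real (closedBall x r1))) μ := by
      refine Integrable.mono' h1
        (measurable_ball μ r1).ennreal_toReal.log.neg.aestronglyMeasurable ?_
      filter_upwards [hpt] with x hx
      rw [Real.norm_of_nonneg hx.1]
      exact hx.2
    exact ⟨hint, (integral_mono_ae hint h1 (hpt.mono fun x hx => hx.2)).trans h2⟩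
  refine ⟨2 * ((C' : ℝ) + 1), by positivity, fun J => ?_⟩
  induction J with
  | zero => simpa using hbase
  | succ J ih =>
    have hrJ : 0 < r1 / (C : ℝ) ^ J := by positivity
    have hrJ1 : r1 / (C : ℝ) ^ J ≤ r1 := div_le_self hr1.le (one_le_pow₀ (by linarith))
    obtain ⟨h3, h4⟩ := step_info μ hrJ hC hδ hδ1 (h _ hrJ hrJ1)
    have e1 : r1 / (C : ℝ) ^ J / C = r1 / (C : ℝ) ^ (J + 1) := by
      rw [div_div, pow_succ]
    rw [e1] at h3 h4
    have e2 : (fun x => -Real.log (μ.real (closedBall x (r1 / (C : ℝ) ^ (J + 1))))) =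
        fun x => -Real.log (μ.real (closedBall x (r1 / (C : ℝ) ^ J))) +
          (Real.log (μ.real (closedBall x (r1 / (C : ℝ) ^ J))) -
            Real.log (μ.real (closedBall x (r1 / (C : ℝ) ^ (J + 1))))) := by
      funext x; ring
    rw [e2]
    refine ⟨ih.1.add h3, ?_⟩
    rw [integral_add ih.1 h3]
    push_cast
    linarith [ih.2]

/-- **The covering property** of the invariant measures which are singular to Lebesgue measure. -/
theorem cov_of_sing {p q : ℕ} (hp : 2 ≤ p) (hq : 2 ≤ q)
    (hirr : Irrational (Real.log p / Real.log q)) (μ : Measure T) [IsProbabilityMeasure μ]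
    (hip : MeasurePreserving (fun x : T => p • x) μ μ)
    (hiq : MeasurePreserving (fun x : T => q • x) μ μ) (hs : μ ⟂ₘ (volume : Measure T)) :
    Cov μ := by
  intro κ c hκ hc k
  set ε : ℝ := κ / (8 * (k + 1)) with hε
  have hε0 : 0 < ε := by positivity
  obtain ⟨δ0, hδ0, hδ⟩ := sing_ratio hp hq hirr μ hip hiq hs hε0
  set δ : ℝ := min δ0 1 with hδd
  have hδpos : 0 < δ := lt_min hδ0 one_pos
  have hδ1 : δ ≤ 1 := min_le_right _ _
  have hlogδ : 0 ≤ Real.log (1 / δ) := Real.log_nonneg (by rw [le_div_iff₀ hδpos]; linarith)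
  -- choice of `C`
  obtain ⟨C, hC2, hC⟩ : ∃ C : ℕ, 2 ≤ C ∧
      8 * (k + 1) / κ * (Real.log (1 / δ) + 3) + 1 ≤ Real.log C := by
    have h1 : Tendsto (fun C : ℕ => Real.log C) atTop atTop :=
      Real.tendsto_log_atTop.comp tendsto_natCast_atTop_atTop
    obtain ⟨C, h2, h3⟩ := ((h1.eventually_ge_atTop (8 * (k + 1) / κ *
      (Real.log (1 / δ) + 3) + 1)).and (eventually_ge_atTop 2)).exists
    exact ⟨C, h3, h2⟩
  have hCR : (2 : ℝ) ≤ C := by exact_mod_cast hC2
  obtain ⟨r', hr', hrC⟩ := hδ C (by linarith)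
  set r1 : ℝ := r' / 2 with hr1d
  have hr1 : 0 < r1 := by positivity
  obtain ⟨Q0, hQ0, hinfo⟩ := info μ (r1 := r1) (δ := δ) (ε := ε) hr1 hC2 hδpos hδ1 (by
    intro r hr hrr
    refine le_trans (measureReal_mono ?_) (hrC r hr (by linarith))
    intro x hx
    have hx' : μ.real (closedBall x (r / C)) ≤ δ * μ.real (closedBall x r) := hx
    show μ.real (closedBall x (r / C)) ≤ δ0 * μ.real (closedBall x r)
    exact hx'.trans (mul_le_mul_of_nonneg_right (min_le_left _ _) measureReal_nonneg))
  set Q : ℝ := Real.log (1 / δ) + ε * Real.log C + 3 with hQ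
  have hlogC : 0 ≤ Real.log C := Real.log_nonneg (by linarith)
  have hQpos : 0 < Q := by
    rw [hQ]
    have : 0 ≤ ε * Real.log C := by positivity
    linarith
  -- the exponent
  have hexp : 2 * k / κ * Q ≤ Real.log C / 2 := by
    have h1 : 2 * k / κ * (ε * Real.log C) ≤ Real.log C / 4 := by
      rw [hε]
      have : 2 * (k : ℝ) / κ * (κ / (8 * (k + 1)) * Real.log C) =
          Real.log C / 4 * (k / (k + 1)) := by field_simp; ring
      rw [this]
      have h2 : (k : ℝ) / (k + 1) ≤ 1 := by
        rw [div_le_one (by positivity)]; linarith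
      calc Real.log C / 4 * (k / (k + 1)) ≤ Real.log C / 4 * 1 := by gcongr
        _ = _ := mul_one _
    have h2 : 2 * k / κ * (Real.log (1 / δ) + 3) ≤ Real.log C / 4 := by
      have h3 : 8 * (k + 1) / κ * (Real.log (1 / δ) + 3) ≤ Real.log C := by linarith
      have h4 : 8 * (k : ℝ) / κ * (Real.log (1 / δ) + 3) ≤
          8 * (k + 1) / κ * (Real.log (1 / δ) + 3) := by
        gcongr
        linarith
      have h5 : 2 * (k : ℝ) / κ * (Real.log (1 / δ) + 3) =
          (8 * (k : ℝ) / κ * (Real.log (1 / δ) + 3)) / 4 := by ring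
      rw [h5]
      linarith
    calc 2 * k / κ * Q = 2 * k / κ * (Real.log (1 / δ) + 3) + 2 * k / κ * (ε * Real.log C) := by
          rw [hQ]; ring
      _ ≤ _ := by linarith
  -- choice of `J`
  obtain ⟨J, hJ⟩ : ∃ J : ℕ, 2 * r1 * (2 : ℝ) ^ k * Real.exp (2 * k / κ * (Q0 + 1)) *
      Real.exp (-(J * (Real.log C / 2))) ≤ c := by
    have h1 : Tendsto (fun J : ℕ => 2 * r1 * (2 : ℝ) ^ k * Real.exp (2 * k / κ * (Q0 + 1)) *
        Real.exp (-((J : ℝ) * (Real.log C / 2)))) atTop
        (𝓝 (2 * r1 * (2 : ℝ) ^ k * Real.exp (2 * k / κ * (Q0 + 1)) * 0)) := by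
      refine Tendsto.const_mul _ ?_
      refine Real.tendsto_exp_neg_atTop_nhds_zero.comp ?_
      refine Tendsto.atTop_mul_const ?_ tendsto_natCast_atTop_atTop
      have : 0 < Real.log C := Real.log_pos (by linarith)
      linarith
    rw [mul_zero] at h1
    exact (h1.eventually (ge_mem_nhds hc)).exists
  obtain ⟨hI1, hI2⟩ := hinfo J
  set rJ : ℝ := r1 / (C : ℝ) ^ J with hrJ
  have hrJ0 : 0 < rJ := by positivity
  set L : ℝ := 2 / κ * (Q0 + 1 + J * Q) with hL
  have hL0 : 0 < L := by positivity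
  -- Markov
  have hpt : ∀ᵐ x ∂μ, 0 ≤ -Real.log (μ.real (closedBall x rJ)) := by
    filter_upwards [pos_ball_real μ hrJ0] with x hx
    have := Real.log_nonpos hx.le (measureReal_le_one (μ := μ))
    linarith
  have hM := mul_meas_ge_le_integral_of_nonneg hpt hI1 L
  have hbad : μ.real {x | L ≤ -Real.log (μ.real (closedBall x rJ))} ≤ κ / 2 := by
    have h1 : L * μ.real {x | L ≤ -Real.log (μ.real (closedBall x rJ))} ≤ Q0 + J * Q := by
      rw [measureReal_def]
      exact hM.trans hI2
    have h2 : Q0 + J * Q ≤ L * (κ / 2) := by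
      rw [hL]
      have : 2 / κ * (Q0 + 1 + J * Q) * (κ / 2) = Q0 + 1 + J * Q := by field_simp
      rw [this]; linarith
    exact le_of_mul_le_mul_left (h1.trans h2) hL0
  set G : Set T := {x | Real.exp (-L) ≤ μ.real (closedBall x rJ)} with hG
  obtain ⟨K, cen, hK1, hK, hGU⟩ := packing μ (G := G) (r := rJ) (Real.exp_pos (-L)) fun x hx => hx
  refine ⟨K, cen, 2 * rJ, hK1, by positivity, ?_, ?_⟩
  · have h1 : (K : ℝ) ≤ 2 * Real.exp L := by
      refine hK.trans ?_
      rw [one_div, ← Real.exp_neg, neg_neg]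
      have := Real.one_le_exp hL0.le
      linarith
    have h2 : (K : ℝ) ^ k ≤ (2 * Real.exp L) ^ k := by gcongr
    have h3 : (C : ℝ) ^ J = Real.exp (J * Real.log C) := by
      rw [Real.exp_nat_mul, Real.exp_log (by linarith)]
    calc 2 * rJ * (K : ℝ) ^ k ≤ 2 * rJ * (2 * Real.exp L) ^ k := by gcongr
      _ = 2 * r1 * (2 : ℝ) ^ k * (Real.exp (-(J * Real.log C)) * Real.exp (k * L)) := by
          rw [hrJ, h3, mul_pow, ← Real.exp_nat_mul, Real.exp_neg]
          field_simp
      _ ≤ 2 * r1 * (2 : ℝ) ^ k * (Real.exp (2 * k / κ * (Q0 + 1)) *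
            Real.exp (-(J * (Real.log C / 2)))) := by
          rw [← Real.exp_add, ← Real.exp_add]
          have h4 : (k : ℝ) * L = 2 * k / κ * (Q0 + 1) + J * (2 * k / κ * Q) := by rw [hL]; ring
          have h5 : (J : ℝ) * (2 * k / κ * Q) ≤ J * (Real.log C / 2) := by gcongr
          refine mul_le_mul_of_nonneg_left (Real.exp_le_exp.2 ?_) (by positivity)
          rw [h4]
          linarith
      _ = 2 * r1 * (2 : ℝ) ^ k * Real.exp (2 * k / κ * (Q0 + 1)) *
            Real.exp (-(J * (Real.log C / 2))) := by ring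
      _ ≤ c := hJ
  · have h1 : (U cen (2 * rJ))ᶜ ⊆ {x | L ≤ -Real.log (μ.real (closedBall x rJ))} ∪
        {x | ¬ 0 < μ.real (closedBall x rJ)} := by
      intro x hx
      by_cases hx0 : 0 < μ.real (closedBall x rJ)
      · left
        have hxG : x ∉ G := fun h => hx (hGU h)
        have h2 : μ.real (closedBall x rJ) < Real.exp (-L) := not_le.1 hxG
        have h3 := (Real.log_lt_iff_lt_exp hx0).2 h2
        show L ≤ -Real.log (μ.real (closedBall x rJ))
        linarith
      · exact Or.inr hx0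
    have h2 : μ.real {x | ¬ 0 < μ.real (closedBall x rJ)} = 0 := by
      rw [measureReal_def, ae_iff.1 (pos_ball_real μ hrJ0), ENNReal.toReal_zero]
    calc μ.real (U cen (2 * rJ))ᶜ ≤ _ := measureReal_mono h1
      _ ≤ _ := measureReal_union_le _ _
      _ ≤ κ / 2 + 0 := by rw [h2]; linarith
      _ ≤ κ := by linarith

end Pool.Agent.H806.Gap
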