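import Pool.Agent.H806_Gap.Single

/-!
The criterion at a single scale.
-/

set_option autoImplicit false

open MeasureTheory Filter Topology Set
open scoped ENNReal

namespace Pool.Agent.H806.Gap

open Pool.Agent.W764.FB (T EssInj hh)
open Pool.Agent.W764.HL (win mem_win)
open Metric (closedBall mem_closedBall)

/-- the average over the window -/
noncomputable def AW (W : Finset ℕ) (f : T → ℝ) (y : T) : ℝ := (W.card : ℝ)⁻¹ * ∑ n ∈ W, f (n • y)

lemma continuous_AW (W : Finset ℕ) {f : T → ℝ} (hf : Continuous f) : Continuous (AW W f) := by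
  unfold AW
  exact continuous_const.mul (continuous_finsetSum _ fun n _ => hf.comp (continuous_nsmul n))

lemma integral_AW {W : Finset ℕ} (hW : W.Nonempty) {f : T → ℝ} (hf : Continuous f) (μ : Measure T)
    [IsFiniteMeasure μ] (hinv : ∀ n ∈ W, MeasurePreserving (fun x : T => n • x) μ μ) :
    ∫ y, AW W f y ∂μ = ∫ y, f y ∂μ := by
  obtain ⟨C, hC⟩ : ∃ C, ∀ y, ‖f y‖ ≤ C := by
    obtain ⟨C, hC⟩ := isCompact_univ.exists_bound_of_continuousOn hf.continuousOn
    exact ⟨C, fun y => hC y (mem_univ _)⟩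
  have hint : ∀ n : ℕ, Integrable (fun y : T => f (n • y)) μ := fun n =>
    Integrable.of_bound (hf.comp (continuous_nsmul n)).aestronglyMeasurable C
      (Eventually.of_forall fun y => hC _)
  unfold AW
  rw [integral_const_mul, integral_finsetSum _ fun n _ => hint n]
  have h1 : ∀ n ∈ W, ∫ y, f (n • y) ∂μ = ∫ y, f y ∂μ := by
    intro n hn
    have h2 := hinv n hn
    conv_rhs => rw [← h2.map_eq]
    rw [integral_map h2.measurable.aemeasurable hf.aestronglyMeasurable]
  rw [Finset.sum_congr rfl h1, Finset.sum_const, nsmul_eq_mul, ← mul_assoc, inv_mul_cancel₀, one_mul]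
  exact_mod_cast (Finset.card_pos.2 hW).ne'

/-- trigonometric polynomials are dense -/
lemma exists_trig {f : T → ℝ} (hf : Continuous f) {ε : ℝ} (hε : 0 < ε) :
    ∃ (F : Finset ℤ) (c : ℤ → ℂ), ∀ y, ‖(f y : ℂ) - ∑ m ∈ F, c m * (fourier m y : ℂ)‖ ≤ ε := by
  set fc : C(T, ℂ) := ⟨fun y => (f y : ℂ), Complex.continuous_ofReal.comp hf⟩ with hfc
  have h1 : fc ∈ (Submodule.span ℂ (range (@fourier 1))).topologicalClosure := by
    rw [span_fourier_closure_eq_top]; exact Submodule.mem_top
  rw [← SetLike.mem_coe, Submodule.topologicalClosure_coe, Metric.mem_closure_iff] at h1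
  obtain ⟨P, hP, hd⟩ := h1 ε hε
  rw [SetLike.mem_coe, Finsupp.mem_span_range_iff_exists_finsupp] at hP
  obtain ⟨c, hc⟩ := hP
  refine ⟨c.support, c, fun y => ?_⟩
  have h2 : P y = ∑ m ∈ c.support, c m * (fourier m y : ℂ) := by
    rw [← hc, Finsupp.sum, ContinuousMap.sum_apply]
    rfl
  rw [← h2]
  have h3 : ‖(fc - P) y‖ ≤ ‖fc - P‖ := ContinuousMap.norm_coe_le_norm _ y
  rw [dist_eq_norm] at hd
  exact h3.trans hd.le

/-- **The criterion at a single scale**, for a general gauge. -/
theorem single_scale {p q : ℕ} (hp : 2 ≤ p) (hq : 2 ≤ q)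
    (hirr : Irrational (Real.log p / Real.log q)) {g : ℝ → ℝ}
    (hg : Tendsto g atTop atTop) (hdio : Dio (Real.log p) (Real.log q) g) (A : ℕ)
    {f : T → ℝ} (hf : Continuous f) {ε : ℝ} (hε : 0 < ε) :
    ∃ δ : ℝ, 0 < δ ∧ ∃ r0 : ℝ, 0 < r0 ∧ ∀ r s : ℝ, 0 < s → s ≤ r → r < r0 →
      r ≤ g (-Real.log s) ^ A * s → ∃ W : Finset ℕ, W.Nonempty ∧
        (∀ n ∈ W, ∃ a b : ℕ, n = p ^ a * q ^ b) ∧
        ∀ μ : Measure T, IsProbabilityMeasure μ → ∀ E : Set T, MeasurableSet E →
          (∀ x ∈ E, μ.real (closedBall x s) ≤ δ * μ.real (closedBall x r)) →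
          |∫ y in E, AW W f y ∂μ - μ.real E * ∫ y, f y ∂(volume : Measure T)| ≤ ε := by
  classical
  obtain ⟨F, c, hFc⟩ := exists_trig hf (ε := ε / 4) (by positivity)
  set C : ℝ := ∑ m ∈ F, ‖c m‖ with hC
  have hC0 : 0 ≤ C := Finset.sum_nonneg fun m _ => norm_nonneg _
  set δ : ℝ := (ε / (6 * (C + 1))) ^ 2 / 2 with hδ
  have hδ0 : 0 < δ := by positivity
  have hδs : 3 * √(δ + δ) * C ≤ ε / 2 := by
    have e1 : δ + δ = (ε / (6 * (C + 1))) ^ 2 := by rw [hδ]; ring
    rw [e1, Real.sqrt_sq (by positivity)]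
    have e2 : 3 * (ε / (6 * (C + 1))) * C = ε / 2 * (C / (C + 1)) := by
      field_simp; ring
    rw [e2]
    have e3 : C / (C + 1) ≤ 1 := by
      rw [div_le_one (by positivity)]; linarith
    calc ε / 2 * (C / (C + 1)) ≤ ε / 2 * 1 := by gcongr
      _ = ε / 2 := mul_one _
  set M : ℕ := F.sup fun m => m.natAbs with hM
  obtain ⟨H, hH, τ0, hτ0, h⟩ := exp_win hp hq hirr hg hdio A M hδ0
  refine ⟨δ, hδ0, min τ0 1, lt_min hτ0 one_pos, fun r s hs hsr hr hrs => ?_⟩
  have hr0 : 0 < r := hs.trans_le hsr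
  obtain ⟨hne, hW⟩ := h s hs (hsr.trans_lt (hr.trans_le (min_le_left _ _)))
  set W := win p q (1 / s) (H / s) with hWd
  have hWpos : (0 : ℝ) < W.card := by exact_mod_cast Finset.card_pos.2 hne
  refine ⟨W, hne, fun n hn => ((mem_win).1 hn).1, fun μ hμ E hE hEδ => ?_⟩
  -- the characters
  have hchar : ∀ m ∈ F, m ≠ 0 → ‖∫ y in E, ES W m y ∂μ‖ ≤ 3 * √(δ + δ) * W.card := by
    intro m hmF hm
    refine local_bound μ hE W m hr0 (hr.le.trans (min_le_right _ _)) hδ0.le hδ0.le (τ := s) ?_ hEδ
    intro z hz1 hz2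
    refine hW z hz1 (hz2.trans hrs) m hm ?_
    have : m.natAbs ≤ M := Finset.le_sup (f := fun m : ℤ => m.natAbs) hmF
    rw [← Int.natCast_natAbs]
    exact_mod_cast this
  set P : T → ℂ := fun y => ∑ m ∈ F, c m * (fourier m y : ℂ) with hP
  set AP : T → ℂ := fun y => (W.card : ℂ)⁻¹ * ∑ n ∈ W, P (n • y) with hAP
  have hAPeq : ∀ y, AP y = (W.card : ℂ)⁻¹ * ∑ m ∈ F, c m * ES W m y := by
    intro y
    rw [hAP, hP]
    simp only [ES]
    rw [Finset.sum_comm]
    simp_rw [Finset.mul_sum]
  have hdiff : ∀ y, ‖((AW W f y : ℝ) : ℂ) - AP y‖ ≤ ε / 4 := by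
    intro y
    have e1 : ((AW W f y : ℝ) : ℂ) - AP y = (W.card : ℂ)⁻¹ *
        ∑ n ∈ W, ((f (n • y) : ℂ) - P (n • y)) := by
      rw [hAP, Finset.sum_sub_distrib, mul_sub]
      unfold AW
      push_cast
      rfl
    rw [e1, norm_mul, norm_inv, Complex.norm_natCast]
    calc (W.card : ℝ)⁻¹ * ‖∑ n ∈ W, ((f (n • y) : ℂ) - P (n • y))‖
        ≤ (W.card : ℝ)⁻¹ * ∑ n ∈ W, (ε / 4) := by
          gcongr
          exact (norm_sum_le _ _).trans (Finset.sum_le_sum fun n _ => hFc _)
      _ = ε / 4 := by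
          rw [Finset.sum_const, nsmul_eq_mul]
          field_simp
  -- integrals
  have hESint : ∀ m, Integrable (ES W m) (μ.restrict E) := fun m =>
    Integrable.of_bound (continuous_ES W m).aestronglyMeasurable W.card
      (Eventually.of_forall fun y => norm_ES W m y)
  have hAPint : Integrable AP (μ.restrict E) := by
    have : AP = fun y => (W.card : ℂ)⁻¹ * ∑ m ∈ F, c m * ES W m y := funext hAPeq
    rw [this]
    exact (integrable_finsetSum _ fun m _ => (hESint m).const_mul _).const_mul _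
  have hAWint : Integrable (fun y => ((AW W f y : ℝ) : ℂ)) (μ.restrict E) := by
    have hcont : Continuous fun y => ((AW W f y : ℝ) : ℂ) :=
      Complex.continuous_ofReal.comp (continuous_AW W hf)
    obtain ⟨C', hC'⟩ := isCompact_univ.exists_bound_of_continuousOn hcont.continuousOn
    exact Integrable.of_bound hcont.aestronglyMeasurable C'
      (Eventually.of_forall fun y => hC' y (mem_univ _))
  set c0 : ℂ := if 0 ∈ F then c 0 else 0 with hc0
  have hES0 : ∀ y, ES W 0 y = W.card := by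
    intro y
    unfold ES
    simp
  have h1 : ‖∫ y in E, AP y ∂μ - μ.real E * c0‖ ≤ ε / 2 := by
    have e1 : ∫ y in E, AP y ∂μ = (W.card : ℂ)⁻¹ * ∑ m ∈ F, c m * ∫ y in E, ES W m y ∂μ := by
      simp_rw [hAPeq]
      rw [integral_const_mul, integral_finsetSum _ fun m _ => (hESint m).const_mul _]
      simp_rw [integral_const_mul]
    have e2 : (μ.real E : ℂ) * c0 = (W.card : ℂ)⁻¹ * ∑ m ∈ F, if m = 0 then
        c m * ∫ y in E, ES W m y ∂μ else 0 := by
      rw [Finset.sum_ite_eq' F 0 fun m => c m * ∫ y in E, ES W m y ∂μ]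
      rw [hc0]
      split_ifs with h0
      · simp_rw [hES0]
        rw [integral_const, measureReal_restrict_apply_univ, Complex.real_smul]
        have : (W.card : ℂ) ≠ 0 := by exact_mod_cast (Finset.card_pos.2 hne).ne'
        field_simp
      · simp
    rw [e1, e2, ← mul_sub, ← Finset.sum_sub_distrib, norm_mul, norm_inv, Complex.norm_natCast]
    calc (W.card : ℝ)⁻¹ * ‖∑ m ∈ F, (c m * ∫ y in E, ES W m y ∂μ -
          if m = 0 then c m * ∫ y in E, ES W m y ∂μ else 0)‖
        ≤ (W.card : ℝ)⁻¹ * ∑ m ∈ F, ‖c m‖ * (3 * √(δ + δ) * W.card) := by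
          gcongr
          refine (norm_sum_le _ _).trans (Finset.sum_le_sum fun m hm => ?_)
          split_ifs with h0
          · rw [sub_self, norm_zero]; positivity
          · rw [sub_zero, norm_mul]
            gcongr
            exact hchar m hm h0
      _ = 3 * √(δ + δ) * C := by
          rw [← Finset.sum_mul, ← hC]
          field_simp
      _ ≤ ε / 2 := hδs
  have h2 : ‖∫ y in E, ((AW W f y : ℝ) : ℂ) ∂μ - ∫ y in E, AP y ∂μ‖ ≤ ε / 4 := by
    rw [← integral_sub hAWint hAPint]
    refine (norm_integral_le_of_norm_le_const (C := ε / 4) (Eventually.of_forall hdiff)).trans ?_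
    rw [measureReal_restrict_apply_univ]
    have : μ.real E ≤ 1 := measureReal_le_one
    nlinarith
  have h3 : ‖(c0 : ℂ) - ((∫ y, f y ∂(volume : Measure T) : ℝ) : ℂ)‖ ≤ ε / 4 := by
    have e1 : ∫ y, P y ∂(volume : Measure T) = c0 := by
      have e4 : ∀ m ∈ F, Integrable (fun y : T => c m * (fourier m y : ℂ)) (volume : Measure T) := by
        intro m _
        have hcm : Continuous fun y : T => c m * (fourier m y : ℂ) :=
          continuous_const.mul (map_continuous (fourier m))
        exact Integrable.of_bound hcm.aestronglyMeasurable ‖c m‖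
          (Eventually.of_forall fun y => by rw [norm_mul, norm_fourier_one, mul_one])
      simp only [hP]
      rw [integral_finsetSum _ e4, hc0]
      have e3 : ∀ m : ℤ, ∫ y, c m * (fourier m y : ℂ) ∂(volume : Measure T) =
          if m = 0 then c m else 0 := by
        intro m
        rw [integral_const_mul]
        split_ifs with h0
        · subst h0
          simp
        · rw [Pool.Agent.H847R3.XpXq.integral_fourier_zero h0, mul_zero]
      simp_rw [e3]
      rw [Finset.sum_ite_eq' F 0 c]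
    have hfint : Integrable (fun y => (f y : ℂ)) (volume : Measure T) := by
      have hcont : Continuous fun y => (f y : ℂ) := Complex.continuous_ofReal.comp hf
      obtain ⟨C', hC'⟩ := isCompact_univ.exists_bound_of_continuousOn hcont.continuousOn
      exact Integrable.of_bound hcont.aestronglyMeasurable C'
        (Eventually.of_forall fun y => hC' y (mem_univ _))
    have hPc : Continuous P := continuous_finsetSum _ fun m _ =>
      continuous_const.mul (map_continuous (fourier m))
    have hPint : Integrable P (volume : Measure T) := by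
      obtain ⟨C', hC'⟩ := isCompact_univ.exists_bound_of_continuousOn hPc.continuousOn
      exact Integrable.of_bound hPc.aestronglyMeasurable C'
        (Eventually.of_forall fun y => hC' y (mem_univ _))
    rw [← e1, ← integral_complex_ofReal, norm_sub_rev, ← integral_sub hfint hPint]
    refine (norm_integral_le_of_norm_le_const (C := ε / 4) (Eventually.of_forall hFc)).trans ?_
    simp
  have h4 : ((∫ y in E, AW W f y ∂μ - μ.real E * ∫ y, f y ∂(volume : Measure T) : ℝ) : ℂ) =
      (∫ y in E, ((AW W f y : ℝ) : ℂ) ∂μ - ∫ y in E, AP y ∂μ) +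
      (∫ y in E, AP y ∂μ - μ.real E * c0) +
      μ.real E * (c0 - ((∫ y, f y ∂(volume : Measure T) : ℝ) : ℂ)) := by
    rw [integral_complex_ofReal]
    push_cast
    ring
  have h5 : ‖((∫ y in E, AW W f y ∂μ - μ.real E * ∫ y, f y ∂(volume : Measure T) : ℝ) : ℂ)‖ ≤ ε := by
    rw [h4]
    refine (norm_add₃_le).trans ?_
    have h6 : ‖(μ.real E : ℂ) * (c0 - ((∫ y, f y ∂(volume : Measure T) : ℝ) : ℂ))‖ ≤ ε / 4 := by
      rw [norm_mul, Complex.norm_real, Real.norm_of_nonneg measureReal_nonneg]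
      have : μ.real E ≤ 1 := measureReal_le_one
      calc μ.real E * _ ≤ 1 * (ε / 4) := by gcongr
        _ = _ := one_mul _
    linarith
  rwa [Complex.norm_real, Real.norm_eq_abs] at h5

end Pool.Agent.H806.Gap
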