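import Pool.Agent.H806_Gap.Fejer
import Pool.Agent.H319R2.Measure

/-!
The Diophantine hypothesis: polynomial case and general case.
-/

set_option autoImplicit false

open Finset Filter Topology

namespace Pool.Agent.H806.Gap

/-- Dirichlet's theorem for two positive reals -/
lemma dirichlet {α β : ℝ} (hα : 0 < α) (hβ : 0 < β) {X : ℕ} (hX : 1 ≤ X) :
    ∃ Q Q' : ℕ, 0 < Q ∧ Q ≤ X ∧ (Q' : ℝ) ≤ (α / β + 1) * X ∧
      |(Q : ℝ) * α - Q' * β| ≤ β / (X + 1) := by
  obtain ⟨k, hk0, hkX, hk⟩ := Real.exists_nat_abs_mul_sub_round_le (α / β) (n := X) hX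
  set m : ℤ := round ((k : ℝ) * (α / β)) with hm
  have hkR : (0 : ℝ) < k := by exact_mod_cast hk0
  have hXR : (1 : ℝ) ≤ X := by exact_mod_cast hX
  have hkXR : (k : ℝ) ≤ X := by exact_mod_cast hkX
  have hpos : 0 < (k : ℝ) * (α / β) := by positivity
  have hm0 : 0 ≤ m := by
    have h1 : (k : ℝ) * (α / β) - m ≤ 1 / 2 := by
      have := abs_sub_round ((k : ℝ) * (α / β))
      exact (le_abs_self _).trans this
    have h2 : (-1 : ℝ) < m := by linarith
    have h3 : (-1 : ℤ) < m := by exact_mod_cast h2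
    omega
  have hmR : ((m.toNat : ℕ) : ℝ) = m := by
    have := Int.toNat_of_nonneg hm0
    exact_mod_cast this
  refine ⟨k, m.toNat, hk0, hkX, ?_, ?_⟩
  · rw [hmR]
    have h1 : (m : ℝ) - (k : ℝ) * (α / β) ≤ 1 / 2 := by
      have := abs_sub_round ((k : ℝ) * (α / β))
      rw [abs_sub_comm] at this
      exact (le_abs_self _).trans this
    have h2 : (k : ℝ) * (α / β) ≤ X * (α / β) := by gcongr
    nlinarith
  · rw [hmR]
    have e : (k : ℝ) * α - m * β = β * ((k : ℝ) * (α / β) - m) := by field_simp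
    rw [e, abs_mul, abs_of_pos hβ]
    calc β * |(k : ℝ) * (α / β) - m| ≤ β * (1 / (X + 1)) := by gcongr
      _ = β / (X + 1) := by ring

/-- a polynomial lower bound suffices, with a power function -/
theorem dio_poly {α β : ℝ} (hα : 0 < α) (hβ : 0 < β) {c : ℝ} (hc : 0 < c) (κ : ℕ)
    (h : ∀ Q Q' : ℕ, 0 < Q → c ≤ ((Q : ℝ) + Q') ^ κ * |(Q : ℝ) * α - Q' * β|) :
    ∃ θ : ℝ, 0 < θ ∧ Dio α β fun x => x ^ θ := by
  set ω : ℝ := 1 / (4 * (κ + 1)) with hω
  have hω0 : 0 < ω := by positivity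
  refine ⟨ω / 2, by positivity, ?_⟩
  set C1 : ℝ := α / β + 2 with hC1
  have hC10 : 0 < C1 := by positivity
  have h1 : ∀ᶠ x : ℝ in atTop, C1 ^ (κ + 1) / c ≤ x ^ (1 / 4 : ℝ) :=
    (tendsto_rpow_atTop (by norm_num)).eventually_ge_atTop _
  have h2 : ∀ᶠ x : ℝ in atTop, β ≤ x ^ (ω / 2) :=
    (tendsto_rpow_atTop (by positivity)).eventually_ge_atTop _
  unfold Dio
  filter_upwards [h1, h2, eventually_ge_atTop 1] with x hx1 hx2 hx3
  have hx0 : 0 < x := by linarith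
  set X : ℕ := ⌊x ^ ω⌋₊ with hX
  have hxω : 1 ≤ x ^ ω := Real.one_le_rpow hx3 hω0.le
  have hX1 : 1 ≤ X := (Nat.one_le_floor_iff _).2 hxω
  have hX1R : (1 : ℝ) ≤ X := by exact_mod_cast hX1
  have hXle : (X : ℝ) ≤ x ^ ω := Nat.floor_le (by positivity)
  have hXlt : x ^ ω < X + 1 := Nat.lt_floor_add_one _
  obtain ⟨Q, Q', hQ0, hQX, hQ', hδ⟩ := dirichlet hα hβ hX1
  set δ : ℝ := |(Q : ℝ) * α - Q' * β| with hδd
  have hQXR : (Q : ℝ) ≤ X := by exact_mod_cast hQX
  have hlow := h Q Q' hQ0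
  rw [← hδd] at hlow
  have hsum : (Q : ℝ) + Q' ≤ C1 * X := by rw [hC1]; linarith
  have hsum0 : 0 < (Q : ℝ) + Q' := by
    have : (0 : ℝ) < Q := by exact_mod_cast hQ0
    have : (0 : ℝ) ≤ Q' := Nat.cast_nonneg _
    linarith
  have hδ0 : 0 < δ := by
    by_contra hcon
    push Not at hcon
    have : ((Q : ℝ) + Q') ^ κ * δ ≤ 0 := mul_nonpos_of_nonneg_of_nonpos (by positivity) hcon
    linarith
  refine ⟨Q, Q', hδ0, ?_, ?_⟩
  · have h3 : β * x ^ (ω / 2) ≤ X + 1 := by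
      calc β * x ^ (ω / 2) ≤ x ^ (ω / 2) * x ^ (ω / 2) := by gcongr
        _ = x ^ ω := by rw [← Real.rpow_add hx0]; congr 1; ring
        _ ≤ X + 1 := hXlt.le
    calc δ * x ^ (ω / 2) ≤ β / (X + 1) * x ^ (ω / 2) := by gcongr
      _ = β * x ^ (ω / 2) / (X + 1) := by ring
      _ ≤ 1 := by rw [div_le_one (by positivity)]; exact h3
  · have h4 : (C1 * X) ^ (κ + 1) ≤ c * √x := by
      have h5 : ((X : ℝ)) ^ (κ + 1) ≤ x ^ (1 / 4 : ℝ) := by
        calc ((X : ℝ)) ^ (κ + 1) ≤ (x ^ ω) ^ (κ + 1) := by gcongr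
          _ = x ^ (1 / 4 : ℝ) := by
            rw [← Real.rpow_natCast, ← Real.rpow_mul hx0.le]
            congr 1
            rw [hω]
            push_cast
            field_simp
      have h6 : √x = x ^ (1 / 4 : ℝ) * x ^ (1 / 4 : ℝ) := by
        rw [← Real.rpow_add hx0, Real.sqrt_eq_rpow]; norm_num
      rw [mul_pow, h6]
      rw [div_le_iff₀ hc] at hx1
      calc C1 ^ (κ + 1) * (X : ℝ) ^ (κ + 1) ≤ (x ^ (1 / 4 : ℝ) * c) * x ^ (1 / 4 : ℝ) := by gcongr
        _ = _ := by ring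
    have h7 : ((Q : ℝ) + Q') ^ κ * ((Q : ℝ) + Q') ≤ ((Q : ℝ) + Q') ^ κ * (δ * √x) := by
      calc ((Q : ℝ) + Q') ^ κ * ((Q : ℝ) + Q') = ((Q : ℝ) + Q') ^ (κ + 1) := by ring
        _ ≤ (C1 * X) ^ (κ + 1) := by gcongr
        _ ≤ c * √x := h4
        _ ≤ (((Q : ℝ) + Q') ^ κ * δ) * √x := by gcongr
        _ = _ := by ring
    exact le_of_mul_le_mul_left h7 (by positivity)

/-- the case of `2` and `3` -/
theorem dio_two_three : ∃ θ : ℝ, 0 < θ ∧ Dio (Real.log (2 : ℕ)) (Real.log (3 : ℕ)) fun x => x ^ θ := by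
  obtain ⟨c, hc, h⟩ := Pool.Agent.H319R2.measure
  refine dio_poly (Real.log_pos (by norm_num)) (Real.log_pos (by norm_num)) hc 13 ?_
  intro Q Q' hQ
  have h1 := h (Q : ℤ) (-(Q' : ℤ)) (Or.inl (by exact_mod_cast hQ.ne'))
  have e1 : (((|(Q : ℤ)| + |-(Q' : ℤ)| : ℤ)) : ℝ) = (Q : ℝ) + Q' := by
    rw [abs_neg, Nat.abs_cast, Nat.abs_cast]
    push_cast
    ring
  rw [e1] at h1
  refine h1.trans (le_of_eq ?_)
  congr 2
  push_cast
  ring

/-- the elementary lower bound -/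
lemma elem_lower {p q : ℕ} (hp : 2 ≤ p) (hq : 2 ≤ q) (hirr : Irrational (Real.log p / Real.log q))
    {Q Q' : ℕ} (hQ : 0 < Q) : Real.exp (-(Q * Real.log p + Q' * Real.log q)) ≤
      |(Q : ℝ) * Real.log p - Q' * Real.log q| := by
  have hpR : (0 : ℝ) < p := by positivity
  have hqR : (0 : ℝ) < q := by positivity
  have hlog : ∀ a b : ℕ, 1 ≤ a → a < b → (1 : ℝ) / ((a : ℝ) * b) ≤ Real.log b - Real.log a := by
    intro a b ha hab
    have haR : (1 : ℝ) ≤ a := by exact_mod_cast ha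
    have hbR : (a : ℝ) + 1 ≤ b := by exact_mod_cast hab
    have hb0 : (0 : ℝ) < b := by linarith
    have h1 := Real.log_le_sub_one_of_pos (show (0 : ℝ) < a / b by positivity)
    rw [Real.log_div (by positivity) hb0.ne'] at h1
    have h2 : (1 : ℝ) / ((a : ℝ) * b) ≤ 1 - a / b := by
      rw [div_le_iff₀ (by positivity)]
      have : (1 - (a : ℝ) / b) * (a * b) = a * (b - a) := by field_simp
      rw [this]
      nlinarith
    linarith
  have hne : p ^ Q ≠ q ^ Q' := by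
    intro h
    have h1 := congrArg (fun n : ℕ => Real.log n) h
    simp only [Nat.cast_pow, Real.log_pow] at h1
    apply hirr
    have hlq : 0 < Real.log q := Real.log_pos (by exact_mod_cast (by omega : 1 < q))
    have hQR : (Q : ℝ) ≠ 0 := by exact_mod_cast hQ.ne'
    refine ⟨(Q' : ℚ) / Q, ?_⟩
    push_cast
    rw [div_eq_div_iff hQR hlq.ne']
    linarith
  have e1 : (Q : ℝ) * Real.log p = Real.log ((p ^ Q : ℕ) : ℝ) := by
    push_cast; rw [Real.log_pow]
  have e2 : (Q' : ℝ) * Real.log q = Real.log ((q ^ Q' : ℕ) : ℝ) := by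
    push_cast; rw [Real.log_pow]
  have hp1 : 1 ≤ p ^ Q := Nat.one_le_pow _ _ (by omega)
  have hq1 : 1 ≤ q ^ Q' := Nat.one_le_pow _ _ (by omega)
  have hp1R : (0 : ℝ) < ((p ^ Q : ℕ) : ℝ) := by exact_mod_cast hp1
  have hq1R : (0 : ℝ) < ((q ^ Q' : ℕ) : ℝ) := by exact_mod_cast hq1
  have e3 : Real.exp (-(Q * Real.log p + Q' * Real.log q)) =
      1 / (((p ^ Q : ℕ) : ℝ) * ((q ^ Q' : ℕ) : ℝ)) := by
    rw [e1, e2, Real.exp_neg, Real.exp_add, Real.exp_log hp1R, Real.exp_log hq1R, one_div]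
  rw [e3, e1, e2]
  rcases lt_or_gt_of_ne hne with hlt | hlt
  · have := hlog _ _ hp1 hlt
    rw [abs_sub_comm]
    exact this.trans (le_abs_self _)
  · have := hlog _ _ hq1 hlt
    rw [mul_comm] at this
    exact this.trans (le_abs_self _)

/-- the general case, with a logarithm -/
theorem dio_log {p q : ℕ} (hp : 2 ≤ p) (hq : 2 ≤ q)
    (hirr : Irrational (Real.log p / Real.log q)) :
    ∃ θ : ℝ, 0 < θ ∧ Dio (Real.log p) (Real.log q) fun x => θ * Real.log x := by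
  have hα : 0 < Real.log p := Real.log_pos (by exact_mod_cast (by omega : 1 < p))
  have hβ : 0 < Real.log q := Real.log_pos (by exact_mod_cast (by omega : 1 < q))
  set α := Real.log p with hαd
  set β := Real.log q with hβd
  set C2 : ℝ := 2 * α + β with hC2
  have hC20 : 0 < C2 := by positivity
  set κ : ℝ := 1 / (4 * C2) with hκ
  have hκ0 : 0 < κ := by positivity
  set C1 : ℝ := α / β + 2 with hC1
  have hC10 : 0 < C1 := by positivity
  refine ⟨κ / β, by positivity, ?_⟩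
  have h1 : ∀ᶠ x : ℝ in atTop, 1 / κ ≤ Real.log x := Real.tendsto_log_atTop.eventually_ge_atTop _
  have h2 : ∀ᶠ x : ℝ in atTop, C1 * κ * Real.log x ≤ x ^ (1 / 4 : ℝ) := by
    have h3 := (isLittleO_log_rpow_atTop (show (0 : ℝ) < 1 / 4 by norm_num)).bound
      (show (0 : ℝ) < (C1 * κ)⁻¹ by positivity)
    filter_upwards [h3, eventually_ge_atTop 1] with x h4 h5
    rw [Real.norm_eq_abs, Real.norm_eq_abs, abs_of_nonneg (Real.log_nonneg h5),
      abs_of_nonneg (by positivity)] at h4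
    calc C1 * κ * Real.log x ≤ C1 * κ * ((C1 * κ)⁻¹ * x ^ (1 / 4 : ℝ)) := by gcongr
      _ = x ^ (1 / 4 : ℝ) := by field_simp
  unfold Dio
  filter_upwards [h1, h2, eventually_ge_atTop 1] with x hx1 hx2 hx3
  have hx0 : 0 < x := by linarith
  have hlogx : 0 < Real.log x := lt_of_lt_of_le (by positivity) hx1
  have hκx : 1 ≤ κ * Real.log x := by
    rw [div_le_iff₀ hκ0] at hx1; linarith
  set X : ℕ := ⌊κ * Real.log x⌋₊ with hX
  have hX1 : 1 ≤ X := (Nat.one_le_floor_iff _).2 hκx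
  have hX1R : (1 : ℝ) ≤ X := by exact_mod_cast hX1
  have hXle : (X : ℝ) ≤ κ * Real.log x := Nat.floor_le (by positivity)
  have hXlt : κ * Real.log x < X + 1 := Nat.lt_floor_add_one _
  obtain ⟨Q, Q', hQ0, hQX, hQ', hδ⟩ := dirichlet hα hβ hX1
  set δ : ℝ := |(Q : ℝ) * α - Q' * β| with hδd
  have hQXR : (Q : ℝ) ≤ X := by exact_mod_cast hQX
  have hlow := elem_lower hp hq hirr (Q' := Q') hQ0
  rw [← hαd, ← hβd, ← hδd] at hlow
  have hδ0 : 0 < δ := (Real.exp_pos _).trans_le hlow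
  refine ⟨Q, Q', hδ0, ?_, ?_⟩
  · calc δ * (κ / β * Real.log x) ≤ β / (X + 1) * (κ / β * Real.log x) := by gcongr
      _ = κ * Real.log x / (X + 1) := by field_simp
      _ ≤ 1 := by rw [div_le_one (by positivity)]; exact hXlt.le
  · have h3 : (Q : ℝ) * α + Q' * β ≤ C2 * X := by
      have h4 : (Q' : ℝ) * β ≤ (α / β + 1) * X * β := by gcongr
      have h5 : (α / β + 1) * X * β = (α + β) * X := by field_simp
      have h6 : (Q : ℝ) * α ≤ X * α := by gcongr
      rw [hC2]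
      nlinarith
    have h4 : x ^ (-(1 / 4) : ℝ) ≤ δ := by
      refine le_trans ?_ hlow
      rw [Real.rpow_def_of_pos hx0]
      apply Real.exp_le_exp.2
      have h5 : C2 * X ≤ Real.log x / 4 := by
        calc C2 * X ≤ C2 * (κ * Real.log x) := by gcongr
          _ = Real.log x / 4 := by rw [hκ]; field_simp
      linarith
    have h5 : (Q : ℝ) + Q' ≤ x ^ (1 / 4 : ℝ) := by
      calc (Q : ℝ) + Q' ≤ C1 * X := by rw [hC1]; linarith
        _ ≤ C1 * (κ * Real.log x) := by gcongr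
        _ = C1 * κ * Real.log x := by ring
        _ ≤ _ := hx2
    refine h5.trans ?_
    calc x ^ (1 / 4 : ℝ) = x ^ (-(1 / 4) : ℝ) * √x := by
          rw [Real.sqrt_eq_rpow, ← Real.rpow_add hx0]; norm_num
      _ ≤ δ * √x := by gcongr

end Pool.Agent.H806.Gap
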