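import Pool.Agent.H806_Gap.Gap

/-!
The ratios of the masses of two concentric balls.
-/

set_option autoImplicit false

open MeasureTheory Filter Topology Set
open scoped ENNReal

namespace Pool.Agent.H806.Gap

open Pool.Agent.W764.FB (T EssInj hh)
open Pool.Agent.H706R2.Ren (U measurableSet_U)
open Pool.Agent.W764.HL (win mem_win eq_or_neg)
open Metric (closedBall mem_closedBall)

lemma norm_coe_le (t : ℝ) : ‖((t : ℝ) : T)‖ ≤ |t| := by
  rw [UnitAddCircle.norm_eq]
  have := round_le t 0
  simpa using this

/-- a ball is covered by two balls of half the radius -/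
lemma ball_cover (y : T) {r : ℝ} (_hr : 0 ≤ r) :
    closedBall y r ⊆ closedBall (y + ((r / 2 : ℝ) : T)) (r / 2) ∪
      closedBall (y - ((r / 2 : ℝ) : T)) (r / 2) := by
  intro x hx
  rw [mem_closedBall, dist_eq_norm] at hx
  rcases eq_or_neg (x - y) with h | h
  · left
    rw [mem_closedBall, dist_eq_norm]
    have e : x - (y + ((r / 2 : ℝ) : T)) = ((‖x - y‖ - r / 2 : ℝ) : T) := by
      rw [AddCircle.coe_sub, ← h]; abel
    rw [e]
    refine (norm_coe_le _).trans ?_
    rw [abs_le]
    constructor <;> linarith [norm_nonneg (x - y)]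
  · right
    rw [mem_closedBall, dist_eq_norm]
    have e : x - (y - ((r / 2 : ℝ) : T)) = -((‖x - y‖ - r / 2 : ℝ) : T) := by
      rw [AddCircle.coe_sub, neg_sub, ← neg_neg ((‖x - y‖ : ℝ) : T), ← h]; abel
    rw [e, norm_neg]
    refine (norm_coe_le _).trans ?_
    rw [abs_le]
    constructor <;> linarith [norm_nonneg (x - y)]

lemma pos_ball (μ : Measure T) {r : ℝ} (hr : 0 < r) : ∀ᵐ x ∂μ, 0 < μ (closedBall x r) := by
  have h : μ.support ∈ ae μ := Measure.support_mem_ae
  filter_upwards [h] with x hx
  exact (Measure.mem_support_iff_forall x).1 hx _ (Metric.closedBall_mem_nhds x hr)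

lemma measurable_ball (μ : Measure T) [SFinite μ] (r : ℝ) : Measurable fun x => μ (closedBall x r) := by
  have hS : MeasurableSet {w : T × T | dist w.2 w.1 ≤ r} :=
    (isClosed_le (by fun_prop) continuous_const).measurableSet
  exact measurable_measure_prodMk_left hS

lemma measurable_ball_inter (μ : Measure T) [SFinite μ] (r : ℝ) {E : Set T} (hE : MeasurableSet E) :
    Measurable fun x => μ (closedBall x r ∩ E) := by
  have hS : MeasurableSet {w : T × T | dist w.2 w.1 ≤ r ∧ w.2 ∈ E} := by
    refine MeasurableSet.inter ?_ (measurable_snd hE)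
    exact (isClosed_le (f := fun w : T × T => dist w.2 w.1) (g := fun _ => r) (by fun_prop)
      continuous_const).measurableSet
  exact measurable_measure_prodMk_left hS

/-- the inner integral -/
lemma inner_le (μ : Measure T) [IsFiniteMeasure μ] (y : T) {r : ℝ} (hr : 0 ≤ r) :
    ∫⁻ x in closedBall y r, (μ (closedBall x r))⁻¹ ∂μ ≤ 2 := by
  have key : ∀ c : T, ∫⁻ x in closedBall c (r / 2), (μ (closedBall x r))⁻¹ ∂μ ≤ 1 := by
    intro c
    set I := closedBall c (r / 2) with hI
    have h1 : ∀ x ∈ I, (μ (closedBall x r))⁻¹ ≤ (μ I)⁻¹ := by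
      intro x hx
      rw [ENNReal.inv_le_inv]
      refine measure_mono fun z hz => ?_
      rw [hI, mem_closedBall] at hx hz
      rw [mem_closedBall]
      have := dist_triangle_right z x c
      linarith
    calc ∫⁻ x in I, (μ (closedBall x r))⁻¹ ∂μ ≤ ∫⁻ _ in I, (μ I)⁻¹ ∂μ :=
          setLIntegral_mono' measurableSet_closedBall h1
      _ = (μ I)⁻¹ * μ I := by rw [setLIntegral_const]
      _ ≤ 1 := ENNReal.inv_mul_le_one _
  calc ∫⁻ x in closedBall y r, (μ (closedBall x r))⁻¹ ∂μ
      ≤ ∫⁻ x in closedBall (y + ((r / 2 : ℝ) : T)) (r / 2) ∪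
          closedBall (y - ((r / 2 : ℝ) : T)) (r / 2), (μ (closedBall x r))⁻¹ ∂μ :=
        lintegral_mono_set (ball_cover y hr)
    _ ≤ _ := lintegral_union_le _ _ _
    _ ≤ 1 + 1 := add_le_add (key _) (key _)
    _ = 2 := one_add_one_eq_two

/-- **The basic inequality.** -/
lemma tonelli (μ σ : Measure T) [IsFiniteMeasure μ] [IsFiniteMeasure σ] {r : ℝ} (hr : 0 ≤ r)
    {E : Set T} (hE : MeasurableSet E) :
    ∫⁻ x, σ (closedBall x r ∩ E) / μ (closedBall x r) ∂μ ≤ 2 * σ E := by
  have hm := measurable_ball μ r
  have hS : MeasurableSet {w : T × T | dist w.2 w.1 ≤ r ∧ w.2 ∈ E} := by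
    refine MeasurableSet.inter ?_ (measurable_snd hE)
    exact (isClosed_le (f := fun w : T × T => dist w.2 w.1) (g := fun _ => r) (by fun_prop)
      continuous_const).measurableSet
  have e1 : ∀ x, σ (closedBall x r ∩ E) / μ (closedBall x r) =
      ∫⁻ y, {w : T × T | dist w.2 w.1 ≤ r ∧ w.2 ∈ E}.indicator
        (fun w => (μ (closedBall w.1 r))⁻¹) (x, y) ∂σ := by
    intro x
    have e2 : ∀ y, {w : T × T | dist w.2 w.1 ≤ r ∧ w.2 ∈ E}.indicator
        (fun w => (μ (closedBall w.1 r))⁻¹) (x, y) =
        (closedBall x r ∩ E).indicator (fun _ => (μ (closedBall x r))⁻¹) y := by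
      intro y
      by_cases h : y ∈ closedBall x r ∩ E
      · rw [indicator_of_mem h, indicator_of_mem]
        exact ⟨mem_closedBall.1 h.1, h.2⟩
      · rw [indicator_of_notMem h, indicator_of_notMem]
        exact fun hc => h ⟨mem_closedBall.2 hc.1, hc.2⟩
    simp_rw [e2]
    rw [lintegral_indicator_const (measurableSet_closedBall.inter hE), mul_comm, div_eq_mul_inv]
  simp_rw [e1]
  rw [lintegral_lintegral_swap]
  · have h3 : ∀ y, ∫⁻ x, {w : T × T | dist w.2 w.1 ≤ r ∧ w.2 ∈ E}.indicator
        (fun w => (μ (closedBall w.1 r))⁻¹) (x, y) ∂μ ≤ E.indicator (fun _ => 2) y := by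
      intro y
      by_cases hy : y ∈ E
      · rw [indicator_of_mem hy]
        have e2 : ∀ x, {w : T × T | dist w.2 w.1 ≤ r ∧ w.2 ∈ E}.indicator
            (fun w => (μ (closedBall w.1 r))⁻¹) (x, y) =
            (closedBall y r).indicator (fun x => (μ (closedBall x r))⁻¹) x := by
          intro x
          by_cases h : x ∈ closedBall y r
          · rw [indicator_of_mem h, indicator_of_mem]
            exact ⟨by rw [dist_comm]; exact mem_closedBall.1 h, hy⟩
          · rw [indicator_of_notMem h, indicator_of_notMem]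
            exact fun hc => h (mem_closedBall.2 (by rw [dist_comm]; exact hc.1))
        simp_rw [e2]
        rw [lintegral_indicator measurableSet_closedBall]
        exact inner_le μ y hr
      · rw [indicator_of_notMem hy]
        refine le_of_eq ?_
        rw [lintegral_eq_zero_iff' (by
          refine (Measurable.indicator ?_ hS).comp_aemeasurable ?_
          · exact (hm.comp measurable_fst).inv
          · fun_prop)]
        refine Eventually.of_forall fun x => ?_
        exact indicator_of_notMem (fun hc => hy hc.2) _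
    refine (lintegral_mono h3).trans ?_
    rw [lintegral_indicator_const hE]
  · refine (Measurable.indicator ?_ hS).aemeasurable
    exact (hm.comp measurable_fst).inv

end Pool.Agent.H806.Gap
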