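import Pool.Agent.H806_Gap.Fejer
import Pool.Agent.H806_Gap.Ratio

/-!
Exponential sums over the windows, for characters of the circle.
-/

set_option autoImplicit false

open Finset Filter Topology

namespace Pool.Agent.H806.Gap

open Pool.Agent.H469R2.NK (e norm_e e_add conj_e e_zero)
open Pool.Agent.W764.FB (T)
open Pool.Agent.W764.SH (cnt slab slab_finite)
open Pool.Agent.W764.HL (win mem_win card_win coe_win card_large eq_or_neg exists_rep)

lemma fourier_e (m : ℤ) (d : ℝ) : (fourier m ((d : ℝ) : T) : ℂ) = e (m * d) := by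
  rw [fourier_coe_apply]
  unfold e
  congr 1
  push_cast
  ring

/-- **Exponential sums over a window.** -/
theorem exp_win {p q : ℕ} (hp : 2 ≤ p) (hq : 2 ≤ q) (hirr : Irrational (Real.log p / Real.log q))
    {g : ℝ → ℝ} (hg : Tendsto g atTop atTop) (hdio : Dio (Real.log p) (Real.log q) g) (A M : ℕ)
    {η : ℝ} (hη : 0 < η) : ∃ H : ℝ, 1 < H ∧ ∃ τ0 : ℝ, 0 < τ0 ∧
      ∀ τ : ℝ, 0 < τ → τ < τ0 → (win p q (1 / τ) (H / τ)).Nonempty ∧ ∀ z : T, τ ≤ ‖z‖ →
        ‖z‖ ≤ g (-Real.log τ) ^ A * τ → ∀ m : ℤ, m ≠ 0 → |m| ≤ M →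
          ‖∑ n ∈ win p q (1 / τ) (H / τ), (fourier m (n • z) : ℂ)‖ ≤
            η * (win p q (1 / τ) (H / τ)).card := by
  classical
  have hlp : 0 < Real.log p := Real.log_pos (by exact_mod_cast (by omega : 1 < p))
  have hlq : 0 < Real.log q := Real.log_pos (by exact_mod_cast (by omega : 1 < q))
  obtain ⟨L0, hL0⟩ := slab_sum hlp hlq hirr hg hdio A (M := (M : ℝ) + 1)
    (by have : (0 : ℝ) ≤ M := Nat.cast_nonneg M
        linarith)
    (ε := η) hη
  set L : ℝ := max 1 L0 with hL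
  have hL1 : 1 ≤ L := le_max_left _ _
  have hev := hL0 L (le_max_right _ _)
  obtain ⟨X, hX⟩ := eventually_atTop.1 hev
  set H : ℝ := Real.exp L with hH
  have hH1 : 1 < H := Real.one_lt_exp_iff.2 (by linarith)
  have hH0 : 0 < H := by linarith
  have hlogH : Real.log H = L := by rw [hH, Real.log_exp]
  obtain ⟨δ, hδ, hδ2⟩ := card_large hp hq hirr hH1 1
  refine ⟨H, hH1, min δ (Real.exp (-X)), by positivity, fun τ hτ hτ2 => ?_⟩
  have hcard := hδ2 τ hτ (hτ2.trans_le (min_le_left _ _))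
  have hx : X ≤ -Real.log τ := by
    have h1 : τ < Real.exp (-X) := hτ2.trans_le (min_le_right _ _)
    have h2 := (Real.log_lt_iff_lt_exp hτ).2 h1
    linarith
  set W := win p q (1 / τ) (H / τ) with hW
  have hne : W.Nonempty := by
    have : (0 : ℝ) < W.card := by linarith
    exact card_pos.1 (by exact_mod_cast this)
  refine ⟨hne, ?_⟩
  -- the real version
  have hreal : ∀ d : ℝ, τ ≤ d → d ≤ g (-Real.log τ) ^ A * τ → ∀ k : ℕ, 1 ≤ k → k ≤ M →
      ‖∑ n ∈ W, e (k * (n * d))‖ ≤ η * W.card := by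
    intro d hd1 hd2 k hk1 hkM
    have hd0 : 0 < d := hτ.trans_le hd1
    rw [hW, sum_win hp hq hirr hH0 hτ hlp hlq (fun n => e (k * (n * d)))]
    have hk1R : (1 : ℝ) ≤ k := by exact_mod_cast hk1
    have h2 := hX _ hx (k * d / τ) (by
      rw [le_div_iff₀ hτ]; nlinarith) (by
      rw [div_le_iff₀ hτ]
      have : (k : ℝ) ≤ M := by exact_mod_cast hkM
      calc (k : ℝ) * d ≤ (M + 1) * (g (-Real.log τ) ^ A * τ) := by gcongr; linarith
        _ = _ := by ring)
    rw [hlogH]
    have e1 : ∀ u : ℕ × ℕ, (k : ℝ) * d / τ *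
        Real.exp (ell (Real.log p) (Real.log q) u - -Real.log τ) =
        k * (Real.exp (ell (Real.log p) (Real.log q) u) * d) := by
      intro u
      rw [sub_neg_eq_add, Real.exp_add, Real.exp_log hτ]
      field_simp
    simp_rw [e1] at h2
    refine h2.trans (le_of_eq ?_)
    rw [card_win hp hq hirr (by positivity) (by positivity)]
    have h3 : Real.log (H / τ) - Real.log (1 / τ) = L := by
      rw [Real.log_div hH0.ne' hτ.ne', Real.log_div one_ne_zero hτ.ne', Real.log_one, hlogH]; ring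
    have h4 : Real.log (1 / τ) = -Real.log τ := by rw [one_div, Real.log_inv]
    rw [h3, h4]
  -- natural frequencies, positive representatives
  have hpos : ∀ d : ℝ, τ ≤ d → d ≤ g (-Real.log τ) ^ A * τ → ∀ m : ℤ, m ≠ 0 → |m| ≤ M →
      ‖∑ n ∈ W, (fourier m (n • ((d : ℝ) : T)) : ℂ)‖ ≤ η * W.card := by
    intro d hd1 hd2 m hm hmM
    have hna : 1 ≤ m.natAbs := Int.natAbs_pos.2 hm
    have hnM : m.natAbs ≤ M := by
      have : ((m.natAbs : ℕ) : ℤ) ≤ M := by rw [Int.natCast_natAbs]; exact hmM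
      exact_mod_cast this
    have h0 := hreal d hd1 hd2 m.natAbs hna hnM
    rcases Int.natAbs_eq m with h | h
    · refine le_trans (le_of_eq ?_) h0
      congr 1
      refine Finset.sum_congr rfl fun n _ => ?_
      rw [← AddCircle.coe_nsmul, fourier_e, nsmul_eq_mul]
      congr 2
      rw [h]; simp
    · refine le_trans (le_of_eq ?_) h0
      rw [← RCLike.norm_conj, map_sum]
      congr 1
      refine Finset.sum_congr rfl fun n _ => ?_
      rw [← AddCircle.coe_nsmul, fourier_e, nsmul_eq_mul, conj_e]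
      congr 1
      have : (m : ℝ) = -((m.natAbs : ℕ) : ℝ) := by
        rw [h]; simp
      rw [this]; ring
  intro z hz1 hz2 m hm hmM
  rcases eq_or_neg z with hz | hz
  · have := hpos ‖z‖ hz1 hz2 m hm hmM
    rwa [← hz] at this
  · have := hpos ‖z‖ hz1 hz2 (-m) (neg_ne_zero.2 hm) (by rwa [abs_neg])
    refine le_trans (le_of_eq ?_) this
    congr 1
    refine Finset.sum_congr rfl fun n _ => ?_
    conv_lhs => rw [hz]
    rw [smul_neg, fourier_apply, fourier_apply, smul_neg, neg_smul]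

end Pool.Agent.H806.Gap
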