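import Pool.Agent.H806_Gap.Strip
import Pool.Agent.W764.HL.Arc

/-!
Few multiples in an arc, from bounds for exponential sums.
-/

set_option autoImplicit false

open Finset Filter Topology

namespace Pool.Agent.H806.Gap

open Pool.Agent.H469R2.NK (e norm_e e_add conj_e e_zero)
open Pool.Agent.W764.FB (T)
open Pool.Agent.W764.SH (cnt slab slab_finite)
open Pool.Agent.W764.HL (win mem_win card_win coe_win card_large eq_or_neg exists_rep)

lemma e_re (x : ℝ) : (e x).re = Real.cos (2 * Real.pi * x) := by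
  unfold e
  rw [Complex.exp_ofReal_mul_I_re]

lemma e_int (n : ℤ) : e n = 1 := by
  unfold e
  rw [Complex.exp_eq_one_iff]
  exact ⟨n, by push_cast; ring⟩

lemma e_sub_int (x : ℝ) (n : ℤ) : e (x - n) = e x := by
  have : e (x - n) * e n = e x := by rw [← e_add]; congr 1; ring
  rwa [e_int, mul_one] at this

lemma sum_lower {t ρ : ℝ} {M : ℕ} (hρ : M * ρ ≤ 1 / 8) (ht : |t - round t| ≤ ρ) :
    (M : ℝ) / 2 ≤ ‖∑ j ∈ range M, e (j * t)‖ := by
  have h1 : ∀ j ∈ range M, (1 : ℝ) / 2 ≤ (e (j * t)).re := by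
    intro j hj
    rw [mem_range] at hj
    have e1 : e (j * t) = e (j * (t - round t)) := by
      have : (j : ℝ) * (t - round t) = j * t - ((j * round t : ℤ) : ℝ) := by push_cast; ring
      rw [this, e_sub_int]
    rw [e1, e_re, ← Real.cos_abs]
    have hjM : (j : ℝ) ≤ M := by exact_mod_cast hj.le
    have h2 : |(j : ℝ) * (t - round t)| ≤ 1 / 8 := by
      rw [abs_mul, Nat.abs_cast]
      calc (j : ℝ) * |t - round t| ≤ M * ρ := by gcongr
        _ ≤ 1 / 8 := hρ
    have hpi := Real.pi_pos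
    have h3 : |2 * Real.pi * ((j : ℝ) * (t - round t))| ≤ Real.pi / 3 := by
      rw [abs_mul, abs_of_pos (by positivity : 0 < 2 * Real.pi)]
      calc 2 * Real.pi * |(j : ℝ) * (t - round t)| ≤ 2 * Real.pi * (1 / 8) := by gcongr
        _ ≤ Real.pi / 3 := by linarith
    have h4 := Real.cos_le_cos_of_nonneg_of_le_pi (abs_nonneg _) (by linarith) h3
    rwa [Real.cos_pi_div_three] at h4
  have h2 : (M : ℝ) / 2 ≤ (∑ j ∈ range M, e (j * t)).re := by
    rw [Complex.re_sum]
    have := card_nsmul_le_sum (range M) (fun j : ℕ => (e (j * t)).re) (1 / 2) h1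
    rw [card_range, nsmul_eq_mul] at this
    linarith
  exact h2.trans (Complex.re_le_norm _)

/-- few multiples in an arc -/
lemma fejer (W : Finset ℕ) (d : ℝ) {M : ℕ} (hM : 1 ≤ M) {ε : ℝ} (hε : 0 ≤ ε)
    (h : ∀ k : ℕ, 1 ≤ k → k < M → ‖∑ n ∈ W, e (k * (n * d))‖ ≤ ε * W.card) (c : ℝ) {ρ : ℝ}
    (hρ : M * ρ ≤ 1 / 8) :
    ((W.filter fun n => ‖n • ((d : ℝ) : T) - ((c : ℝ) : T)‖ ≤ ρ).card : ℝ) ≤
      (4 / M + 4 * ε) * W.card := by
  classical
  have hMR : (0 : ℝ) < M := by exact_mod_cast hM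
  set F := W.filter fun n => ‖n • ((d : ℝ) : T) - ((c : ℝ) : T)‖ ≤ ρ with hF
  set P : ℕ → ℂ := fun n => ∑ j ∈ range M, e (j * (n * d - c)) with hP
  have h1 : ∀ n ∈ F, (M : ℝ) ^ 2 / 4 ≤ ‖P n‖ ^ 2 := by
    intro n hn
    rw [hF, mem_filter] at hn
    have h2 : |(n : ℝ) * d - c - round ((n : ℝ) * d - c)| ≤ ρ := by
      have := hn.2
      rwa [← AddCircle.coe_nsmul, ← AddCircle.coe_sub, UnitAddCircle.norm_eq, nsmul_eq_mul] at this
    have h3 := sum_lower hρ h2
    calc (M : ℝ) ^ 2 / 4 = ((M : ℝ) / 2) ^ 2 := by ring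
      _ ≤ ‖P n‖ ^ 2 := by gcongr
  have h2 : (F.card : ℝ) * ((M : ℝ) ^ 2 / 4) ≤ ∑ n ∈ W, ‖P n‖ ^ 2 := by
    calc (F.card : ℝ) * ((M : ℝ) ^ 2 / 4) ≤ ∑ n ∈ F, ‖P n‖ ^ 2 := by
          have := card_nsmul_le_sum F (fun n => ‖P n‖ ^ 2) _ h1
          rwa [nsmul_eq_mul] at this
      _ ≤ ∑ n ∈ W, ‖P n‖ ^ 2 :=
          sum_le_sum_of_subset_of_nonneg (filter_subset _ _) fun _ _ _ => by positivity
  have h3 : ((∑ n ∈ W, ‖P n‖ ^ 2 : ℝ) : ℂ) =
      ∑ j ∈ range M, ∑ k ∈ range M, ∑ n ∈ W, e (j * (n * d - c)) * e (-(k * (n * d - c))) := by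
    push_cast
    have h4 : ∀ n ∈ W, ((‖P n‖ : ℂ)) ^ 2 =
        ∑ j ∈ range M, ∑ k ∈ range M, e (j * (n * d - c)) * e (-(k * (n * d - c))) := by
      intro n _
      rw [← Complex.mul_conj', hP]
      simp only
      rw [map_sum, sum_mul_sum]
      refine sum_congr rfl fun j _ => sum_congr rfl fun k _ => ?_
      rw [conj_e]
    rw [sum_congr rfl h4, sum_comm]
    refine sum_congr rfl fun j _ => ?_
    rw [sum_comm]
  have h4 : ∀ j k : ℕ, j < M → k < M → j ≠ k →
      ‖∑ n ∈ W, e (j * (n * d - c)) * e (-(k * (n * d - c)))‖ ≤ ε * W.card := by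
    intro j k hj hk hjk
    rcases lt_or_gt_of_ne hjk with hlt | hlt
    · obtain ⟨l, rfl⟩ : ∃ l, k = j + l := ⟨k - j, by omega⟩
      have e1 : ∑ n ∈ W, e (j * (n * d - c)) * e (-(((j + l : ℕ) : ℝ) * (n * d - c))) =
          e (l * c) * (starRingEnd ℂ) (∑ n ∈ W, e (l * (n * d))) := by
        rw [map_sum, mul_sum]
        refine sum_congr rfl fun n _ => ?_
        rw [conj_e, ← e_add, ← e_add]
        congr 1
        push_cast
        ring
      rw [e1, norm_mul, norm_e, one_mul, Complex.norm_conj]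
      exact h l (by omega) (by omega)
    · obtain ⟨l, rfl⟩ : ∃ l, j = k + l := ⟨j - k, by omega⟩
      have e1 : ∑ n ∈ W, e (((k + l : ℕ) : ℝ) * (n * d - c)) * e (-((k : ℝ) * (n * d - c))) =
          e (-(l * c)) * ∑ n ∈ W, e (l * (n * d)) := by
        rw [mul_sum]
        refine sum_congr rfl fun n _ => ?_
        rw [← e_add, ← e_add]
        congr 1
        push_cast
        ring
      rw [e1, norm_mul, norm_e, one_mul]
      exact h l (by omega) (by omega)
  have h5 : ∀ j k : ℕ, j < M → k < M →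
      ‖∑ n ∈ W, e (j * (n * d - c)) * e (-(k * (n * d - c)))‖ ≤
        (if j = k then (W.card : ℝ) else 0) + ε * W.card := by
    intro j k hj hk
    split_ifs with hjk
    · subst hjk
      refine (norm_sum_le _ _).trans ?_
      have : ∀ n ∈ W, ‖e ((j : ℝ) * (n * d - c)) * e (-((j : ℝ) * (n * d - c)))‖ ≤ 1 := by
        intro n _
        rw [norm_mul, norm_e, norm_e, one_mul]
      refine (sum_le_card_nsmul _ _ 1 this).trans ?_
      rw [nsmul_eq_mul, mul_one]
      have : 0 ≤ ε * W.card := by positivity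
      linarith
    · rw [zero_add]
      exact h4 j k hj hk hjk
  have h6 : ∑ n ∈ W, ‖P n‖ ^ 2 ≤ M * W.card + M ^ 2 * (ε * W.card) := by
    have h7 : ∑ n ∈ W, ‖P n‖ ^ 2 = ‖((∑ n ∈ W, ‖P n‖ ^ 2 : ℝ) : ℂ)‖ := by
      rw [Complex.norm_real, Real.norm_of_nonneg (by positivity)]
    rw [h7, h3]
    refine (norm_sum_le _ _).trans ?_
    have h8 : ∀ j ∈ range M, ‖∑ k ∈ range M, ∑ n ∈ W, e (j * (n * d - c)) *
        e (-(k * (n * d - c)))‖ ≤ W.card + M * (ε * W.card) := by
      intro j hj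
      rw [mem_range] at hj
      refine (norm_sum_le _ _).trans ?_
      refine (sum_le_sum fun k hk => h5 j k hj (mem_range.1 hk)).trans ?_
      rw [sum_add_distrib, sum_const, card_range, nsmul_eq_mul, sum_ite_eq, if_pos (mem_range.2 hj)]
    refine (sum_le_card_nsmul _ _ _ h8).trans ?_
    rw [card_range, nsmul_eq_mul]
    exact le_of_eq (by ring)
  have h7 : (F.card : ℝ) * ((M : ℝ) ^ 2 / 4) ≤ (4 / M + 4 * ε) * W.card * ((M : ℝ) ^ 2 / 4) := by
    refine (h2.trans h6).trans (le_of_eq ?_)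
    field_simp
  exact le_of_mul_le_mul_right h7 (by positivity)

section
variable {p q : ℕ} (hp : 2 ≤ p) (hq : 2 ≤ q)
include hp hq

/-- sums over a window as sums over a slab -/
lemma sum_win (hirr : Irrational (Real.log p / Real.log q)) {H τ : ℝ} (hH : 0 < H) (hτ : 0 < τ)
    (hlp : 0 < Real.log p) (hlq : 0 < Real.log q) (φ : ℝ → ℂ) :
    ∑ n ∈ win p q (1 / τ) (H / τ), φ n =
      ∑ u ∈ slabF hlp hlq (-Real.log τ) (Real.log H), φ (Real.exp (ell (Real.log p) (Real.log q) u)) := by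
  have h1 : Real.log (H / τ) - Real.log (1 / τ) = Real.log H := by
    rw [Real.log_div hH.ne' hτ.ne', Real.log_div one_ne_zero hτ.ne', Real.log_one]; ring
  have h2 : Real.log (1 / τ) = -Real.log τ := by rw [one_div, Real.log_inv]
  have h3 : win p q (1 / τ) (H / τ) = (slabF hlp hlq (-Real.log τ) (Real.log H)).image
      fun u : ℕ × ℕ => p ^ u.1 * q ^ u.2 := by
    rw [← Finset.coe_inj, coe_win hp hq (by positivity) (by positivity), h1, h2, coe_image]
    unfold slabF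
    rw [Set.Finite.coe_toFinset]
  rw [h3, sum_image (Set.injOn_of_injective (Pool.Agent.W764.SH.pow_mul_inj hp hq hirr))]
  refine sum_congr rfl fun u _ => ?_
  have h4 : Real.log ((p ^ u.1 * q ^ u.2 : ℕ) : ℝ) = ell (Real.log p) (Real.log q) u := by
    unfold ell
    rw [← Pool.Agent.W764.SH.log_pow_mul hp hq]
  rw [← h4, Real.exp_log]
  have : 0 < p ^ u.1 * q ^ u.2 := by positivity
  exact_mod_cast this

/-- **Few multiples in an arc, long range.** -/
theorem arc_long (hirr : Irrational (Real.log p / Real.log q)) {g : ℝ → ℝ}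
    (hg : Tendsto g atTop atTop) (hdio : Dio (Real.log p) (Real.log q) g) (A : ℕ) {ρ : ℝ}
    (hρ : 0 < ρ) (hρ1 : ρ ≤ 1 / 16) {η : ℝ} (hη : 0 < η) : ∃ H : ℝ, 1 < H ∧ ∃ τ0 : ℝ, 0 < τ0 ∧
      ∀ τ : ℝ, 0 < τ → τ < τ0 → (win p q (1 / τ) (H / τ)).Nonempty ∧ ∀ z : T, τ ≤ ‖z‖ →
        ‖z‖ ≤ g (-Real.log τ) ^ A * τ → ∀ c : T,
          (((win p q (1 / τ) (H / τ)).filter fun n => ‖n • z - c‖ ≤ ρ).card : ℝ) ≤
            (64 * ρ + η) * (win p q (1 / τ) (H / τ)).card := by
  classical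
  have hlp : 0 < Real.log p := Real.log_pos (by exact_mod_cast (by omega : 1 < p))
  have hlq : 0 < Real.log q := Real.log_pos (by exact_mod_cast (by omega : 1 < q))
  set M : ℕ := ⌊1 / (8 * ρ)⌋₊ with hM
  have h8 : 2 ≤ 1 / (8 * ρ) := by
    rw [le_div_iff₀ (by positivity)]; linarith
  have hM1 : (M : ℝ) ≤ 1 / (8 * ρ) := Nat.floor_le (by positivity)
  have hM2 : 1 / (8 * ρ) < M + 1 := Nat.lt_floor_add_one _
  have hM3 : 1 / (16 * ρ) ≤ M := by
    have : 1 / (16 * ρ) = 1 / (8 * ρ) / 2 := by field_simp; norm_num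
    rw [this]; linarith
  have hM0 : (0 : ℝ) < M := by linarith
  have hM4 : 1 ≤ M := by exact_mod_cast hM0
  have hMρ : M * ρ ≤ 1 / 8 := by
    rw [le_div_iff₀ (by positivity)] at hM1
    linarith
  obtain ⟨L0, hL0⟩ := slab_sum hlp hlq hirr hg hdio A (M := M) (by exact_mod_cast hM4)
    (ε := η / 4) (by positivity)
  set L : ℝ := max 1 L0 with hL
  have hL1 : 1 ≤ L := le_max_left _ _
  have hev := hL0 L (le_max_right _ _)
  obtain ⟨X, hX⟩ := eventually_atTop.1 hev
  set H : ℝ := Real.exp L with hH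
  have hH1 : 1 < H := Real.one_lt_exp_iff.2 (by linarith)
  have hH0 : 0 < H := by linarith
  have hlogH : Real.log H = L := by rw [hH, Real.log_exp]
  obtain ⟨δ, hδ, hδ2⟩ := card_large hp hq hirr hH1 1
  refine ⟨H, hH1, min δ (Real.exp (-X)), by positivity, fun τ hτ hτ2 => ?_⟩
  have hcard := hδ2 τ hτ (hτ2.trans_le (min_le_left _ _))
  have hx : X ≤ -Real.log τ := by
    have h1 : τ < Real.exp (-X) := hτ2.trans_le (min_le_right _ _)
    have h2 := (Real.log_lt_iff_lt_exp hτ).2 h1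
    linarith
  set W := win p q (1 / τ) (H / τ) with hW
  have hne : W.Nonempty := by
    have : (0 : ℝ) < W.card := by linarith
    exact card_pos.1 (by exact_mod_cast this)
  refine ⟨hne, ?_⟩
  -- the real version
  have hreal : ∀ d : ℝ, τ ≤ d → d ≤ g (-Real.log τ) ^ A * τ → ∀ c : ℝ,
      ((W.filter fun n => ‖n • ((d : ℝ) : T) - ((c : ℝ) : T)‖ ≤ ρ).card : ℝ) ≤
        (64 * ρ + η) * W.card := by
    intro d hd1 hd2 c
    have hd0 : 0 < d := hτ.trans_le hd1
    have h1 := fejer W d hM4 (ε := η / 4) (by positivity) (by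
      intro k hk1 hkM
      rw [hW, sum_win hp hq hirr hH0 hτ hlp hlq (fun n => e (k * (n * d)))]
      have hk1R : (1 : ℝ) ≤ k := by exact_mod_cast hk1
      have h2 := hX _ hx (k * d / τ) (by
        rw [le_div_iff₀ hτ]; nlinarith) (by
        rw [div_le_iff₀ hτ]
        have : (k : ℝ) ≤ M := by exact_mod_cast hkM.le
        calc (k : ℝ) * d ≤ M * (g (-Real.log τ) ^ A * τ) := by gcongr
          _ = _ := by ring)
      rw [hlogH]
      have e1 : ∀ u : ℕ × ℕ, (k : ℝ) * d / τ *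
          Real.exp (ell (Real.log p) (Real.log q) u - -Real.log τ) =
          k * (Real.exp (ell (Real.log p) (Real.log q) u) * d) := by
        intro u
        rw [sub_neg_eq_add, Real.exp_add, Real.exp_log hτ]
        field_simp
      simp_rw [e1] at h2
      refine h2.trans (le_of_eq ?_)
      rw [card_win hp hq hirr (by positivity) (by positivity)]
      have h3 : Real.log (H / τ) - Real.log (1 / τ) = L := by
        rw [Real.log_div hH0.ne' hτ.ne', Real.log_div one_ne_zero hτ.ne', Real.log_one, hlogH]; ring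
      have h4 : Real.log (1 / τ) = -Real.log τ := by rw [one_div, Real.log_inv]
      rw [h3, h4]) c hMρ
    refine h1.trans ?_
    have h2 : 4 / (M : ℝ) ≤ 64 * ρ := by
      rw [div_le_iff₀ hM0]
      rw [div_le_iff₀ (by positivity)] at hM3
      linarith
    have : 4 / (M : ℝ) + 4 * (η / 4) ≤ 64 * ρ + η := by linarith
    gcongr
  intro z hz1 hz2 c
  rcases eq_or_neg z with hz | hz
  · obtain ⟨x, hx0, hx1, rfl⟩ := exists_rep c
    have := hreal ‖z‖ hz1 hz2 x
    rwa [← hz] at this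
  · obtain ⟨x, hx0, hx1, hx⟩ := exists_rep (-c)
    have := hreal ‖z‖ hz1 hz2 x
    refine le_trans (le_of_eq ?_) this
    congr 2
    refine Finset.filter_congr fun n _ => ?_
    have e1 : n • z - c = -(n • ((‖z‖ : ℝ) : T) - ((x : ℝ) : T)) := by
      rw [hx]
      conv_lhs => rw [hz]
      rw [smul_neg]; abel
    rw [e1, norm_neg]

end

end Pool.Agent.H806.Gap
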