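import Pool.Agent.H806_Gap.Rates

/-!
The final forms.
-/

set_option autoImplicit false

open MeasureTheory Filter Topology Set
open scoped ENNReal

namespace Pool.Agent.H806.Gap

open Pool.Agent.W764.FB (T EssInj hh)
open Metric (closedBall mem_closedBall)

/-- The mass of the singular part: the two extreme cases. -/
lemma sing_zero {p q : ℕ} (hp : 2 ≤ p) (hq : 2 ≤ q) (hpq : Nat.Coprime p q) (μ : Measure T)
    [IsProbabilityMeasure μ] (hip : MeasurePreserving (fun x : T => p • x) μ μ)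
    (hiq : MeasurePreserving (fun x : T => q • x) μ μ) :
    (μ.singularPart volume).real univ = 0 ↔ μ = volume := by
  obtain ⟨D, hDm, hD, hsp, hp', hq', hinj⟩ := structure_thm hp hq hpq μ hip hiq
  constructor
  · intro h
    rw [← hsp, measureReal_def, Measure.restrict_apply_univ, ENNReal.toReal_eq_zero_iff] at h
    have h0 : μ Dᶜ = 0 := h.resolve_right (measure_ne_top _ _)
    have h1 : μ D = 1 := (prob_compl_eq_zero_iff hDm).1 h0
    rw [h1, one_smul] at hD
    rw [← hD]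
    symm
    refine Measure.restrict_eq_self_of_ae_mem ?_
    exact measure_eq_zero_iff_ae_notMem.1 h0 |>.mono fun x hx => not_not.1 hx
  · intro h
    subst h
    rw [measureReal_def, Measure.singularPart_self]
    simp

lemma sing_one {p q : ℕ} (hp : 2 ≤ p) (hq : 2 ≤ q) (hpq : Nat.Coprime p q) (μ : Measure T)
    [IsProbabilityMeasure μ] (hip : MeasurePreserving (fun x : T => p • x) μ μ)
    (hiq : MeasurePreserving (fun x : T => q • x) μ μ)
    (herg : ∀ E : Set T, MeasurableSet E → (fun x : T => p • x) ⁻¹' E = E →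
      (fun x : T => q • x) ⁻¹' E = E → μ E = 0 ∨ μ E = 1) (hne : μ ≠ volume) :
    (μ.singularPart volume).real univ = 1 := by
  obtain ⟨D, hDm, hD, hsp, hp', hq', hinj⟩ := structure_thm hp hq hpq μ hip hiq
  have hs : μ.singularPart volume ⟂ₘ (volume : Measure T) := Measure.mutuallySingular_singularPart _ _
  rw [← hsp] at hs
  obtain ⟨S, hSm, hS1, hS2⟩ := hs
  have hvp : MeasurePreserving (fun x : T => p • x) (volume : Measure T) volume :=
    (AddCircle.ergodic_nsmul (T := 1) (by omega)).toMeasurePreserving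
  have hvq : MeasurePreserving (fun x : T => q • x) (volume : Measure T) volume :=
    (AddCircle.ergodic_nsmul (T := 1) (by omega)).toMeasurePreserving
  set S' : Set T := ⋃ u : ℕ × ℕ, (fun x : T => (p ^ u.1 * q ^ u.2) • x) ⁻¹' Sᶜ with hS'
  set E : Set T := ⋂ v : ℕ × ℕ, (fun x : T => (p ^ v.1 * q ^ v.2) • x) ⁻¹' S' with hE
  have hmeas : ∀ n : ℕ, Measurable fun x : T => n • x := fun n => (continuous_nsmul n).measurable
  have hS'm : MeasurableSet S' := MeasurableSet.iUnion fun u => hmeas _ hSm.compl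
  have hEm : MeasurableSet E := MeasurableSet.iInter fun v => hmeas _ hS'm
  have hmpn : ∀ σ : Measure T, MeasurePreserving (fun x : T => p • x) σ σ →
      MeasurePreserving (fun x : T => q • x) σ σ → ∀ u : ℕ × ℕ,
      MeasurePreserving (fun x : T => (p ^ u.1 * q ^ u.2) • x) σ σ := by
    intro σ h1 h2 u
    have h := (h1.iterate u.1).comp (h2.iterate u.2)
    have e : (fun x : T => (p ^ u.1 * q ^ u.2) • x) =
        (fun x : T => p • x)^[u.1] ∘ (fun x : T => q • x)^[u.2] := by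
      funext x
      rw [smul_iterate, smul_iterate]
      simp only [Function.comp_apply, mul_smul]
    rw [e]
    exact h
  have hmemE : ∀ x : T, x ∈ E ↔ ∀ v : ℕ × ℕ, ∃ u : ℕ × ℕ,
      (p ^ (u.1 + v.1) * q ^ (u.2 + v.2)) • x ∈ Sᶜ := by
    intro x
    rw [hE, mem_iInter]
    refine forall_congr' fun v => ?_
    rw [mem_preimage, hS', mem_iUnion]
    refine exists_congr fun u => ?_
    rw [mem_preimage, ← mul_smul]
    rw [show p ^ u.1 * q ^ u.2 * (p ^ v.1 * q ^ v.2) = p ^ (u.1 + v.1) * q ^ (u.2 + v.2) by ring]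
  have hEp : (fun x : T => p • x) ⁻¹' E = E := by
    ext x
    rw [mem_preimage, hmemE, hmemE]
    constructor
    · intro h v
      obtain ⟨u, hu⟩ := h v
      refine ⟨(u.1 + 1, u.2), ?_⟩
      rw [← mul_smul] at hu
      rwa [show p ^ (u.1 + v.1) * q ^ (u.2 + v.2) * p =
        p ^ (u.1 + 1 + v.1) * q ^ (u.2 + v.2) by ring] at hu
    · intro h v
      obtain ⟨u, hu⟩ := h (v.1 + 1, v.2)
      refine ⟨u, ?_⟩
      rw [← mul_smul]
      rwa [show p ^ (u.1 + v.1) * q ^ (u.2 + v.2) * p =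
        p ^ (u.1 + (v.1 + 1)) * q ^ (u.2 + v.2) by ring]
  have hEq : (fun x : T => q • x) ⁻¹' E = E := by
    ext x
    rw [mem_preimage, hmemE, hmemE]
    constructor
    · intro h v
      obtain ⟨u, hu⟩ := h v
      refine ⟨(u.1, u.2 + 1), ?_⟩
      rw [← mul_smul] at hu
      rwa [show p ^ (u.1 + v.1) * q ^ (u.2 + v.2) * q =
        p ^ (u.1 + v.1) * q ^ (u.2 + 1 + v.2) by ring] at hu
    · intro h v
      obtain ⟨u, hu⟩ := h (v.1, v.2 + 1)
      refine ⟨u, ?_⟩
      rw [← mul_smul]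
      rwa [show p ^ (u.1 + v.1) * q ^ (u.2 + v.2) * q =
        p ^ (u.1 + v.1) * q ^ (u.2 + (v.2 + 1)) by ring]
  -- `S` is null for the singular part, `Sᶜ` is null for Lebesgue measure
  have hvol : (volume : Measure T) E = 0 := by
    have h1 : (volume : Measure T) S' = 0 := by
      rw [hS', measure_iUnion_null_iff]
      intro u
      rw [(hmpn volume hvp hvq u).measure_preimage hSm.compl.nullMeasurableSet]
      exact hS2
    refine measure_mono_null ?_ h1
    intro x hx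
    have := mem_iInter.1 hx (0, 0)
    simpa using this
  have hν : (μ.restrict Dᶜ) Eᶜ = 0 := by
    rw [hE, compl_iInter, measure_iUnion_null_iff]
    intro v
    have h2 : (μ.restrict Dᶜ) S'ᶜ = 0 := by
      refine measure_mono_null ?_ hS1
      intro x hx
      by_contra hxS
      refine hx (mem_iUnion.2 ⟨(0, 0), ?_⟩)
      simpa using hxS
    rw [← preimage_compl, (hmpn _ hp' hq' v).measure_preimage hS'm.compl.nullMeasurableSet]
    exact h2
  have hμE : μ E = (μ.restrict Dᶜ) univ := by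
    have h1 : μ E = (μ.restrict D) E + (μ.restrict Dᶜ) E := by
      rw [← Measure.add_apply, Measure.restrict_add_restrict_compl hDm]
    rw [h1, hD, Measure.smul_apply, hvol, smul_zero, zero_add]
    rw [← measure_add_measure_compl hEm, hν, add_zero]
  rw [← hsp, measureReal_def, ← hμE]
  rcases herg E hEm hEp hEq with h | h
  · exfalso
    apply hne
    rw [← sing_zero hp hq hpq μ hip hiq, ← hsp, measureReal_def, ← hμE, h]
    simp
  · rw [h]; simp

/-- linear forms with a gauge -/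
theorem lin_gauge {p q : ℕ} (hp : 2 ≤ p) (hq : 2 ≤ q) (hpq : Nat.Coprime p q) {g : ℝ → ℝ}
    (hg : Tendsto g atTop atTop) (hdio : Dio (Real.log p) (Real.log q) g) (n : ℕ)
    {s : ℝ → ℝ} (hs0 : ∀ᶠ r in 𝓝[>] 0, 0 < s r) (hs1 : Tendsto (fun r => s r / r) (𝓝[>] 0) (𝓝 0))
    (hs2 : ∀ᶠ r in 𝓝[>] 0, r ≤ g (-Real.log (s r)) ^ n * s r)
    (μ : Measure T) [IsProbabilityMeasure μ]
    (hip : MeasurePreserving (fun x : T => p • x) μ μ)
    (hiq : MeasurePreserving (fun x : T => q • x) μ μ) (hs : μ ⟂ₘ (volume : Measure T))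
    (k M : ℕ) {ε : ℝ} (hε : 0 < ε) : ∃ r0 : ℝ, 0 < r0 ∧ ∀ r : ℝ, 0 < r → r < r0 →
      ∃ G : Set T, IsClosed G ∧ μ.real Gᶜ ≤ ε ∧ ∀ x : Fin k → T, (∀ i, x i ∈ G) →
        ∀ a : Fin k → ℤ, ∑ i, |a i| ≤ M → ‖∑ i, a i • x i‖ ≤ r → ‖∑ i, a i • x i‖ < s r := by
  have hinj := essInj_of_singular hp hq hpq μ hip hiq hs
  obtain ⟨τ0, hτ0, h⟩ := lin_forms hp hq hpq hg hdio n k (M + 1) (by omega) μ hip hiq hinj hε
  have hs3 : ∀ᶠ r in 𝓝[>] (0 : ℝ), s r / r < 1 := hs1.eventually_lt_const one_pos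
  have hs4 : ∀ᶠ r in 𝓝[>] (0 : ℝ), r < τ0 := nhdsWithin_le_nhds (Iio_mem_nhds hτ0)
  have hall : ∀ᶠ r in 𝓝[>] (0 : ℝ), 0 < s r ∧ r ≤ g (-Real.log (s r)) ^ n * s r ∧ s r / r < 1 ∧
      r < τ0 := by
    filter_upwards [hs0, hs2, hs3, hs4] with r h1 h2 h3 h4
    exact ⟨h1, h2, h3, h4⟩
  rw [eventually_nhdsWithin_iff, Metric.eventually_nhds_iff] at hall
  obtain ⟨r0, hr0, hall⟩ := hall
  refine ⟨r0, hr0, fun r hr hrr => ?_⟩
  obtain ⟨h1, h2, h3, h4⟩ := hall (y := r) (by
    rw [Real.dist_eq, sub_zero, abs_of_pos hr]; exact hrr) hr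
  rw [div_lt_one hr] at h3
  obtain ⟨G, hGc, hGm, hG⟩ := h (s r) h1 (h3.trans h4)
  refine ⟨G, hGc, hGm, fun x hx a ha hz => ?_⟩
  by_contra hc
  push Not at hc
  have := hG x hx a (ha.trans (by push_cast; linarith)) hc
  linarith

end Pool.Agent.H806.Gap
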