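import Pool.Agent.H806_Gap.Crit

/-!
The Fourier coefficients of the invariant measures and the mean ratio at one scale.
-/

set_option autoImplicit false

open MeasureTheory Filter Topology Set
open scoped ENNReal

namespace Pool.Agent.H806.Gap

open Pool.Agent.W764.FB (T EssInj hh)
open Pool.Agent.W764.HL (win mem_win)
open Metric (closedBall mem_closedBall)

/-- the second moment, with the mean mass of small balls -/
lemma second_moment' (W : Finset ℕ) (m : ℤ) (ν : Measure T) [IsFiniteMeasure ν] {τ R η : ℝ}
    (hη : 0 ≤ η) {B : Set T} (hB : ∀ᵐ y ∂ν, y ∈ B)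
    (hR : ∀ y ∈ B, ∀ y' ∈ B, ‖y - y'‖ ≤ R)
    (hsum : ∀ z : T, τ ≤ ‖z‖ → ‖z‖ ≤ R → ‖ES W m z‖ ≤ η * W.card) :
    ‖∫ y, ES W m y ∂ν‖ ^ 2 ≤ (W.card : ℝ) ^ 2 *
      (η * ν.real univ ^ 2 + ∫ y, ν.real (closedBall y τ) ∂ν) := by
  classical
  have hint : ∀ n : ℕ, Integrable (fun y : T => (fourier m (n • y) : ℂ)) ν := fun n =>
    Integrable.of_bound (((map_continuous (fourier m)).comp (continuous_nsmul n)).aestronglyMeasurable)
      1 (Eventually.of_forall fun y => (norm_fourier_one m _).le)
  set c : ℕ → ℂ := fun n => ∫ y, (fourier m (n • y) : ℂ) ∂ν with hc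
  have h1 : ∫ y, ES W m y ∂ν = ∑ n ∈ W, c n := by
    unfold ES
    rw [integral_finsetSum _ fun n _ => hint n]
  have h2 : ‖∑ n ∈ W, c n‖ ^ 2 ≤ W.card * ∑ n ∈ W, ‖c n‖ ^ 2 := by
    calc ‖∑ n ∈ W, c n‖ ^ 2 ≤ (∑ n ∈ W, ‖c n‖) ^ 2 := by
          gcongr; exact norm_sum_le _ _
      _ ≤ W.card * ∑ n ∈ W, ‖c n‖ ^ 2 := sq_sum_le_card_mul_sum_sq
  have h3 : ∀ n : ℕ, ((‖c n‖ ^ 2 : ℝ) : ℂ) =
      ∫ w : T × T, (fourier m (n • (w.1 - w.2)) : ℂ) ∂(ν.prod ν) := by
    intro n
    have e1 : ∀ w : T × T, (fourier m (n • (w.1 - w.2)) : ℂ) =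
        (fourier m (n • w.1) : ℂ) * (starRingEnd ℂ) (fourier m (n • w.2) : ℂ) := by
      intro w
      rw [← fourier_neg, fourier_apply, fourier_apply, fourier_apply, ← Circle.coe_mul,
        ← AddCircle.toCircle_add, neg_smul, smul_sub, smul_sub, sub_eq_add_neg]
    simp_rw [e1]
    rw [integral_prod_mul (fun y : T => (fourier m (n • y) : ℂ))
      (fun y : T => (starRingEnd ℂ) (fourier m (n • y) : ℂ)), integral_conj]
    rw [RCLike.mul_conj]
    norm_cast
  have hint2 : ∀ n : ℕ, Integrable (fun w : T × T => (fourier m (n • (w.1 - w.2)) : ℂ))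
      (ν.prod ν) := fun n =>
    Integrable.of_bound (((map_continuous (fourier m)).comp
      ((continuous_nsmul n).comp (continuous_fst.sub continuous_snd))).aestronglyMeasurable)
      1 (Eventually.of_forall fun y => (norm_fourier_one m _).le)
  have h4 : ((∑ n ∈ W, ‖c n‖ ^ 2 : ℝ) : ℂ) = ∫ w : T × T, ES W m (w.1 - w.2) ∂(ν.prod ν) := by
    unfold ES
    rw [integral_finsetSum _ fun n _ => hint2 n]
    push_cast
    refine Finset.sum_congr rfl fun n _ => ?_
    rw [← h3 n]
    push_cast
    rfl
  set S : Set (T × T) := {w | ‖w.1 - w.2‖ ≤ τ} with hS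
  have hSm : MeasurableSet S := by
    have : IsClosed S := isClosed_le (by fun_prop) continuous_const
    exact this.measurableSet
  have h5 : ∑ n ∈ W, ‖c n‖ ^ 2 ≤ W.card * (η * ν.real univ ^ 2 + (ν.prod ν).real S) := by
    have h6 : ∑ n ∈ W, ‖c n‖ ^ 2 = ‖∫ w : T × T, ES W m (w.1 - w.2) ∂(ν.prod ν)‖ := by
      rw [← h4, Complex.norm_real, Real.norm_of_nonneg (Finset.sum_nonneg fun n _ => by positivity)]
    rw [h6]
    have hB2 : ∀ᵐ w ∂(ν.prod ν), w.1 ∈ B ∧ w.2 ∈ B :=
      (Measure.quasiMeasurePreserving_fst.ae hB).and (Measure.quasiMeasurePreserving_snd.ae hB)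
    calc ‖∫ w : T × T, ES W m (w.1 - w.2) ∂(ν.prod ν)‖
        ≤ ∫ w : T × T, (η * W.card + S.indicator (fun _ => (W.card : ℝ)) w) ∂(ν.prod ν) := by
          refine norm_integral_le_of_norm_le ?_ ?_
          · exact (integrable_const _).add ((integrable_const _).indicator hSm)
          · filter_upwards [hB2] with w hw
            by_cases hwS : w ∈ S
            · rw [indicator_of_mem hwS]
              have := norm_ES W m (w.1 - w.2)
              have h0 : 0 ≤ η * W.card := by positivity
              linarith
            · rw [indicator_of_notMem hwS, add_zero]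
              have h7 : τ < ‖w.1 - w.2‖ := not_le.1 hwS
              exact hsum _ h7.le (hR _ hw.1 _ hw.2)
      _ = W.card * (η * ν.real univ ^ 2 + (ν.prod ν).real S) := by
          rw [integral_add (integrable_const _) ((integrable_const _).indicator hSm),
            integral_const, integral_indicator_const _ hSm]
          have h8 : (ν.prod ν).real univ = ν.real univ ^ 2 := by
            rw [← univ_prod_univ, measureReal_prod_prod]; ring
          rw [h8, smul_eq_mul, smul_eq_mul]
          ring
  have h9 : (ν.prod ν).real S = ∫ y, ν.real (closedBall y τ) ∂ν := by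
    have h10 : (ν.prod ν) S = ∫⁻ y, ν (Prod.mk y ⁻¹' S) ∂ν := Measure.prod_apply hSm
    have h11 : ∀ y, Prod.mk y ⁻¹' S = closedBall y τ := by
      intro y
      ext y'
      rw [mem_preimage, hS, mem_ofPred_eq, mem_closedBall, dist_comm, dist_eq_norm]
    simp_rw [h11] at h10
    rw [measureReal_def, h10, ← integral_toReal (measurable_ball ν τ).aemeasurable
      (Eventually.of_forall fun y => measure_lt_top _ _)]
    rfl
  rw [h1, ← h9]
  calc ‖∑ n ∈ W, c n‖ ^ 2 ≤ W.card * ∑ n ∈ W, ‖c n‖ ^ 2 := h2
    _ ≤ W.card * (W.card * (η * ν.real univ ^ 2 + (ν.prod ν).real S)) := by gcongr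
    _ = _ := by ring

lemma measurable_ball_real (μ : Measure T) [IsFiniteMeasure μ] (r : ℝ) :
    Measurable fun x => μ.real (closedBall x r) := (measurable_ball μ r).ennreal_toReal

lemma integrable_ball_real (μ : Measure T) [IsProbabilityMeasure μ] (σ : Measure T)
    [IsFiniteMeasure σ] (r : ℝ) : Integrable (fun x => μ.real (closedBall x r)) σ :=
  Integrable.of_bound (measurable_ball_real μ r).aestronglyMeasurable 1
    (Eventually.of_forall fun x => by
      rw [Real.norm_of_nonneg measureReal_nonneg]; exact measureReal_le_one)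

/-- averages over balls, for bounded measurable functions -/
lemma ball_average (μ : Measure T) [IsProbabilityMeasure μ] {h : T → ℝ} (hh : Measurable h)
    (h0 : ∀ y, 0 ≤ h y) (h1 : ∀ y, h y ≤ 1) {ρ : ℝ} (hρ : 0 ≤ ρ) (hρ1 : 2 * ρ ≤ 1) :
    Integrable (fun x => ∫ y in closedBall x ρ, h y ∂μ) (volume : Measure T) ∧
    ∫ x, (∫ y in closedBall x ρ, h y ∂μ) ∂(volume : Measure T) = 2 * ρ * ∫ y, h y ∂μ := by
  set S : Set (T × T) := {w | dist w.2 w.1 ≤ ρ} with hS
  have hSm : MeasurableSet S := by
    have : IsClosed S := isClosed_le (by fun_prop) continuous_const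
    exact this.measurableSet
  have hint : Integrable (S.indicator fun w : T × T => h w.2) ((volume : Measure T).prod μ) := by
    refine Integrable.of_bound ((hh.comp measurable_snd).indicator hSm).aestronglyMeasurable 1
      (Eventually.of_forall fun w => ?_)
    by_cases hw : w ∈ S
    · rw [indicator_of_mem hw, Real.norm_of_nonneg (h0 _)]; exact h1 _
    · rw [indicator_of_notMem hw, norm_zero]; exact zero_le_one
  have e1 : ∀ x : T, ∫ y, S.indicator (fun w => h w.2) (x, y) ∂μ =
      ∫ y in closedBall x ρ, h y ∂μ := by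
    intro x
    rw [← integral_indicator measurableSet_closedBall]
    refine integral_congr_ae (Eventually.of_forall fun y => ?_)
    simp only
    by_cases hy : y ∈ closedBall x ρ
    · rw [indicator_of_mem hy, indicator_of_mem (show (x, y) ∈ S from mem_closedBall.1 hy)]
    · rw [indicator_of_notMem hy, indicator_of_notMem (show (x, y) ∉ S from fun hc =>
        hy (mem_closedBall.2 hc))]
  have e2 : ∀ y : T, ∫ x, S.indicator (fun w => h w.2) (x, y) ∂(volume : Measure T) =
      2 * ρ * h y := by
    intro y
    have e3 : (fun x : T => S.indicator (fun w => h w.2) (x, y)) =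
        (closedBall y ρ).indicator fun _ => h y := by
      funext x
      by_cases hx : x ∈ closedBall y ρ
      · rw [indicator_of_mem hx, indicator_of_mem (show (x, y) ∈ S by
          show dist y x ≤ ρ
          rw [dist_comm]; exact mem_closedBall.1 hx)]
      · rw [indicator_of_notMem hx, indicator_of_notMem (show (x, y) ∉ S from fun hc => by
          apply hx
          rw [mem_closedBall, dist_comm]; exact hc)]
    rw [e3, integral_indicator_const _ measurableSet_closedBall, measureReal_def,
      AddCircle.volume_closedBall, min_eq_right hρ1, ENNReal.toReal_ofReal (by positivity),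
      smul_eq_mul]
  have hint2 := hint.integral_prod_left
  simp_rw [e1] at hint2
  refine ⟨hint2, ?_⟩
  have hswap := integral_integral_swap (f := fun (x : T) (y : T) => S.indicator (fun w => h w.2) (x, y))
    (μ := (volume : Measure T)) (ν := μ) (by exact hint)
  simp_rw [e1, e2] at hswap
  rw [hswap, integral_const_mul]

/-- **The Fourier coefficients and the mean ratio**, one scale, one window. -/
theorem fourier_window (μ : Measure T) [IsProbabilityMeasure μ] (W : Finset ℕ) (hW : W.Nonempty)
    (m : ℤ) {τ r R η : ℝ} (hτ : τ ≤ r) (hτ0 : 0 < τ) (hrR : 2 * r ≤ R) (hR1 : R ≤ 1) (hη : 0 < η)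
    (hinv : ∀ n ∈ W, MeasurePreserving (fun x : T => n • x) μ μ)
    (hsum : ∀ z : T, τ ≤ ‖z‖ → ‖z‖ ≤ R → ‖ES W m z‖ ≤ η * W.card) :
    ‖∫ x, (fourier m x : ℂ) ∂μ‖ ^ 2 ≤
      ∫ x, μ.real (closedBall x τ) / μ.real (closedBall x r) ∂μ + η + 2 * r / R := by
  have hr0 : 0 < r := hτ0.trans_le hτ
  have hR0 : 0 < R := by linarith
  have hWpos : (0 : ℝ) < W.card := by exact_mod_cast Finset.card_pos.2 hW
  set RRr : T → ℝ := fun x => μ.real (closedBall x τ) / μ.real (closedBall x r) with hRR
  have hRR0 : ∀ y, 0 ≤ RRr y := fun y => by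
    simp only [hRR]
    exact div_nonneg measureReal_nonneg measureReal_nonneg
  have hRR1 : ∀ y, RRr y ≤ 1 := fun y => by
    simp only [hRR]
    exact div_le_one_of_le₀ (measureReal_mono (Metric.closedBall_subset_closedBall hτ))
      measureReal_nonneg
  have hRRm : Measurable RRr := (measurable_ball_real μ τ).div (measurable_ball_real μ r)
  have hRRint : ∀ σ : Measure T, IsFiniteMeasure σ → Integrable RRr σ := fun σ _ =>
    Integrable.of_bound hRRm.aestronglyMeasurable 1 (Eventually.of_forall fun y => by
      rw [Real.norm_of_nonneg (hRR0 y)]; exact hRR1 y)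
  set t : ℝ := ∫ x, RRr x ∂μ with ht
  have ht0 : 0 ≤ t := integral_nonneg hRR0
  set b : T → ℝ := fun x => μ.real (closedBall x (R / 2)) with hb
  set b1 : T → ℝ := fun x => μ.real (closedBall x (R / 2 - r)) with hb1
  set N : T → ℝ := fun x => ∫ y in closedBall x (R / 2 - r), RRr y ∂μ with hN
  have hb0 : ∀ x, 0 ≤ b x := fun x => measureReal_nonneg
  have hb1b : ∀ x, b1 x ≤ b x := fun x =>
    measureReal_mono (Metric.closedBall_subset_closedBall (by linarith))
  have hN0 : ∀ x, 0 ≤ N x := fun x => integral_nonneg hRR0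
  -- the local estimate
  have hP : ∀ x, ∫ y in closedBall x (R / 2), (μ.restrict (closedBall x (R / 2))).real
      (closedBall y τ) ∂μ ≤ b x * (N x + (b x - b1 x)) := by
    intro x
    have hsub : closedBall x (R / 2 - r) ⊆ closedBall x (R / 2) :=
      Metric.closedBall_subset_closedBall (by linarith)
    have hintf : Integrable (fun y => (μ.restrict (closedBall x (R / 2))).real (closedBall y τ)) μ := by
      refine Integrable.of_bound (measurable_ball_real _ τ).aestronglyMeasurable 1
        (Eventually.of_forall fun y => ?_)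
      rw [Real.norm_of_nonneg measureReal_nonneg]
      refine le_trans ?_ (measureReal_le_one (μ := μ) (s := closedBall y τ))
      rw [measureReal_def, measureReal_def]
      exact ENNReal.toReal_mono (measure_ne_top _ _) (Measure.restrict_apply_le _ _)
    have hsplit : ∫ y in closedBall x (R / 2), (μ.restrict (closedBall x (R / 2))).real
        (closedBall y τ) ∂μ = ∫ y in closedBall x (R / 2 - r), (μ.restrict (closedBall x (R / 2))).real
        (closedBall y τ) ∂μ + ∫ y in closedBall x (R / 2) \ closedBall x (R / 2 - r),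
          (μ.restrict (closedBall x (R / 2))).real (closedBall y τ) ∂μ := by
      rw [← setIntegral_union Set.disjoint_sdiff_right
        (measurableSet_closedBall.diff measurableSet_closedBall) hintf.integrableOn
        hintf.integrableOn, Set.union_sdiff_cancel hsub]
    rw [hsplit]
    have h1 : ∫ y in closedBall x (R / 2 - r), (μ.restrict (closedBall x (R / 2))).real
        (closedBall y τ) ∂μ ≤ b x * N x := by
      rw [hN]
      simp only
      rw [← integral_const_mul]
      refine setIntegral_mono_on hintf.integrableOn ((hRRint _ inferInstance).const_mul _)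
        measurableSet_closedBall fun y hy => ?_
      rw [mem_closedBall] at hy
      have h2 : (μ.restrict (closedBall x (R / 2))).real (closedBall y τ) ≤
          μ.real (closedBall y τ) := by
        rw [measureReal_def, measureReal_def]
        exact ENNReal.toReal_mono (measure_ne_top _ _) (Measure.restrict_apply_le _ _)
      refine h2.trans ?_
      have h3 : μ.real (closedBall y r) ≤ b x := by
        rw [hb]
        exact measureReal_mono (Metric.closedBall_subset_closedBall' (by linarith))
      rcases eq_or_lt_of_le (measureReal_nonneg (μ := μ) (s := closedBall y r)) with h4 | h4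
      · have h5 : μ.real (closedBall y τ) ≤ μ.real (closedBall y r) :=
          measureReal_mono (Metric.closedBall_subset_closedBall hτ)
        rw [← h4] at h5
        exact h5.trans (mul_nonneg (hb0 x) (hRR0 y))
      · calc μ.real (closedBall y τ) = μ.real (closedBall y r) * RRr y := by
              rw [hRR]; field_simp
          _ ≤ b x * RRr y := mul_le_mul_of_nonneg_right h3 (hRR0 y)
    have h2 : ∫ y in closedBall x (R / 2) \ closedBall x (R / 2 - r),
          (μ.restrict (closedBall x (R / 2))).real (closedBall y τ) ∂μ ≤ b x * (b x - b1 x) := by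
      have h3 : ∫ y in closedBall x (R / 2) \ closedBall x (R / 2 - r),
          (μ.restrict (closedBall x (R / 2))).real (closedBall y τ) ∂μ ≤
          ∫ _ in closedBall x (R / 2) \ closedBall x (R / 2 - r), b x ∂μ := by
        refine setIntegral_mono_on hintf.integrableOn (integrable_const _).integrableOn
          (measurableSet_closedBall.diff measurableSet_closedBall) fun y _ => ?_
        rw [hb]
        simp only
        rw [measureReal_restrict_apply measurableSet_closedBall]
        exact measureReal_mono inter_subset_right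
      refine h3.trans (le_of_eq ?_)
      rw [setIntegral_const, smul_eq_mul, measureReal_sdiff hsub measurableSet_closedBall]
      ring
    calc _ ≤ b x * N x + b x * (b x - b1 x) := add_le_add h1 h2
      _ = _ := by ring
  set θ : ℝ := √(t + η + 2 * r / R) with hθ
  have hpos : 0 < t + η + 2 * r / R := by positivity
  have hθ0 : 0 < θ := Real.sqrt_pos.2 hpos
  have hθ2 : θ ^ 2 = t + η + 2 * r / R := Real.sq_sqrt hpos.le
  have hI : ∀ x : T, ‖∫ y in closedBall x (R / 2), ES W m y ∂μ‖ ≤
      W.card * ((θ * b x + θ⁻¹ * (η * b x + N x + (b x - b1 x))) / 2) := by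
    intro x
    have h2 := second_moment' W m (μ.restrict (closedBall x (R / 2))) (τ := τ) (R := R) hη.le
      (B := closedBall x (R / 2)) (ae_restrict_mem measurableSet_closedBall) (by
        intro y hy y' hy'
        rw [mem_closedBall, dist_eq_norm] at hy hy'
        have := norm_sub_le (y - x) (y' - x)
        rw [sub_sub_sub_cancel_right] at this
        linarith) hsum
    rw [measureReal_restrict_apply_univ] at h2
    have h3 : ‖∫ y in closedBall x (R / 2), ES W m y ∂μ‖ ^ 2 ≤
        (W.card : ℝ) ^ 2 * (b x * (η * b x + N x + (b x - b1 x))) := by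
      refine h2.trans (mul_le_mul_of_nonneg_left ?_ (by positivity))
      have := hP x
      calc _ ≤ η * b x ^ 2 + b x * (N x + (b x - b1 x)) := by
            refine add_le_add le_rfl this
        _ = _ := by ring
    have hc0 : 0 ≤ η * b x + N x + (b x - b1 x) := by
      have := hb1b x
      have := hN0 x
      have : 0 ≤ η * b x := mul_nonneg hη.le (hb0 x)
      linarith
    have hinv0 : 0 ≤ θ⁻¹ := by positivity
    refine le_of_sq_le_sq (h3.trans ?_) (by
      have := mul_nonneg hθ0.le (hb0 x)
      have := mul_nonneg hinv0 hc0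
      positivity)
    rw [mul_pow]
    refine mul_le_mul_of_nonneg_left ?_ (by positivity)
    -- arithmetic and geometric means
    have h4 : b x * (η * b x + N x + (b x - b1 x)) =
        (θ * b x) * (θ⁻¹ * (η * b x + N x + (b x - b1 x))) := by
      field_simp
    rw [h4]
    nlinarith [sq_nonneg (θ * b x - θ⁻¹ * (η * b x + N x + (b x - b1 x)))]
  -- integration
  have h4 := local_average μ (continuous_ES W m) (norm_ES W m) hR0 hR1
  have hballs : ∀ ρ : ℝ, 0 ≤ ρ → 2 * ρ ≤ 1 →
      ∫ x, μ.real (closedBall x ρ) ∂(volume : Measure T) = 2 * ρ := by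
    intro ρ h0 h1
    have h2 := (ball_average μ (h := fun _ => 1) measurable_const (fun _ => zero_le_one)
      (fun _ => le_rfl) h0 h1).2
    simp only [integral_const, measureReal_restrict_apply_univ, smul_eq_mul, mul_one,
      probReal_univ] at h2
    exact h2
  have hbint : Integrable b (volume : Measure T) := integrable_ball_real μ _ _
  have hb1int : Integrable b1 (volume : Measure T) := integrable_ball_real μ _ _
  obtain ⟨hNint, hNval⟩ := ball_average μ hRRm hRR0 hRR1 (ρ := R / 2 - r) (by linarith)
    (by linarith)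
  have hbval : ∫ x, b x ∂(volume : Measure T) = R := by
    rw [hb, hballs (R / 2) (by linarith) (by linarith)]; ring
  have hb1val : ∫ x, b1 x ∂(volume : Measure T) = R - 2 * r := by
    rw [hb1, hballs (R / 2 - r) (by linarith) (by linarith)]; ring
  have hmaj : Integrable (fun x => (W.card : ℝ) *
      ((θ * b x + θ⁻¹ * (η * b x + N x + (b x - b1 x))) / 2)) (volume : Measure T) := by
    have h5 : Integrable (fun x => η * b x + N x + (b x - b1 x)) (volume : Measure T) :=
      ((hbint.const_mul _).add hNint).add (hbint.sub hb1int)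
    exact (((hbint.const_mul _).add (h5.const_mul _)).div_const _).const_mul _
  have h6 : R * ‖∫ y, ES W m y ∂μ‖ ≤ R * (W.card * θ) := by
    calc R * ‖∫ y, ES W m y ∂μ‖ = ‖(R : ℂ) * ∫ y, ES W m y ∂μ‖ := by
          rw [norm_mul, Complex.norm_real, Real.norm_of_nonneg hR0.le]
      _ = ‖∫ x, (∫ y in closedBall x (R / 2), ES W m y ∂μ) ∂(volume : Measure T)‖ := by rw [h4]
      _ ≤ ∫ x, (W.card : ℝ) * ((θ * b x + θ⁻¹ * (η * b x + N x + (b x - b1 x))) / 2)
            ∂(volume : Measure T) := norm_integral_le_of_norm_le hmaj (Eventually.of_forall hI)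
      _ = W.card * ((θ * R + θ⁻¹ * (η * R + 2 * (R / 2 - r) * t + (R - (R - 2 * r)))) / 2) := by
          have h5 : Integrable (fun x => η * b x + N x) (volume : Measure T) :=
            (hbint.const_mul _).add hNint
          have h7 : Integrable (fun x => b x - b1 x) (volume : Measure T) := hbint.sub hb1int
          have h8 : Integrable (fun x => η * b x + N x + (b x - b1 x)) (volume : Measure T) :=
            h5.add h7
          rw [integral_const_mul, integral_div, integral_add (hbint.const_mul _) (h8.const_mul _),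
            integral_const_mul, integral_const_mul, integral_add h5 h7,
            integral_add (hbint.const_mul _) hNint, integral_const_mul, integral_sub hbint hb1int,
            hbval, hb1val, hNval]
      _ ≤ R * (W.card * θ) := by
          have h9 : η * R + 2 * (R / 2 - r) * t + (R - (R - 2 * r)) ≤ R * θ ^ 2 := by
            rw [hθ2]
            have e1 : R * (t + η + 2 * r / R) = R * t + η * R + 2 * r := by field_simp
            rw [e1]
            have : 0 ≤ 2 * r * t := by positivity
            nlinarith
          have h10 : θ⁻¹ * (η * R + 2 * (R / 2 - r) * t + (R - (R - 2 * r))) ≤ θ⁻¹ * (R * θ ^ 2) :=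
            mul_le_mul_of_nonneg_left h9 (by positivity)
          have h11 : θ⁻¹ * (R * θ ^ 2) = R * θ := by field_simp
          rw [h11] at h10
          calc _ ≤ (W.card : ℝ) * ((θ * R + R * θ) / 2) := by gcongr
            _ = _ := by ring
  have h7 : ‖∫ y, ES W m y ∂μ‖ ≤ W.card * θ := le_of_mul_le_mul_left h6 hR0
  have h8 : ∫ y, ES W m y ∂μ = (W.card : ℂ) * ∫ x, (fourier m x : ℂ) ∂μ := by
    have hi : ∀ n ∈ W, Integrable (fun y : T => (fourier m (n • y) : ℂ)) μ := fun n _ =>
      Integrable.of_bound
        (((map_continuous (fourier m)).comp (continuous_nsmul n)).aestronglyMeasurable)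
        1 (Eventually.of_forall fun y => (norm_fourier_one m _).le)
    unfold ES
    rw [integral_finsetSum _ hi]
    have h9 : ∀ n ∈ W, ∫ y, (fourier m (n • y) : ℂ) ∂μ = ∫ x, (fourier m x : ℂ) ∂μ := by
      intro n hn
      have h2 := hinv n hn
      conv_rhs => rw [← h2.map_eq]
      rw [integral_map h2.measurable.aemeasurable (map_continuous (fourier m)).aestronglyMeasurable]
    rw [Finset.sum_congr rfl h9, Finset.sum_const, nsmul_eq_mul]
  rw [h8, norm_mul, Complex.norm_natCast] at h7
  have h9 : ‖∫ x, (fourier m x : ℂ) ∂μ‖ ≤ θ := le_of_mul_le_mul_left h7 hWpos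
  calc ‖∫ x, (fourier m x : ℂ) ∂μ‖ ^ 2 ≤ θ ^ 2 := by gcongr
    _ = _ := hθ2

end Pool.Agent.H806.Gap
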