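import Pool.Agent.H806_Gap.Fejer
import Pool.Agent.H806_Gap.CovPow

/-!
Points whose orbit stays in few arcs for most of a window: no small integer combinations.
-/

set_option autoImplicit false

open MeasureTheory Filter Topology Set
open scoped ENNReal

namespace Pool.Agent.H806.Gap

open Pool.Agent.W764.FB (T)
open Pool.Agent.H706R2.Ren (U labels measurableSet_U mp_pow)
open Pool.Agent.W764.HL (win mem_win)

open Classical in
/-- the number of the `n ∈ W` with `n x ∉ S` -/
noncomputable def outW (W : Finset ℕ) (S : Set T) (x : T) : ℕ := (W.filter fun n => n • x ∉ S).card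

/-- the points with `4 k * outW < W.card` -/
def Good (W : Finset ℕ) (S : Set T) (k : ℕ) : Set T := {x | 4 * k * outW W S x < W.card}

lemma outW_eq (W : Finset ℕ) (S : Set T) (x : T) : (outW W S x : ℝ) =
    ∑ n ∈ W, ((fun y : T => n • y) ⁻¹' Sᶜ).indicator (fun _ => (1 : ℝ)) x := by
  classical
  unfold outW
  rw [Finset.card_filter]
  push_cast
  refine Finset.sum_congr rfl fun n _ => ?_
  by_cases h : n • x ∈ S
  · rw [if_neg (not_not.2 h), indicator_of_notMem]
    exact fun hc => hc h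
  · rw [if_pos h, indicator_of_mem]
    exact h

lemma measurable_outW (W : Finset ℕ) {S : Set T} (hS : MeasurableSet S) :
    Measurable fun x => (outW W S x : ℝ) := by
  simp_rw [outW_eq]
  refine Finset.measurable_fun_sum _ fun n _ => ?_
  exact measurable_const.indicator ((continuous_nsmul n).measurable hS.compl)

lemma measurableSet_Good (W : Finset ℕ) {S : Set T} (hS : MeasurableSet S) (k : ℕ) :
    MeasurableSet (Good W S k) := by
  have e1 : Good W S k = {x | 4 * k * (outW W S x : ℝ) < W.card} := by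
    ext x
    show 4 * k * outW W S x < W.card ↔ 4 * (k : ℝ) * (outW W S x : ℝ) < (W.card : ℝ)
    exact_mod_cast Iff.rfl
  rw [e1]
  exact measurableSet_lt ((measurable_outW W hS).const_mul _) measurable_const

/-- Markov's inequality. -/
lemma good_measure {W : Finset ℕ} (hW : W.Nonempty) {S : Set T} (hS : MeasurableSet S) (k : ℕ)
    (μ : Measure T) [IsFiniteMeasure μ]
    (hinv : ∀ n ∈ W, MeasurePreserving (fun x : T => n • x) μ μ) :
    μ.real (Good W S k)ᶜ ≤ 4 * k * μ.real Sᶜ := by
  have hWR : (0 : ℝ) < W.card := by exact_mod_cast hW.card_pos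
  have hint : ∀ n ∈ W, Integrable (((fun x : T => n • x) ⁻¹' Sᶜ).indicator
      fun _ => (1 : ℝ)) μ := fun n _ =>
    (integrable_const 1).indicator ((continuous_nsmul _).measurable hS.compl)
  have h1 : ∫ y, (outW W S y : ℝ) ∂μ = W.card * μ.real Sᶜ := by
    simp_rw [outW_eq]
    rw [integral_finsetSum _ hint]
    have : ∀ n ∈ W, ∫ y, ((fun x : T => n • x) ⁻¹' Sᶜ).indicator
        (fun _ => (1 : ℝ)) y ∂μ = μ.real Sᶜ := by
      intro n hn
      rw [integral_indicator ((continuous_nsmul _).measurable hS.compl), setIntegral_const,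
        smul_eq_mul, mul_one]
      exact (hinv n hn).measureReal_preimage hS.compl.nullMeasurableSet
    rw [Finset.sum_congr rfl this, Finset.sum_const, nsmul_eq_mul]
  have hi : Integrable (fun y => 4 * (k : ℝ) * (outW W S y : ℝ)) μ := by
    refine Integrable.const_mul ?_ _
    simp_rw [outW_eq]
    exact integrable_finsetSum _ hint
  have h2 := mul_meas_ge_le_integral_of_nonneg (μ := μ)
    (f := fun y => 4 * (k : ℝ) * (outW W S y : ℝ))
    (Eventually.of_forall fun y => by positivity) hi W.card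
  rw [integral_const_mul, h1] at h2
  have e1 : {x | (W.card : ℝ) ≤ 4 * (k : ℝ) * (outW W S x : ℝ)} = (Good W S k)ᶜ := by
    ext x
    show (W.card : ℝ) ≤ 4 * (k : ℝ) * (outW W S x : ℝ) ↔ ¬ (4 * k * outW W S x < W.card)
    rw [not_lt]
    exact_mod_cast Iff.rfl
  rw [e1] at h2
  have h3 : (W.card : ℝ) * μ.real (Good W S k)ᶜ ≤ W.card * (4 * k * μ.real Sᶜ) := by
    refine h2.trans (le_of_eq ?_)
    ring
  exact le_of_mul_le_mul_left h3 hWR

lemma inv_win {p q : ℕ} {μ : Measure T} (hip : MeasurePreserving (fun x : T => p • x) μ μ)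
    (hiq : MeasurePreserving (fun x : T => q • x) μ μ) {X Y : ℝ} :
    ∀ n ∈ win p q X Y, MeasurePreserving (fun x : T => n • x) μ μ := by
  intro n hn
  obtain ⟨⟨a, b, rfl⟩, -, -⟩ := mem_win.1 hn
  have h := (mp_pow p μ hip a).comp (mp_pow q μ hiq b)
  have e : (fun x : T => (p ^ a * q ^ b) • x) =
      (fun x : T => (p ^ a) • x) ∘ fun x : T => (q ^ b) • x := by
    ext x
    simp only [Function.comp_apply, mul_smul]
  rw [e]
  exact h

/-- **No small combinations.** -/
theorem gap {p q : ℕ} (hp : 2 ≤ p) (hq : 2 ≤ q) (hirr : Irrational (Real.log p / Real.log q))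
    {g : ℝ → ℝ} (hg : Tendsto g atTop atTop) (hdio : Dio (Real.log p) (Real.log q) g) (A k : ℕ)
    {M K : ℕ} (hM : 1 ≤ M) (hK : 1 ≤ K) {ρ : ℝ} (hρ : 0 < ρ)
    (hρK : 256 * (M * ρ) * (K : ℝ) ^ k ≤ 1) :
    ∃ H : ℝ, ∃ τ0 : ℝ, 0 < τ0 ∧ ∀ τ : ℝ, 0 < τ → τ < τ0 →
      (win p q (1 / τ) (H / τ)).Nonempty ∧ ∀ cen : Fin K → T, ∀ x : Fin k → T,
        (∀ i, x i ∈ Good (win p q (1 / τ) (H / τ)) (U cen ρ) k) → ∀ a : Fin k → ℤ,
          ∑ i, |a i| ≤ M → τ ≤ ‖∑ i, a i • x i‖ →
            g (-Real.log τ) ^ A * τ < ‖∑ i, a i • x i‖ := by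
  classical
  have hMR : (1 : ℝ) ≤ M := by exact_mod_cast hM
  have hKR : (1 : ℝ) ≤ K := by exact_mod_cast hK
  have hKk : (1 : ℝ) ≤ (K : ℝ) ^ k := one_le_pow₀ hKR
  have hMρ : 0 < M * ρ := by positivity
  have hMρ16 : M * ρ ≤ 1 / 16 := by nlinarith
  obtain ⟨H, hH, τ0, hτ0, h⟩ := arc_long hp hq hirr hg hdio A hMρ hMρ16
    (η := 1 / (4 * (K : ℝ) ^ k)) (by positivity)
  refine ⟨H, τ0, hτ0, fun τ hτ hτ2 => ?_⟩
  obtain ⟨hne, harc⟩ := h τ hτ hτ2
  refine ⟨hne, fun cen x hx a ha hz1 => ?_⟩
  set W := win p q (1 / τ) (H / τ) with hW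
  have hWR : (0 : ℝ) < W.card := by exact_mod_cast hne.card_pos
  set z : T := ∑ i, a i • x i with hz
  by_contra hcon
  push Not at hcon
  -- the bad times
  set B : Finset ℕ := W.filter fun n => ∃ i, n • x i ∉ U cen ρ with hB
  have hBcard : 4 * B.card ≤ W.card := by
    rcases Nat.eq_zero_or_pos k with rfl | hk
    · have : B = ∅ := by
        rw [hB, Finset.filter_eq_empty_iff]
        rintro n - ⟨i, -⟩
        exact i.elim0
      rw [this]; simp
    have h1 : B.card ≤ ∑ i : Fin k, outW W (U cen ρ) (x i) := by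
      have h2 : B ⊆ Finset.univ.biUnion fun i : Fin k => W.filter fun n => n • x i ∉ U cen ρ := by
        intro n hn
        rw [hB, Finset.mem_filter] at hn
        obtain ⟨hnW, i, hi⟩ := hn
        rw [Finset.mem_biUnion]
        exact ⟨i, Finset.mem_univ _, Finset.mem_filter.2 ⟨hnW, hi⟩⟩
      refine (Finset.card_le_card h2).trans (Finset.card_biUnion_le.trans (le_of_eq ?_))
      refine Finset.sum_congr rfl fun i _ => ?_
      unfold outW
      congr!
    have h2 : ∀ i : Fin k, 4 * k * outW W (U cen ρ) (x i) ≤ W.card := fun i => (hx i).le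
    have h3 : k * (4 * B.card) ≤ k * W.card := by
      calc k * (4 * B.card) ≤ k * (4 * ∑ i : Fin k, outW W (U cen ρ) (x i)) := by gcongr
        _ = ∑ i : Fin k, 4 * k * outW W (U cen ρ) (x i) := by
            rw [Finset.mul_sum, Finset.mul_sum]
            exact Finset.sum_congr rfl fun i _ => by ring
        _ ≤ ∑ i : Fin k, W.card := Finset.sum_le_sum fun i _ => h2 i
        _ = k * W.card := by simp
    exact Nat.le_of_mul_le_mul_left h3 hk
  -- the other times
  set C : Finset ℕ := W.filter fun n => ¬ ∃ i, n • x i ∉ U cen ρ with hC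
  have hBC : B.card + C.card = W.card := by
    rw [hB, hC]; exact Finset.card_filter_add_card_filter_not _
  have hCcard : (C.card : ℝ) ≤ 1 / 2 * W.card := by
    have h1 : C ⊆ Finset.univ.biUnion fun j : Fin k → Fin K =>
        W.filter fun n => ‖n • z - ∑ i, a i • cen (j i)‖ ≤ M * ρ := by
      intro n hn
      rw [hC, Finset.mem_filter] at hn
      obtain ⟨hnW, hn2⟩ := hn
      push Not at hn2
      have h3 : ∀ i, ∃ j, ‖n • x i - cen j‖ ≤ ρ := by
        intro i
        have := hn2 i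
        unfold U at this
        rw [mem_iUnion] at this
        obtain ⟨j, hj⟩ := this
        rw [Metric.mem_closedBall, dist_eq_norm] at hj
        exact ⟨j, hj⟩
      choose j hj using h3
      rw [Finset.mem_biUnion]
      refine ⟨j, Finset.mem_univ _, Finset.mem_filter.2 ⟨hnW, ?_⟩⟩
      have e1 : n • z - ∑ i, a i • cen (j i) = ∑ i, a i • (n • x i - cen (j i)) := by
        rw [hz, Finset.smul_sum, ← Finset.sum_sub_distrib]
        refine Finset.sum_congr rfl fun i _ => ?_
        rw [smul_sub, smul_comm]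
      rw [e1]
      refine (norm_sum_le _ _).trans ?_
      have h4 : ∀ i, ‖a i • (n • x i - cen (j i))‖ ≤ (|a i| : ℤ) * ρ := by
        intro i
        refine (norm_zsmul_le _ _).trans ?_
        rw [Int.norm_eq_abs, ← Int.cast_abs]
        have : (0 : ℝ) ≤ ((|a i| : ℤ) : ℝ) := by exact_mod_cast abs_nonneg (a i)
        gcongr
        exact hj i
      refine (Finset.sum_le_sum fun i _ => h4 i).trans ?_
      rw [← Finset.sum_mul]
      have h5 : ((∑ i, |a i| : ℤ) : ℝ) ≤ M := by exact_mod_cast ha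
      push_cast at h5 ⊢
      gcongr
    have h2 : (C.card : ℝ) ≤ ∑ j : Fin k → Fin K,
        ((W.filter fun n => ‖n • z - ∑ i, a i • cen (j i)‖ ≤ M * ρ).card : ℝ) := by
      have := (Finset.card_le_card h1).trans Finset.card_biUnion_le
      exact_mod_cast this
    have h3 : ∀ j : Fin k → Fin K,
        ((W.filter fun n => ‖n • z - ∑ i, a i • cen (j i)‖ ≤ M * ρ).card : ℝ) ≤
          (64 * (M * ρ) + 1 / (4 * (K : ℝ) ^ k)) * W.card := by
      intro j
      have := harc z hz1 hcon (∑ i, a i • cen (j i))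
      convert this
    refine (h2.trans (Finset.sum_le_sum fun j _ => h3 j)).trans ?_
    rw [Finset.sum_const, Finset.card_univ, Fintype.card_fun, Fintype.card_fin, Fintype.card_fin,
      nsmul_eq_mul]
    push_cast
    have h4 : (K : ℝ) ^ k * (64 * (M * ρ) + 1 / (4 * (K : ℝ) ^ k)) ≤ 1 / 2 := by
      have e1 : (K : ℝ) ^ k * (64 * (M * ρ) + 1 / (4 * (K : ℝ) ^ k)) =
          256 * (M * ρ) * (K : ℝ) ^ k / 4 + 1 / 4 := by
        field_simp
        ring
      rw [e1]; linarith
    calc (K : ℝ) ^ k * ((64 * (M * ρ) + 1 / (4 * (K : ℝ) ^ k)) * W.card) =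
        ((K : ℝ) ^ k * (64 * (M * ρ) + 1 / (4 * (K : ℝ) ^ k))) * W.card := by ring
      _ ≤ 1 / 2 * W.card := by gcongr
  have h1 : (4 : ℝ) * B.card ≤ W.card := by exact_mod_cast hBcard
  have h2 : (B.card : ℝ) + C.card = W.card := by exact_mod_cast hBC
  linarith

end Pool.Agent.H806.Gap
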