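import Pool.Agent.H806_Gap.CovSing
import Pool.Agent.H806_Gap.Final

/-!
The results for all multiplicatively independent `p, q`.
-/

set_option autoImplicit false

open MeasureTheory Filter Topology Set
open scoped ENNReal

namespace Pool.Agent.H806.Gap

open Pool.Agent.W764.FB (T EssInj hh)
open Pool.Agent.H706R2.Ren (U measurableSet_U)
open Pool.Agent.W764.HL (win mem_win)
open Metric (closedBall mem_closedBall)

/-- The decomposition of an invariant measure. -/
lemma structure_gen {p q : ℕ} (hp : 2 ≤ p) (μ : Measure T)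
    [IsProbabilityMeasure μ] (hip : MeasurePreserving (fun x : T => p • x) μ μ)
    (hiq : MeasurePreserving (fun x : T => q • x) μ μ) (hq : 2 ≤ q) :
    ∃ D : Set T, MeasurableSet D ∧ μ.restrict D = μ D • (volume : Measure T) ∧
      μ.restrict Dᶜ = μ.singularPart volume ∧
      MeasurePreserving (fun x : T => p • x) (μ.restrict Dᶜ) (μ.restrict Dᶜ) ∧
      MeasurePreserving (fun x : T => q • x) (μ.restrict Dᶜ) (μ.restrict Dᶜ) := by
  have hep : Ergodic (fun x : T => p • x) (volume : Measure T) :=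
    AddCircle.ergodic_nsmul (T := 1) (by omega)
  have heq : Ergodic (fun x : T => q • x) (volume : Measure T) :=
    AddCircle.ergodic_nsmul (T := 1) (by omega)
  obtain ⟨c, hc⟩ := hep.eq_smul_of_absolutelyContinuous
    (hip.withDensity_rnDeriv hep.toMeasurePreserving) (withDensity_absolutelyContinuous _ _)
  obtain ⟨S, hSm, hS1, hS2⟩ := μ.mutuallySingular_singularPart (volume : Measure T)
  have hμ : μ = μ.singularPart volume + c • (volume : Measure T) := by
    rw [← hc, Measure.singularPart_add_rnDeriv]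
  have hvS : (volume : Measure T).restrict S = volume := by
    refine Measure.restrict_eq_self_of_ae_mem ?_
    exact (measure_eq_zero_iff_ae_notMem.1 hS2).mono fun x hx => not_not.1 hx
  have hsS : (μ.singularPart volume).restrict S = 0 := Measure.restrict_eq_zero.2 hS1
  have h1 : μ.restrict S = c • (volume : Measure T) := by
    conv_lhs => rw [hμ]
    rw [Measure.restrict_add, hsS, zero_add, Measure.restrict_smul, hvS]
  have hcμ : μ S = c := by
    have := congrArg (fun σ : Measure T => σ univ) h1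
    simpa using this
  have h2 : μ.restrict Sᶜ = μ.singularPart volume := by
    conv_lhs => rw [hμ]
    rw [Measure.restrict_add, Measure.restrict_smul, Measure.restrict_eq_zero.2 hS2, smul_zero,
      add_zero]
    refine Measure.restrict_eq_self_of_ae_mem ?_
    exact measure_eq_zero_iff_ae_notMem.1 hS1
  refine ⟨S, hSm, by rw [h1, hcμ], h2, ?_, ?_⟩
  · rw [h2]; exact hip.singularPart hep.toMeasurePreserving
  · rw [h2]; exact hiq.singularPart heq.toMeasurePreserving

/-- **Linear forms in typical points.** -/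
theorem lin_forms_gen {p q : ℕ} (hp : 2 ≤ p) (hq : 2 ≤ q)
    (hirr : Irrational (Real.log p / Real.log q)) {g : ℝ → ℝ}
    (hg : Tendsto g atTop atTop) (hdio : Dio (Real.log p) (Real.log q) g) (A k M : ℕ)
    (hM : 1 ≤ M) (μ : Measure T) [IsProbabilityMeasure μ]
    (hip : MeasurePreserving (fun x : T => p • x) μ μ)
    (hiq : MeasurePreserving (fun x : T => q • x) μ μ) (hcov : Cov μ)
    {ε : ℝ} (hε : 0 < ε) : ∃ τ0 : ℝ, 0 < τ0 ∧ ∀ τ : ℝ, 0 < τ → τ < τ0 → ∃ G : Set T, IsClosed G ∧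
      μ.real Gᶜ ≤ ε ∧ ∀ x : Fin k → T, (∀ i, x i ∈ G) → ∀ a : Fin k → ℤ, ∑ i, |a i| ≤ M →
        τ ≤ ‖∑ i, a i • x i‖ → g (-Real.log τ) ^ A * τ < ‖∑ i, a i • x i‖ := by
  have hMR : (0 : ℝ) < M := by exact_mod_cast hM
  obtain ⟨K, cen, ρ, hK, hρ, hρK, hU⟩ := hcov (ε / (4 * (k + 1)))
    (1 / (256 * M)) (by positivity) (by positivity) k
  obtain ⟨H, τ0, hτ0, h⟩ := gap hp hq hirr hg hdio A k hM hK hρ (by
    rw [le_div_iff₀ (by positivity)] at hρK
    linarith)
  refine ⟨τ0, hτ0, fun τ hτ hτ2 => ?_⟩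
  obtain ⟨hne, h2⟩ := h τ hτ hτ2
  refine ⟨Good (win p q (1 / τ) (H / τ)) (U cen ρ) k, isClosed_Good _ (isClosed_U cen ρ) k, ?_,
    fun x hx a ha hz => h2 cen x hx a ha hz⟩
  refine (good_measure hne (measurableSet_U cen ρ) k μ (inv_win hip hiq)).trans ?_
  have hk : (0 : ℝ) ≤ k := Nat.cast_nonneg k
  calc 4 * (k : ℝ) * μ.real (U cen ρ)ᶜ ≤ 4 * k * (ε / (4 * (k + 1))) := by gcongr
    _ ≤ ε := by
      rw [← mul_div_assoc, div_le_iff₀ (by positivity)]
      nlinarith

/-- the singular part, small scales -/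
lemma sing_limit_gen {p q : ℕ} (hp : 2 ≤ p) (hq : 2 ≤ q)
    (hirr : Irrational (Real.log p / Real.log q)) {g : ℝ → ℝ}
    (hg : Tendsto g atTop atTop) (hdio : Dio (Real.log p) (Real.log q) g) (A : ℕ)
    (μ : Measure T) [IsProbabilityMeasure μ] {D : Set T} (hDm : MeasurableSet D)
    (hD : μ.restrict D = μ D • (volume : Measure T))
    (hip : MeasurePreserving (fun x : T => p • x) (μ.restrict Dᶜ) (μ.restrict Dᶜ))
    (hiq : MeasurePreserving (fun x : T => q • x) (μ.restrict Dᶜ) (μ.restrict Dᶜ))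
    (hsing : μ.restrict Dᶜ ⟂ₘ (volume : Measure T)) {ε : ℝ} (hε : 0 < ε) :
    ∃ r0 : ℝ, 0 < r0 ∧ ∀ r s : ℝ, 0 < s → s ≤ r → r < r0 → r ≤ g (-Real.log s) ^ A * s →
      ∫⁻ x, (1 - RR μ s r x) ∂(μ.restrict Dᶜ) ≤ ENNReal.ofReal ε := by
  set ν := μ.restrict Dᶜ with hν
  rcases eq_or_ne (ν univ) 0 with h0 | h0
  · refine ⟨1, one_pos, fun r s _ _ _ _ => ?_⟩
    rw [Measure.measure_univ_eq_zero] at h0
    rw [h0, lintegral_zero_measure]
    exact zero_le
  have hprob := normalise ν h0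
  set ν' := (ν univ)⁻¹ • ν with hν'
  have hle : ∀ E : Set T, ν E ≤ ν' E := by
    intro E
    rw [hν', Measure.smul_apply, smul_eq_mul]
    have h2 : 1 ≤ (ν univ)⁻¹ := by
      rw [ENNReal.one_le_inv, hν]
      exact (Measure.restrict_apply_le _ _).trans prob_le_one
    calc ν E = 1 * ν E := (one_mul _).symm
      _ ≤ _ := by gcongr
  have hle2 : ∀ (E : Set T) (e : ℝ), 0 ≤ e → ν'.real E ≤ e → ν E ≤ ENNReal.ofReal e := by
    intro E e he hE
    refine (hle E).trans ?_
    rw [measureReal_def] at hE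
    exact (ENNReal.le_ofReal_iff_toReal_le (measure_ne_top _ _) he).2 hE
  have hmp : MeasurePreserving (fun x : T => p • x) ν' ν' := by
    refine ⟨hip.measurable, ?_⟩
    rw [hν', Measure.map_smul, hip.map_eq]
  have hmq : MeasurePreserving (fun x : T => q • x) ν' ν' := by
    refine ⟨hiq.measurable, ?_⟩
    rw [hν', Measure.map_smul, hiq.map_eq]
  have hcov : Cov ν' := cov_of_sing hp hq hirr ν' hmp hmq (hsing.smul _)
  obtain ⟨τ0, hτ0, hτ⟩ := lin_forms_gen hp hq hirr hg hdio A 2 2 (by norm_num) ν' hmp hmq hcov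
    (ε := ε / 12) (by positivity)
  obtain ⟨K, cen, ρ, hK, hρ, hρK, hU⟩ := hcov (ε / 12) (ε / 12)
    (by positivity) (by positivity) 1
  rw [pow_one] at hρK
  refine ⟨min τ0 ρ, lt_min hτ0 hρ, fun r s hs hsr hr0 hr => ?_⟩
  have hr : 0 < r := hs.trans_le hsr
  obtain ⟨G, hGc, hGm, hG⟩ := hτ s hs (hsr.trans_lt (hr0.trans_le (min_le_left _ _)))
  have hG2 : ∀ x ∈ G, ∀ y ∈ G, dist y x ≤ r → dist y x ≤ s := by
    intro x hx y hy hxy
    by_contra hc
    push Not at hc
    have h1 := hG ![y, x] (by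
      intro i; fin_cases i
      · exact hy
      · exact hx) ![1, -1] (by simp [Fin.sum_univ_two]) (by
      simp only [Fin.sum_univ_two, Matrix.cons_val_zero, Matrix.cons_val_one, one_zsmul,
        neg_smul]
      rw [← sub_eq_add_neg, ← dist_eq_norm]
      exact hc.le)
    simp only [Fin.sum_univ_two, Matrix.cons_val_zero, Matrix.cons_val_one, one_zsmul,
        neg_smul] at h1
    rw [← sub_eq_add_neg, ← dist_eq_norm] at h1
    linarith
  have hNO : ∀ x ∈ U cen ρ, closedBall x r ⊆ U cen (2 * ρ) := by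
    intro x hx y hy
    unfold U at hx ⊢
    rw [mem_iUnion] at hx ⊢
    obtain ⟨a, ha⟩ := hx
    refine ⟨a, ?_⟩
    rw [mem_closedBall] at ha hy ⊢
    have h3 : r < ρ := hr0.trans_le (min_le_right _ _)
    have := dist_triangle y x (cen a)
    linarith
  have h1 := part_sing μ hDm hD (r' := s) hr hGc.measurableSet (measurableSet_U cen (2 * ρ)) hG2
    (measurableSet_U cen ρ) hNO
  refine h1.trans ?_
  rw [← hν]
  have e1 := hle2 Gᶜ (ε / 12) (by positivity) hGm
  have e2 := hle2 (U cen ρ)ᶜ (ε / 12) (by positivity) hU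
  have e3 : (volume : Measure T) (U cen (2 * ρ)) ≤ ENNReal.ofReal (4 * (ε / 12)) := by
    refine (vol_U_le cen (by positivity)).trans (ENNReal.ofReal_le_ofReal ?_)
    nlinarith
  have h2 : (2 : ℝ≥0∞) = ENNReal.ofReal 2 := by simp
  calc ν Gᶜ + ν (U cen ρ)ᶜ + (2 * (volume : Measure T) (U cen (2 * ρ)) + 2 * ν Gᶜ)
      ≤ ENNReal.ofReal (ε / 12) + ENNReal.ofReal (ε / 12) +
        (ENNReal.ofReal 2 * ENNReal.ofReal (4 * (ε / 12)) +
          ENNReal.ofReal 2 * ENNReal.ofReal (ε / 12)) := by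
        rw [h2]
        gcongr
    _ = ENNReal.ofReal ε := by
        rw [← ENNReal.ofReal_mul (by norm_num), ← ENNReal.ofReal_mul (by norm_num),
          ← ENNReal.ofReal_add (by positivity) (by positivity),
          ← ENNReal.ofReal_add (by positivity) (by positivity),
          ← ENNReal.ofReal_add (by positivity) (by positivity)]
        congr 1
        ring

/-- **The mean ratio of the masses of concentric balls.** -/
theorem local_mass_gen {p q : ℕ} (hp : 2 ≤ p) (hq : 2 ≤ q)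
    (hirr : Irrational (Real.log p / Real.log q)) {g : ℝ → ℝ}
    (hg : Tendsto g atTop atTop) (hdio : Dio (Real.log p) (Real.log q) g) (A : ℕ)
    {s : ℝ → ℝ} (hs0 : ∀ᶠ r in 𝓝[>] 0, 0 < s r) (hs1 : Tendsto (fun r => s r / r) (𝓝[>] 0) (𝓝 0))
    (hs2 : ∀ᶠ r in 𝓝[>] 0, r ≤ g (-Real.log (s r)) ^ A * s r)
    (μ : Measure T) [IsProbabilityMeasure μ]
    (hip : MeasurePreserving (fun x : T => p • x) μ μ)
    (hiq : MeasurePreserving (fun x : T => q • x) μ μ) :
    Tendsto (fun r : ℝ => ∫ x, μ.real (closedBall x (s r)) / μ.real (closedBall x r) ∂μ)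
      (𝓝[>] 0) (𝓝 ((μ.singularPart volume).real univ)) := by
  obtain ⟨D, hDm, hD, hsp, hp', hq'⟩ := structure_gen hp μ hip hiq hq
  have hsg : μ.restrict Dᶜ ⟂ₘ (volume : Measure T) := by
    rw [hsp]; exact Measure.mutuallySingular_singularPart _ _
  rw [← hsp]
  rw [Metric.tendsto_nhds]
  intro ε hε
  obtain ⟨r0, hr0, h⟩ := sing_limit_gen hp hq hirr hg hdio A μ hDm hD hp' hq' hsg (ε := ε / 2)
    (by positivity)
  have hs3 : ∀ᶠ r in 𝓝[>] (0 : ℝ), s r / r < min (ε / 2) 1 :=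
    hs1.eventually_lt_const (lt_min (by positivity) one_pos)
  have hs4 : ∀ᶠ r in 𝓝[>] (0 : ℝ), r < min r0 (1 / 2) :=
    nhdsWithin_le_nhds (Iio_mem_nhds (lt_min hr0 (by norm_num)))
  filter_upwards [hs0, hs2, hs3, hs4, self_mem_nhdsWithin] with r h0 h2 h3 h4 hr
  have hr : 0 < r := hr
  have hsr : s r < r := by
    have := h3.trans_le (min_le_right _ _)
    rwa [div_lt_one hr] at this
  have hsing := h r (s r) h0 hsr.le (h4.trans_le (min_le_left _ _)) h2
  have hDD := part_D μ hDm hD (r' := s r) h0.le hr (h4.le.trans (min_le_right _ _))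
  set ν := μ.restrict Dᶜ with hν
  have hI : ∫⁻ x, RR μ (s r) r x ∂μ = ∫⁻ x in D, RR μ (s r) r x ∂μ + ∫⁻ x, RR μ (s r) r x ∂ν := by
    rw [← lintegral_add_measure, hν, Measure.restrict_add_restrict_compl hDm]
  have hup : ∫⁻ x, RR μ (s r) r x ∂μ ≤ ENNReal.ofReal (s r / r) + ν univ := by
    rw [hI]
    refine add_le_add hDD ?_
    calc ∫⁻ x, RR μ (s r) r x ∂ν ≤ ∫⁻ _, 1 ∂ν := lintegral_mono fun x => RR_le_one μ hsr.le x
      _ = ν univ := by rw [lintegral_one]
  have hlow : ν univ ≤ ∫⁻ x, RR μ (s r) r x ∂μ + ENNReal.ofReal (ε / 2) := by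
    calc ν univ = ∫⁻ _, 1 ∂ν := by rw [lintegral_one]
      _ ≤ ∫⁻ x, (RR μ (s r) r x + (1 - RR μ (s r) r x)) ∂ν :=
          lintegral_mono fun x => le_add_tsub
      _ = ∫⁻ x, RR μ (s r) r x ∂ν + ∫⁻ x, (1 - RR μ (s r) r x) ∂ν :=
          lintegral_add_left (measurable_RR μ _ _) _
      _ ≤ _ := by
          refine add_le_add ?_ hsing
          rw [hI]
          exact le_add_self
  have hfin : ∫⁻ x, RR μ (s r) r x ∂μ ≠ ⊤ := by
    refine ne_top_of_le_ne_top ?_ hup
    exact ENNReal.add_ne_top.2 ⟨ENNReal.ofReal_ne_top, measure_ne_top _ _⟩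
  rw [toReal_RR μ _ _ hsr.le, Real.dist_eq, measureReal_def]
  have hsr0 : 0 ≤ s r / r := by positivity
  have hup' : (∫⁻ x, RR μ (s r) r x ∂μ).toReal ≤ s r / r + (ν univ).toReal := by
    have := ENNReal.toReal_mono (ENNReal.add_ne_top.2 ⟨ENNReal.ofReal_ne_top, measure_ne_top _ _⟩) hup
    rwa [ENNReal.toReal_add ENNReal.ofReal_ne_top (measure_ne_top _ _),
      ENNReal.toReal_ofReal hsr0] at this
  have hlow' : (ν univ).toReal ≤ (∫⁻ x, RR μ (s r) r x ∂μ).toReal + ε / 2 := by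
    have := ENNReal.toReal_mono (ENNReal.add_ne_top.2 ⟨hfin, ENNReal.ofReal_ne_top⟩) hlow
    rwa [ENNReal.toReal_add hfin ENNReal.ofReal_ne_top,
      ENNReal.toReal_ofReal (by positivity)] at this
  have h5 := h3.trans_le (min_le_left _ _)
  rw [abs_lt]
  constructor <;> linarith

/-- The mass of the singular part: the two extreme cases. -/
lemma sing_zero_gen {p q : ℕ} (hp : 2 ≤ p) (hq : 2 ≤ q) (μ : Measure T)
    [IsProbabilityMeasure μ] (hip : MeasurePreserving (fun x : T => p • x) μ μ)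
    (hiq : MeasurePreserving (fun x : T => q • x) μ μ) :
    (μ.singularPart volume).real univ = 0 ↔ μ = volume := by
  obtain ⟨D, hDm, hD, hsp, hp', hq'⟩ := structure_gen hp μ hip hiq hq
  constructor
  · intro h
    rw [← hsp, measureReal_def, Measure.restrict_apply_univ, ENNReal.toReal_eq_zero_iff] at h
    have h0 : μ Dᶜ = 0 := h.resolve_right (measure_ne_top _ _)
    have h1 : μ D = 1 := (prob_compl_eq_zero_iff hDm).1 h0
    rw [h1, one_smul] at hD
    rw [← hD]
    symm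
    refine Measure.restrict_eq_self_of_ae_mem ?_
    exact measure_eq_zero_iff_ae_notMem.1 h0 |>.mono fun x hx => not_not.1 hx
  · intro h
    subst h
    rw [measureReal_def, Measure.singularPart_self]
    simp

lemma sing_one_gen {p q : ℕ} (hp : 2 ≤ p) (hq : 2 ≤ q) (μ : Measure T)
    [IsProbabilityMeasure μ] (hip : MeasurePreserving (fun x : T => p • x) μ μ)
    (hiq : MeasurePreserving (fun x : T => q • x) μ μ)
    (herg : ∀ E : Set T, MeasurableSet E → (fun x : T => p • x) ⁻¹' E = E →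
      (fun x : T => q • x) ⁻¹' E = E → μ E = 0 ∨ μ E = 1) (hne : μ ≠ volume) :
    (μ.singularPart volume).real univ = 1 := by
  obtain ⟨D, hDm, hD, hsp, hp', hq'⟩ := structure_gen hp μ hip hiq hq
  have hs : μ.singularPart volume ⟂ₘ (volume : Measure T) := Measure.mutuallySingular_singularPart _ _
  rw [← hsp] at hs
  obtain ⟨S, hSm, hS1, hS2⟩ := hs
  have hvp : MeasurePreserving (fun x : T => p • x) (volume : Measure T) volume :=
    (AddCircle.ergodic_nsmul (T := 1) (by omega)).toMeasurePreserving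
  have hvq : MeasurePreserving (fun x : T => q • x) (volume : Measure T) volume :=
    (AddCircle.ergodic_nsmul (T := 1) (by omega)).toMeasurePreserving
  set S' : Set T := ⋃ u : ℕ × ℕ, (fun x : T => (p ^ u.1 * q ^ u.2) • x) ⁻¹' Sᶜ with hS'
  set E : Set T := ⋂ v : ℕ × ℕ, (fun x : T => (p ^ v.1 * q ^ v.2) • x) ⁻¹' S' with hE
  have hmeas : ∀ n : ℕ, Measurable fun x : T => n • x := fun n => (continuous_nsmul n).measurable
  have hS'm : MeasurableSet S' := MeasurableSet.iUnion fun u => hmeas _ hSm.compl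
  have hEm : MeasurableSet E := MeasurableSet.iInter fun v => hmeas _ hS'm
  have hmpn : ∀ σ : Measure T, MeasurePreserving (fun x : T => p • x) σ σ →
      MeasurePreserving (fun x : T => q • x) σ σ → ∀ u : ℕ × ℕ,
      MeasurePreserving (fun x : T => (p ^ u.1 * q ^ u.2) • x) σ σ := by
    intro σ h1 h2 u
    have h := (h1.iterate u.1).comp (h2.iterate u.2)
    have e : (fun x : T => (p ^ u.1 * q ^ u.2) • x) =
        (fun x : T => p • x)^[u.1] ∘ (fun x : T => q • x)^[u.2] := by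
      funext x
      rw [smul_iterate, smul_iterate]
      simp only [Function.comp_apply, mul_smul]
    rw [e]
    exact h
  have hmemE : ∀ x : T, x ∈ E ↔ ∀ v : ℕ × ℕ, ∃ u : ℕ × ℕ,
      (p ^ (u.1 + v.1) * q ^ (u.2 + v.2)) • x ∈ Sᶜ := by
    intro x
    rw [hE, mem_iInter]
    refine forall_congr' fun v => ?_
    rw [mem_preimage, hS', mem_iUnion]
    refine exists_congr fun u => ?_
    rw [mem_preimage, ← mul_smul]
    rw [show p ^ u.1 * q ^ u.2 * (p ^ v.1 * q ^ v.2) = p ^ (u.1 + v.1) * q ^ (u.2 + v.2) by ring]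
  have hEp : (fun x : T => p • x) ⁻¹' E = E := by
    ext x
    rw [mem_preimage, hmemE, hmemE]
    constructor
    · intro h v
      obtain ⟨u, hu⟩ := h v
      refine ⟨(u.1 + 1, u.2), ?_⟩
      rw [← mul_smul] at hu
      rwa [show p ^ (u.1 + v.1) * q ^ (u.2 + v.2) * p =
        p ^ (u.1 + 1 + v.1) * q ^ (u.2 + v.2) by ring] at hu
    · intro h v
      obtain ⟨u, hu⟩ := h (v.1 + 1, v.2)
      refine ⟨u, ?_⟩
      rw [← mul_smul]
      rwa [show p ^ (u.1 + v.1) * q ^ (u.2 + v.2) * p =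
        p ^ (u.1 + (v.1 + 1)) * q ^ (u.2 + v.2) by ring]
  have hEq : (fun x : T => q • x) ⁻¹' E = E := by
    ext x
    rw [mem_preimage, hmemE, hmemE]
    constructor
    · intro h v
      obtain ⟨u, hu⟩ := h v
      refine ⟨(u.1, u.2 + 1), ?_⟩
      rw [← mul_smul] at hu
      rwa [show p ^ (u.1 + v.1) * q ^ (u.2 + v.2) * q =
        p ^ (u.1 + v.1) * q ^ (u.2 + 1 + v.2) by ring] at hu
    · intro h v
      obtain ⟨u, hu⟩ := h (v.1, v.2 + 1)
      refine ⟨u, ?_⟩
      rw [← mul_smul]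
      rwa [show p ^ (u.1 + v.1) * q ^ (u.2 + v.2) * q =
        p ^ (u.1 + v.1) * q ^ (u.2 + (v.2 + 1)) by ring]
  -- `S` is null for the singular part, `Sᶜ` is null for Lebesgue measure
  have hvol : (volume : Measure T) E = 0 := by
    have h1 : (volume : Measure T) S' = 0 := by
      rw [hS', measure_iUnion_null_iff]
      intro u
      rw [(hmpn volume hvp hvq u).measure_preimage hSm.compl.nullMeasurableSet]
      exact hS2
    refine measure_mono_null ?_ h1
    intro x hx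
    have := mem_iInter.1 hx (0, 0)
    simpa using this
  have hν : (μ.restrict Dᶜ) Eᶜ = 0 := by
    rw [hE, compl_iInter, measure_iUnion_null_iff]
    intro v
    have h2 : (μ.restrict Dᶜ) S'ᶜ = 0 := by
      refine measure_mono_null ?_ hS1
      intro x hx
      by_contra hxS
      refine hx (mem_iUnion.2 ⟨(0, 0), ?_⟩)
      simpa using hxS
    rw [← preimage_compl, (hmpn _ hp' hq' v).measure_preimage hS'm.compl.nullMeasurableSet]
    exact h2
  have hμE : μ E = (μ.restrict Dᶜ) univ := by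
    have h1 : μ E = (μ.restrict D) E + (μ.restrict Dᶜ) E := by
      rw [← Measure.add_apply, Measure.restrict_add_restrict_compl hDm]
    rw [h1, hD, Measure.smul_apply, hvol, smul_zero, zero_add]
    rw [← measure_add_measure_compl hEm, hν, add_zero]
  rw [← hsp, measureReal_def, ← hμE]
  rcases herg E hEm hEp hEq with h | h
  · exfalso
    apply hne
    rw [← sing_zero_gen hp hq μ hip hiq, ← hsp, measureReal_def, ← hμE, h]
    simp
  · rw [h]; simp

/-- linear forms with a gauge -/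
theorem lin_gauge_gen {p q : ℕ} (hp : 2 ≤ p) (hq : 2 ≤ q)
    (hirr : Irrational (Real.log p / Real.log q)) {g : ℝ → ℝ}
    (hg : Tendsto g atTop atTop) (hdio : Dio (Real.log p) (Real.log q) g) (n : ℕ)
    {s : ℝ → ℝ} (hs0 : ∀ᶠ r in 𝓝[>] 0, 0 < s r) (hs1 : Tendsto (fun r => s r / r) (𝓝[>] 0) (𝓝 0))
    (hs2 : ∀ᶠ r in 𝓝[>] 0, r ≤ g (-Real.log (s r)) ^ n * s r)
    (μ : Measure T) [IsProbabilityMeasure μ]
    (hip : MeasurePreserving (fun x : T => p • x) μ μ)
    (hiq : MeasurePreserving (fun x : T => q • x) μ μ) (hs : μ ⟂ₘ (volume : Measure T))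
    (k M : ℕ) {ε : ℝ} (hε : 0 < ε) : ∃ r0 : ℝ, 0 < r0 ∧ ∀ r : ℝ, 0 < r → r < r0 →
      ∃ G : Set T, IsClosed G ∧ μ.real Gᶜ ≤ ε ∧ ∀ x : Fin k → T, (∀ i, x i ∈ G) →
        ∀ a : Fin k → ℤ, ∑ i, |a i| ≤ M → ‖∑ i, a i • x i‖ ≤ r → ‖∑ i, a i • x i‖ < s r := by
  have hcov := cov_of_sing hp hq hirr μ hip hiq hs
  obtain ⟨τ0, hτ0, h⟩ := lin_forms_gen hp hq hirr hg hdio n k (M + 1) (by omega) μ hip hiq hcov hε
  have hs3 : ∀ᶠ r in 𝓝[>] (0 : ℝ), s r / r < 1 := hs1.eventually_lt_const one_pos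
  have hs4 : ∀ᶠ r in 𝓝[>] (0 : ℝ), r < τ0 := nhdsWithin_le_nhds (Iio_mem_nhds hτ0)
  have hall : ∀ᶠ r in 𝓝[>] (0 : ℝ), 0 < s r ∧ r ≤ g (-Real.log (s r)) ^ n * s r ∧ s r / r < 1 ∧
      r < τ0 := by
    filter_upwards [hs0, hs2, hs3, hs4] with r h1 h2 h3 h4
    exact ⟨h1, h2, h3, h4⟩
  rw [eventually_nhdsWithin_iff, Metric.eventually_nhds_iff] at hall
  obtain ⟨r0, hr0, hall⟩ := hall
  refine ⟨r0, hr0, fun r hr hrr => ?_⟩
  obtain ⟨h1, h2, h3, h4⟩ := hall (y := r) (by
    rw [Real.dist_eq, sub_zero, abs_of_pos hr]; exact hrr) hr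
  rw [div_lt_one hr] at h3
  obtain ⟨G, hGc, hGm, hG⟩ := h (s r) h1 (h3.trans h4)
  refine ⟨G, hGc, hGm, fun x hx a ha hz => ?_⟩
  by_contra hc
  push Not at hc
  have := hG x hx a (ha.trans (by push_cast; linarith)) hc
  linarith

end Pool.Agent.H806.Gap
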