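import Pool.Agent.H806_Gap.Mass

/-!
The limit of the mean ratio of the masses of concentric balls.
-/

set_option autoImplicit false

open MeasureTheory Filter Topology Set
open scoped ENNReal

namespace Pool.Agent.H806.Gap

open Pool.Agent.W764.FB (T EssInj hh)
open Pool.Agent.H706R2.Ren (U measurableSet_U)
open Metric (closedBall mem_closedBall)

/-- the singular part, small scales -/
lemma sing_limit {p q : ℕ} (hp : 2 ≤ p) (hq : 2 ≤ q) (hpq : Nat.Coprime p q) {g : ℝ → ℝ}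
    (hg : Tendsto g atTop atTop) (hdio : Dio (Real.log p) (Real.log q) g) (A : ℕ)
    (μ : Measure T) [IsProbabilityMeasure μ] {D : Set T} (hDm : MeasurableSet D)
    (hD : μ.restrict D = μ D • (volume : Measure T))
    (hip : MeasurePreserving (fun x : T => p • x) (μ.restrict Dᶜ) (μ.restrict Dᶜ))
    (hiq : MeasurePreserving (fun x : T => q • x) (μ.restrict Dᶜ) (μ.restrict Dᶜ))
    (hinj : EssInj p (μ.restrict Dᶜ)) {ε : ℝ} (hε : 0 < ε) :
    ∃ r0 : ℝ, 0 < r0 ∧ ∀ r s : ℝ, 0 < s → s ≤ r → r < r0 → r ≤ g (-Real.log s) ^ A * s →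
      ∫⁻ x, (1 - RR μ s r x) ∂(μ.restrict Dᶜ) ≤ ENNReal.ofReal ε := by
  set ν := μ.restrict Dᶜ with hν
  rcases eq_or_ne (ν univ) 0 with h0 | h0
  · refine ⟨1, one_pos, fun r s _ _ _ _ => ?_⟩
    rw [Measure.measure_univ_eq_zero] at h0
    rw [h0, lintegral_zero_measure]
    exact zero_le
  have hprob := normalise ν h0
  set ν' := (ν univ)⁻¹ • ν with hν'
  have hle : ∀ E : Set T, ν E ≤ ν' E := by
    intro E
    rw [hν', Measure.smul_apply, smul_eq_mul]
    have h2 : 1 ≤ (ν univ)⁻¹ := by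
      rw [ENNReal.one_le_inv, hν]
      exact (Measure.restrict_apply_le _ _).trans prob_le_one
    calc ν E = 1 * ν E := (one_mul _).symm
      _ ≤ _ := by gcongr
  have hle2 : ∀ (E : Set T) (e : ℝ), 0 ≤ e → ν'.real E ≤ e → ν E ≤ ENNReal.ofReal e := by
    intro E e he hE
    refine (hle E).trans ?_
    rw [measureReal_def] at hE
    exact (ENNReal.le_ofReal_iff_toReal_le (measure_ne_top _ _) he).2 hE
  have hmp : MeasurePreserving (fun x : T => p • x) ν' ν' := by
    refine ⟨hip.measurable, ?_⟩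
    rw [hν', Measure.map_smul, hip.map_eq]
  have hmq : MeasurePreserving (fun x : T => q • x) ν' ν' := by
    refine ⟨hiq.measurable, ?_⟩
    rw [hν', Measure.map_smul, hiq.map_eq]
  have hinj' : EssInj p ν' := by
    obtain ⟨B', h1, h2, h3⟩ := hinj
    exact ⟨B', h1, by rw [hν', Measure.smul_apply, h2, smul_zero], h3⟩
  obtain ⟨τ0, hτ0, hτ⟩ := lin_forms hp hq hpq hg hdio A 2 2 (by norm_num) ν' hmp hmq hinj'
    (ε := ε / 12) (by positivity)
  obtain ⟨K, cen, ρ, hK, hρ, hρK, hU⟩ := covering_pow hp ν' hmp hinj'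
    (κ := ε / 12) (by positivity) (c := ε / 12) (by positivity) 1
  rw [pow_one] at hρK
  refine ⟨min τ0 ρ, lt_min hτ0 hρ, fun r s hs hsr hr0 hr => ?_⟩
  have hr : 0 < r := hs.trans_le hsr
  obtain ⟨G, hGc, hGm, hG⟩ := hτ s hs (hsr.trans_lt (hr0.trans_le (min_le_left _ _)))
  have hG2 : ∀ x ∈ G, ∀ y ∈ G, dist y x ≤ r → dist y x ≤ s := by
    intro x hx y hy hxy
    by_contra hc
    push Not at hc
    have h1 := hG ![y, x] (by
      intro i; fin_cases i
      · exact hy
      · exact hx) ![1, -1] (by simp [Fin.sum_univ_two]) (by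
      simp only [Fin.sum_univ_two, Matrix.cons_val_zero, Matrix.cons_val_one, one_zsmul,
        neg_smul]
      rw [← sub_eq_add_neg, ← dist_eq_norm]
      exact hc.le)
    simp only [Fin.sum_univ_two, Matrix.cons_val_zero, Matrix.cons_val_one, one_zsmul,
        neg_smul] at h1
    rw [← sub_eq_add_neg, ← dist_eq_norm] at h1
    linarith
  have hNO : ∀ x ∈ U cen ρ, closedBall x r ⊆ U cen (2 * ρ) := by
    intro x hx y hy
    unfold U at hx ⊢
    rw [mem_iUnion] at hx ⊢
    obtain ⟨a, ha⟩ := hx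
    refine ⟨a, ?_⟩
    rw [mem_closedBall] at ha hy ⊢
    have h3 : r < ρ := hr0.trans_le (min_le_right _ _)
    have := dist_triangle y x (cen a)
    linarith
  have h1 := part_sing μ hDm hD (r' := s) hr hGc.measurableSet (measurableSet_U cen (2 * ρ)) hG2
    (measurableSet_U cen ρ) hNO
  refine h1.trans ?_
  rw [← hν]
  have e1 := hle2 Gᶜ (ε / 12) (by positivity) hGm
  have e2 := hle2 (U cen ρ)ᶜ (ε / 12) (by positivity) hU
  have e3 : (volume : Measure T) (U cen (2 * ρ)) ≤ ENNReal.ofReal (4 * (ε / 12)) := by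
    refine (vol_U_le cen (by positivity)).trans (ENNReal.ofReal_le_ofReal ?_)
    nlinarith
  have h2 : (2 : ℝ≥0∞) = ENNReal.ofReal 2 := by simp
  calc ν Gᶜ + ν (U cen ρ)ᶜ + (2 * (volume : Measure T) (U cen (2 * ρ)) + 2 * ν Gᶜ)
      ≤ ENNReal.ofReal (ε / 12) + ENNReal.ofReal (ε / 12) +
        (ENNReal.ofReal 2 * ENNReal.ofReal (4 * (ε / 12)) +
          ENNReal.ofReal 2 * ENNReal.ofReal (ε / 12)) := by
        rw [h2]
        gcongr
    _ = ENNReal.ofReal ε := by
        rw [← ENNReal.ofReal_mul (by norm_num), ← ENNReal.ofReal_mul (by norm_num),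
          ← ENNReal.ofReal_add (by positivity) (by positivity),
          ← ENNReal.ofReal_add (by positivity) (by positivity),
          ← ENNReal.ofReal_add (by positivity) (by positivity)]
        congr 1
        ring

lemma toReal_RR (μ : Measure T) [IsProbabilityMeasure μ] (s r : ℝ) (hsr : s ≤ r) :
    ∫ x, μ.real (closedBall x s) / μ.real (closedBall x r) ∂μ = (∫⁻ x, RR μ s r x ∂μ).toReal := by
  rw [← integral_toReal (measurable_RR μ s r).aemeasurable
    (Eventually.of_forall fun x => (RR_le_one μ hsr x).trans_lt ENNReal.one_lt_top)]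
  refine integral_congr_ae (Eventually.of_forall fun x => ?_)
  simp only [RR, measureReal_def, ENNReal.toReal_div]

/-- **The mean ratio of the masses of concentric balls.** -/
theorem local_mass {p q : ℕ} (hp : 2 ≤ p) (hq : 2 ≤ q) (hpq : Nat.Coprime p q) {g : ℝ → ℝ}
    (hg : Tendsto g atTop atTop) (hdio : Dio (Real.log p) (Real.log q) g) (A : ℕ)
    {s : ℝ → ℝ} (hs0 : ∀ᶠ r in 𝓝[>] 0, 0 < s r) (hs1 : Tendsto (fun r => s r / r) (𝓝[>] 0) (𝓝 0))
    (hs2 : ∀ᶠ r in 𝓝[>] 0, r ≤ g (-Real.log (s r)) ^ A * s r)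
    (μ : Measure T) [IsProbabilityMeasure μ]
    (hip : MeasurePreserving (fun x : T => p • x) μ μ)
    (hiq : MeasurePreserving (fun x : T => q • x) μ μ) :
    Tendsto (fun r : ℝ => ∫ x, μ.real (closedBall x (s r)) / μ.real (closedBall x r) ∂μ)
      (𝓝[>] 0) (𝓝 ((μ.singularPart volume).real univ)) := by
  obtain ⟨D, hDm, hD, hsp, hp', hq', hinj⟩ := structure_thm hp hq hpq μ hip hiq
  rw [← hsp]
  rw [Metric.tendsto_nhds]
  intro ε hε
  obtain ⟨r0, hr0, h⟩ := sing_limit hp hq hpq hg hdio A μ hDm hD hp' hq' hinj (ε := ε / 2)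
    (by positivity)
  have hs3 : ∀ᶠ r in 𝓝[>] (0 : ℝ), s r / r < min (ε / 2) 1 :=
    hs1.eventually_lt_const (lt_min (by positivity) one_pos)
  have hs4 : ∀ᶠ r in 𝓝[>] (0 : ℝ), r < min r0 (1 / 2) :=
    nhdsWithin_le_nhds (Iio_mem_nhds (lt_min hr0 (by norm_num)))
  filter_upwards [hs0, hs2, hs3, hs4, self_mem_nhdsWithin] with r h0 h2 h3 h4 hr
  have hr : 0 < r := hr
  have hsr : s r < r := by
    have := h3.trans_le (min_le_right _ _)
    rwa [div_lt_one hr] at this
  have hsing := h r (s r) h0 hsr.le (h4.trans_le (min_le_left _ _)) h2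
  have hDD := part_D μ hDm hD (r' := s r) h0.le hr (h4.le.trans (min_le_right _ _))
  set ν := μ.restrict Dᶜ with hν
  have hI : ∫⁻ x, RR μ (s r) r x ∂μ = ∫⁻ x in D, RR μ (s r) r x ∂μ + ∫⁻ x, RR μ (s r) r x ∂ν := by
    rw [← lintegral_add_measure, hν, Measure.restrict_add_restrict_compl hDm]
  have hup : ∫⁻ x, RR μ (s r) r x ∂μ ≤ ENNReal.ofReal (s r / r) + ν univ := by
    rw [hI]
    refine add_le_add hDD ?_
    calc ∫⁻ x, RR μ (s r) r x ∂ν ≤ ∫⁻ _, 1 ∂ν := lintegral_mono fun x => RR_le_one μ hsr.le x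
      _ = ν univ := by rw [lintegral_one]
  have hlow : ν univ ≤ ∫⁻ x, RR μ (s r) r x ∂μ + ENNReal.ofReal (ε / 2) := by
    calc ν univ = ∫⁻ _, 1 ∂ν := by rw [lintegral_one]
      _ ≤ ∫⁻ x, (RR μ (s r) r x + (1 - RR μ (s r) r x)) ∂ν :=
          lintegral_mono fun x => le_add_tsub
      _ = ∫⁻ x, RR μ (s r) r x ∂ν + ∫⁻ x, (1 - RR μ (s r) r x) ∂ν :=
          lintegral_add_left (measurable_RR μ _ _) _
      _ ≤ _ := by
          refine add_le_add ?_ hsing
          rw [hI]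
          exact le_add_self
  have hfin : ∫⁻ x, RR μ (s r) r x ∂μ ≠ ⊤ := by
    refine ne_top_of_le_ne_top ?_ hup
    exact ENNReal.add_ne_top.2 ⟨ENNReal.ofReal_ne_top, measure_ne_top _ _⟩
  rw [toReal_RR μ _ _ hsr.le, Real.dist_eq, measureReal_def]
  have hsr0 : 0 ≤ s r / r := by positivity
  have hup' : (∫⁻ x, RR μ (s r) r x ∂μ).toReal ≤ s r / r + (ν univ).toReal := by
    have := ENNReal.toReal_mono (ENNReal.add_ne_top.2 ⟨ENNReal.ofReal_ne_top, measure_ne_top _ _⟩) hup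
    rwa [ENNReal.toReal_add ENNReal.ofReal_ne_top (measure_ne_top _ _),
      ENNReal.toReal_ofReal hsr0] at this
  have hlow' : (ν univ).toReal ≤ (∫⁻ x, RR μ (s r) r x ∂μ).toReal + ε / 2 := by
    have := ENNReal.toReal_mono (ENNReal.add_ne_top.2 ⟨hfin, ENNReal.ofReal_ne_top⟩) hlow
    rwa [ENNReal.toReal_add hfin ENNReal.ofReal_ne_top,
      ENNReal.toReal_ofReal (by positivity)] at this
  have h5 := h3.trans_le (min_le_left _ _)
  rw [abs_lt]
  constructor <;> linarith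

end Pool.Agent.H806.Gap
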