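import Pool.Agent.H806_Gap.Ratio
import Pool.Agent.H806_Gap.Dio

/-!
Linear forms in typical points, and the ratios of the masses of concentric balls.
-/

set_option autoImplicit false

open MeasureTheory Filter Topology Set
open scoped ENNReal

namespace Pool.Agent.H806.Gap

open Pool.Agent.W764.FB (T EssInj hh)
open Pool.Agent.W764.SH (decomp restrict_mp)
open Pool.Agent.H706R2.Ren (U measurableSet_U)
open Pool.Agent.W764.HL (win mem_win)
open Metric (closedBall mem_closedBall)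

lemma isClosed_U {K : ℕ} (cen : Fin K → T) (ρ : ℝ) : IsClosed (U cen ρ) := by
  unfold U
  exact isClosed_iUnion_of_finite fun _ => Metric.isClosed_closedBall

lemma isClosed_Good (W : Finset ℕ) {S : Set T} (hS : IsClosed S) (k : ℕ) :
    IsClosed (Good W S k) := by
  classical
  rw [← isOpen_compl_iff]
  have e1 : (Good W S k)ᶜ = ⋃ V ∈ W.powerset.filter (fun V => W.card ≤ 4 * k * V.card),
      ⋂ n ∈ V, (fun y : T => n • y) ⁻¹' Sᶜ := by
    ext x
    simp only [mem_iUnion, mem_iInter, Finset.mem_filter, Finset.mem_powerset]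
    constructor
    · intro hx
      have hx' : W.card ≤ 4 * k * outW W S x := not_lt.1 hx
      refine ⟨W.filter fun n => n • x ∉ S, ⟨Finset.filter_subset _ _, ?_⟩, fun n hn => ?_⟩
      · unfold outW at hx'
        convert hx'
      · exact (Finset.mem_filter.1 hn).2
    · rintro ⟨V, ⟨hVW, hV⟩, h⟩
      show ¬ (4 * k * outW W S x < W.card)
      rw [not_lt]
      refine hV.trans ?_
      gcongr
      unfold outW
      refine Finset.card_le_card fun n hn => ?_
      rw [Finset.mem_filter]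
      exact ⟨hVW hn, h n hn⟩
  rw [e1]
  refine isOpen_biUnion fun V _ => ?_
  refine isOpen_biInter_finset fun n _ => ?_
  exact hS.isOpen_compl.preimage (continuous_nsmul n)

/-- an invariant measure singular to Lebesgue measure -/
lemma essInj_of_singular {p q : ℕ} (hp : 2 ≤ p) (hq : 2 ≤ q) (hpq : Nat.Coprime p q)
    (μ : Measure T) [IsProbabilityMeasure μ] (hip : MeasurePreserving (fun x : T => p • x) μ μ)
    (hiq : MeasurePreserving (fun x : T => q • x) μ μ)
    (hs : μ ⟂ₘ (volume : Measure T)) : EssInj p μ := by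
  obtain ⟨D, hDm, -, -, hD, B, hBm, hB0, hB⟩ := decomp hp hq hpq μ hip hiq
  obtain ⟨s, hsm, hs1, hs2⟩ := hs
  have hvs : (volume : Measure T) s = 1 := (prob_compl_eq_zero_iff hsm).1 hs2
  have h1 : (μ.restrict D) s = 0 := le_antisymm ((Measure.restrict_apply_le _ _).trans hs1.le) zero_le
  rw [hD, Measure.smul_apply, hvs, smul_eq_mul, mul_one] at h1
  refine ⟨B, hBm, ?_, hB⟩
  have h2 : Bᶜ ⊆ D ∪ (Dᶜ \ B) := by
    intro x hx
    by_cases hxD : x ∈ D
    · exact Or.inl hxD
    · exact Or.inr ⟨hxD, hx⟩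
  refine le_antisymm ((measure_mono h2).trans ((measure_union_le _ _).trans ?_)) zero_le
  rw [h1, hB0, add_zero]

/-- **Linear forms in typical points.** -/
theorem lin_forms {p q : ℕ} (hp : 2 ≤ p) (hq : 2 ≤ q) (hpq : Nat.Coprime p q) {g : ℝ → ℝ}
    (hg : Tendsto g atTop atTop) (hdio : Dio (Real.log p) (Real.log q) g) (A k M : ℕ)
    (hM : 1 ≤ M) (μ : Measure T) [IsProbabilityMeasure μ]
    (hip : MeasurePreserving (fun x : T => p • x) μ μ)
    (hiq : MeasurePreserving (fun x : T => q • x) μ μ) (hinj : EssInj p μ)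
    {ε : ℝ} (hε : 0 < ε) : ∃ τ0 : ℝ, 0 < τ0 ∧ ∀ τ : ℝ, 0 < τ → τ < τ0 → ∃ G : Set T, IsClosed G ∧
      μ.real Gᶜ ≤ ε ∧ ∀ x : Fin k → T, (∀ i, x i ∈ G) → ∀ a : Fin k → ℤ, ∑ i, |a i| ≤ M →
        τ ≤ ‖∑ i, a i • x i‖ → g (-Real.log τ) ^ A * τ < ‖∑ i, a i • x i‖ := by
  have hirr := Pool.Agent.W764.SH.irr_of_coprime hp hq hpq
  have hMR : (0 : ℝ) < M := by exact_mod_cast hM
  obtain ⟨K, cen, ρ, hK, hρ, hρK, hU⟩ := covering_pow hp μ hip hinj
    (κ := ε / (4 * (k + 1))) (by positivity) (c := 1 / (256 * M)) (by positivity) k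
  obtain ⟨H, τ0, hτ0, h⟩ := gap hp hq hirr hg hdio A k hM hK hρ (by
    rw [le_div_iff₀ (by positivity)] at hρK
    linarith)
  refine ⟨τ0, hτ0, fun τ hτ hτ2 => ?_⟩
  obtain ⟨hne, h2⟩ := h τ hτ hτ2
  refine ⟨Good (win p q (1 / τ) (H / τ)) (U cen ρ) k, isClosed_Good _ (isClosed_U cen ρ) k, ?_,
    fun x hx a ha hz => h2 cen x hx a ha hz⟩
  refine (good_measure hne (measurableSet_U cen ρ) k μ (inv_win hip hiq)).trans ?_
  have hk : (0 : ℝ) ≤ k := Nat.cast_nonneg k
  calc 4 * (k : ℝ) * μ.real (U cen ρ)ᶜ ≤ 4 * k * (ε / (4 * (k + 1))) := by gcongr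
    _ ≤ ε := by
      rw [← mul_div_assoc, div_le_iff₀ (by positivity)]
      nlinarith

/-- the singular part is carried by small unions of arcs -/
lemma singular_of_cover (ν : Measure T) [IsFiniteMeasure ν]
    (h : ∀ ε : ℝ≥0∞, 0 < ε → ∃ S : Set T, MeasurableSet S ∧ (volume : Measure T) S ≤ ε ∧ ν Sᶜ ≤ ε) :
    ν ⟂ₘ (volume : Measure T) := by
  have h1 : ∀ n : ℕ, ∃ S : Set T, MeasurableSet S ∧ (volume : Measure T) S ≤ (2 : ℝ≥0∞)⁻¹ ^ n ∧
      ν Sᶜ ≤ (2 : ℝ≥0∞)⁻¹ ^ n := fun n => h _ (by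
    refine pos_iff_ne_zero.2 (pow_ne_zero _ (by simp)))
  choose S hSm hS1 hS2 using h1
  have hsum : ∑' n : ℕ, (2 : ℝ≥0∞)⁻¹ ^ n ≠ ⊤ := by
    rw [ENNReal.tsum_geometric_two]; simp
  have e1 : (volume : Measure T) (limsup S atTop) = 0 :=
    measure_limsup_atTop_eq_zero (ne_top_of_le_ne_top hsum (ENNReal.tsum_le_tsum hS1))
  have e2 : ν (limsup (fun n => (S n)ᶜ) atTop) = 0 :=
    measure_limsup_atTop_eq_zero (ne_top_of_le_ne_top hsum (ENNReal.tsum_le_tsum hS2))
  have hm : MeasurableSet (limsup S atTop) := MeasurableSet.measurableSet_limsup hSm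
  refine ⟨(limsup S atTop)ᶜ, hm.compl, ?_, by rwa [compl_compl]⟩
  refine measure_mono_null ?_ e2
  intro x hx
  rw [Set.mem_compl_iff, mem_limsup_iff_frequently_mem] at hx
  rw [mem_limsup_iff_frequently_mem]
  rw [not_frequently] at hx
  exact (hx.mono fun n hn => hn).frequently

lemma vol_U_le {K : ℕ} (cen : Fin K → T) {ρ : ℝ} (hρ : 0 ≤ ρ) :
    (volume : Measure T) (U cen ρ) ≤ ENNReal.ofReal (2 * (ρ * K)) := by
  unfold U
  refine (measure_iUnion_le _).trans ?_
  have h1 : ∀ a : Fin K, (volume : Measure T) (closedBall (cen a) ρ) ≤ ENNReal.ofReal (2 * ρ) := by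
    intro a
    rw [AddCircle.volume_closedBall]
    exact ENNReal.ofReal_le_ofReal (min_le_right _ _)
  refine (ENNReal.tsum_le_tsum h1).trans ?_
  rw [tsum_fintype, Finset.sum_const, Finset.card_univ, Fintype.card_fin, nsmul_eq_mul,
    ← ENNReal.ofReal_natCast, ← ENNReal.ofReal_mul (by positivity)]
  exact le_of_eq (by congr 1; ring)

/-- the normalised measure -/
lemma normalise (ν : Measure T) [IsFiniteMeasure ν] (h0 : ν univ ≠ 0) :
    IsProbabilityMeasure ((ν univ)⁻¹ • ν) := by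
  refine ⟨?_⟩
  rw [Measure.smul_apply, smul_eq_mul, ENNReal.inv_mul_cancel h0 (measure_ne_top _ _)]

/-- The decomposition of an invariant measure. -/
lemma structure_thm {p q : ℕ} (hp : 2 ≤ p) (hq : 2 ≤ q) (hpq : Nat.Coprime p q) (μ : Measure T)
    [IsProbabilityMeasure μ] (hip : MeasurePreserving (fun x : T => p • x) μ μ)
    (hiq : MeasurePreserving (fun x : T => q • x) μ μ) :
    ∃ D : Set T, MeasurableSet D ∧ μ.restrict D = μ D • (volume : Measure T) ∧
      μ.restrict Dᶜ = μ.singularPart volume ∧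
      MeasurePreserving (fun x : T => p • x) (μ.restrict Dᶜ) (μ.restrict Dᶜ) ∧
      MeasurePreserving (fun x : T => q • x) (μ.restrict Dᶜ) (μ.restrict Dᶜ) ∧
      EssInj p (μ.restrict Dᶜ) := by
  obtain ⟨D, hDm, hDp, hDq, hD, B, hBm, hB0, hB⟩ := decomp hp hq hpq μ hip hiq
  have hp' := restrict_mp hip hDm.compl (hDp.mono fun x hx => not_congr hx)
  have hq' := restrict_mp hiq hDm.compl (hDq.mono fun x hx => not_congr hx)
  have hinj : EssInj p (μ.restrict Dᶜ) := by
    refine ⟨B, hBm, ?_, hB⟩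
    rw [Measure.restrict_apply hBm.compl]
    have : Bᶜ ∩ Dᶜ = Dᶜ \ B := by
      ext x; simp only [mem_inter_iff, mem_compl_iff, Set.mem_sdiff]; tauto
    rw [this, hB0]
  refine ⟨D, hDm, hD, ?_, hp', hq', hinj⟩
  have hsing : μ.restrict Dᶜ ⟂ₘ (volume : Measure T) := by
    rcases eq_or_ne ((μ.restrict Dᶜ) univ) 0 with h0 | h0
    · rw [Measure.measure_univ_eq_zero] at h0
      rw [h0]
      exact Measure.MutuallySingular.zero_left
    · set ν := μ.restrict Dᶜ with hν
      have hprob := normalise ν h0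
      have hmp : MeasurePreserving (fun x : T => p • x) ((ν univ)⁻¹ • ν) ((ν univ)⁻¹ • ν) := by
        refine ⟨hp'.measurable, ?_⟩
        rw [Measure.map_smul, hp'.map_eq]
      have hinj' : EssInj p ((ν univ)⁻¹ • ν) := by
        obtain ⟨B', h1, h2, h3⟩ := hinj
        exact ⟨B', h1, by rw [Measure.smul_apply, h2, smul_zero], h3⟩
      refine singular_of_cover ν fun ε hε => ?_
      obtain ⟨e, he0, he⟩ : ∃ e : ℝ, 0 < e ∧ ENNReal.ofReal e ≤ ε := by
        rcases eq_or_ne ε ⊤ with rfl | hεt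
        · exact ⟨1, one_pos, le_top⟩
        · exact ⟨ε.toReal, ENNReal.toReal_pos hε.ne' hεt, (ENNReal.ofReal_toReal hεt).le⟩
      obtain ⟨K, cen, ρ, hK, hρ, hρK, hU⟩ := covering_pow hp ((ν univ)⁻¹ • ν) hmp hinj'
        (κ := e) he0 (c := e / 2) (by positivity) 1
      refine ⟨U cen ρ, measurableSet_U cen ρ, ?_, ?_⟩
      · refine (vol_U_le cen hρ.le).trans (le_trans (ENNReal.ofReal_le_ofReal ?_) he)
        rw [pow_one] at hρK
        linarith
      · have h1 : ν (U cen ρ)ᶜ ≤ ((ν univ)⁻¹ • ν) (U cen ρ)ᶜ := by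
          rw [Measure.smul_apply, smul_eq_mul]
          have h2 : 1 ≤ (ν univ)⁻¹ := by
            rw [ENNReal.one_le_inv, hν]
            exact (Measure.restrict_apply_le _ _).trans prob_le_one
          calc ν (U cen ρ)ᶜ = 1 * ν (U cen ρ)ᶜ := (one_mul _).symm
            _ ≤ _ := by gcongr
        refine h1.trans (le_trans ?_ he)
        rw [measureReal_def] at hU
        exact (ENNReal.le_ofReal_iff_toReal_le (measure_ne_top _ _) he0.le).2 hU
  refine Measure.eq_singularPart (f := fun _ => μ D) measurable_const hsing ?_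
  rw [withDensity_const, ← hD]
  exact (Measure.restrict_compl_add_restrict hDm).symm

end Pool.Agent.H806.Gap
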