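import Pool.Agent.H806_Gap.Main

/-!
The limit of the mean ratio of the masses of concentric balls.
-/

set_option autoImplicit false

open MeasureTheory Filter Topology Set
open scoped ENNReal

namespace Pool.Agent.H806.Gap

open Pool.Agent.W764.FB (T EssInj hh)
open Metric (closedBall mem_closedBall)

/-- the ratio of the masses of two concentric balls -/
noncomputable def RR (μ : Measure T) (r' r : ℝ) (x : T) : ℝ≥0∞ :=
  μ (closedBall x r') / μ (closedBall x r)

lemma measurable_RR (μ : Measure T) [SFinite μ] (r' r : ℝ) : Measurable (RR μ r' r) :=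
  (measurable_ball μ r').div (measurable_ball μ r)

lemma RR_le_one (μ : Measure T) {r' r : ℝ} (h : r' ≤ r) (x : T) : RR μ r' r x ≤ 1 := by
  unfold RR
  refine ENNReal.div_le_of_le_mul ?_
  rw [one_mul]
  exact measure_mono (Metric.closedBall_subset_closedBall h)

lemma swap_ball (μ σ : Measure T) [SFinite μ] [SFinite σ] (r : ℝ) :
    ∫⁻ x, μ (closedBall x r) ∂σ = ∫⁻ y, σ (closedBall y r) ∂μ := by
  have hS : MeasurableSet {w : T × T | dist w.2 w.1 ≤ r} :=
    (isClosed_le (f := fun w : T × T => dist w.2 w.1) (g := fun _ => r) (by fun_prop)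
      continuous_const).measurableSet
  have e1 : ∀ x, μ (closedBall x r) = ∫⁻ y, {w : T × T | dist w.2 w.1 ≤ r}.indicator
      (fun _ => (1 : ℝ≥0∞)) (x, y) ∂μ := by
    intro x
    have e2 : ∀ y, {w : T × T | dist w.2 w.1 ≤ r}.indicator
      (fun _ => (1 : ℝ≥0∞)) (x, y) = (closedBall x r).indicator (fun _ => (1 : ℝ≥0∞)) y := by
      intro y
      by_cases h : y ∈ closedBall x r
      · rw [indicator_of_mem h, indicator_of_mem]
        exact mem_closedBall.1 h
      · rw [indicator_of_notMem h, indicator_of_notMem]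
        exact fun hc => h (mem_closedBall.2 hc)
    simp_rw [e2]
    rw [lintegral_indicator_const measurableSet_closedBall, one_mul]
  have e3 : ∀ y, σ (closedBall y r) = ∫⁻ x, {w : T × T | dist w.2 w.1 ≤ r}.indicator
      (fun _ => (1 : ℝ≥0∞)) (x, y) ∂σ := by
    intro y
    have e2 : ∀ x, {w : T × T | dist w.2 w.1 ≤ r}.indicator
      (fun _ => (1 : ℝ≥0∞)) (x, y) = (closedBall y r).indicator (fun _ => (1 : ℝ≥0∞)) x := by
      intro x
      by_cases h : x ∈ closedBall y r
      · rw [indicator_of_mem h, indicator_of_mem]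
        show dist y x ≤ r
        rw [dist_comm]
        exact mem_closedBall.1 h
      · rw [indicator_of_notMem h, indicator_of_notMem]
        exact fun hc => h (mem_closedBall.2 (by rw [dist_comm]; exact hc))
    simp_rw [e2]
    rw [lintegral_indicator_const measurableSet_closedBall, one_mul]
  simp_rw [e1, e3]
  exact lintegral_lintegral_swap (measurable_const.indicator hS).aemeasurable

/-- the Lebesgue part -/
lemma part_D (μ : Measure T) [IsProbabilityMeasure μ] {D : Set T} (hDm : MeasurableSet D)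
    (hD : μ.restrict D = μ D • (volume : Measure T)) {r' r : ℝ} (hr' : 0 ≤ r') (hr : 0 < r)
    (hr2 : r ≤ 1 / 2) : ∫⁻ x in D, RR μ r' r x ∂μ ≤ ENNReal.ofReal (r' / r) := by
  rcases eq_or_ne (μ D) 0 with h0 | h0
  · rw [Measure.restrict_eq_zero.2 h0, lintegral_zero_measure]
    exact zero_le
  have hDt : μ D ≠ ⊤ := measure_ne_top _ _
  have hr2' : (0 : ℝ) < 2 * r := by positivity
  have hne : ENNReal.ofReal (2 * r) ≠ 0 := (ENNReal.ofReal_pos.2 hr2').ne'
  have h1 : ∀ x, RR μ r' r x ≤ μ (closedBall x r') * (μ D * ENNReal.ofReal (2 * r))⁻¹ := by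
    intro x
    unfold RR
    rw [div_eq_mul_inv]
    gcongr
    have h2 : (μ.restrict D) (closedBall x r) ≤ μ (closedBall x r) := Measure.restrict_apply_le _ _
    rw [hD, Measure.smul_apply, AddCircle.volume_closedBall, smul_eq_mul, min_eq_right (by linarith)]
      at h2
    exact h2
  have hc : μ D * (μ D * ENNReal.ofReal (2 * r))⁻¹ = (ENNReal.ofReal (2 * r))⁻¹ := by
    rw [ENNReal.mul_inv (Or.inl h0) (Or.inl hDt), ← mul_assoc, ENNReal.mul_inv_cancel h0 hDt,
      one_mul]
  calc ∫⁻ x in D, RR μ r' r x ∂μ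
      ≤ ∫⁻ x in D, μ (closedBall x r') * (μ D * ENNReal.ofReal (2 * r))⁻¹ ∂μ :=
        lintegral_mono h1
    _ = (∫⁻ x, μ (closedBall x r') ∂(volume : Measure T)) * (ENNReal.ofReal (2 * r))⁻¹ := by
        rw [lintegral_mul_const _ (measurable_ball μ r'), hD, lintegral_smul_measure, smul_eq_mul,
          ← hc]
        ring
    _ ≤ ENNReal.ofReal (2 * r') * (ENNReal.ofReal (2 * r))⁻¹ := by
        gcongr
        rw [swap_ball]
        have h3 : ∀ y, (volume : Measure T) (closedBall y r') ≤ ENNReal.ofReal (2 * r') := by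
          intro y
          rw [AddCircle.volume_closedBall]
          exact ENNReal.ofReal_le_ofReal (min_le_right _ _)
        refine (lintegral_mono h3).trans ?_
        rw [lintegral_const, measure_univ, mul_one]
    _ = ENNReal.ofReal (r' / r) := by
        rw [← div_eq_mul_inv, ← ENNReal.ofReal_div_of_pos hr2']
        congr 1
        field_simp

/-- the singular part, one scale -/
lemma part_sing (μ : Measure T) [IsProbabilityMeasure μ] {D : Set T} (hDm : MeasurableSet D)
    (hD : μ.restrict D = μ D • (volume : Measure T)) {r' r : ℝ} (hr : 0 < r)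
    {G O : Set T} (hGm : MeasurableSet G) (hOm : MeasurableSet O)
    (hG : ∀ x ∈ G, ∀ y ∈ G, dist y x ≤ r → dist y x ≤ r')
    {N : Set T} (hN : MeasurableSet N) (hNO : ∀ x ∈ N, closedBall x r ⊆ O) :
    ∫⁻ x, (1 - RR μ r' r x) ∂(μ.restrict Dᶜ) ≤ (μ.restrict Dᶜ) Gᶜ + (μ.restrict Dᶜ) Nᶜ +
      (2 * (volume : Measure T) O + 2 * (μ.restrict Dᶜ) Gᶜ) := by
  set ν := μ.restrict Dᶜ with hν
  have hpos : ∀ᵐ x ∂ν, 0 < μ (closedBall x r) := ae_restrict_of_ae (pos_ball μ hr)
  have hsplit : ∀ E : Set T, μ E ≤ (volume : Measure T) E + ν E := by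
    intro E
    have h1 : μ E = (μ.restrict D) E + ν E := by
      rw [← Measure.add_apply, hν, Measure.restrict_add_restrict_compl hDm]
    rw [h1, hD, Measure.smul_apply, smul_eq_mul]
    gcongr
    calc μ D * (volume : Measure T) E ≤ 1 * (volume : Measure T) E := by gcongr; exact prob_le_one
      _ = _ := one_mul _
  have key : ∀ᵐ x ∂ν, 1 - RR μ r' r x ≤ Gᶜ.indicator (fun _ => (1 : ℝ≥0∞)) x +
      Nᶜ.indicator (fun _ => (1 : ℝ≥0∞)) x +
      ((volume : Measure T) (closedBall x r ∩ O) / μ (closedBall x r) +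
        ν (closedBall x r ∩ Gᶜ) / μ (closedBall x r)) := by
    filter_upwards [hpos] with x hx
    by_cases hxG : x ∈ G
    · by_cases hxN : x ∈ N
      · have hb0 : μ (closedBall x r) ≠ 0 := hx.ne'
        have hbt : μ (closedBall x r) ≠ ⊤ := measure_ne_top _ _
        have h1 : μ (closedBall x r) ≤ μ (closedBall x r') +
            ((volume : Measure T) (closedBall x r ∩ O) + ν (closedBall x r ∩ Gᶜ)) := by
          have h2 : closedBall x r ⊆ closedBall x r' ∪ (closedBall x r ∩ Gᶜ) := by
            intro y hy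
            by_cases hyG : y ∈ G
            · left
              exact mem_closedBall.2 (hG x hxG y hyG (mem_closedBall.1 hy))
            · exact Or.inr ⟨hy, hyG⟩
          have h3 : closedBall x r ∩ Gᶜ ⊆ closedBall x r ∩ O := fun y hy => ⟨hy.1, hNO x hxN hy.1⟩
          refine (measure_mono h2).trans ((measure_union_le _ _).trans ?_)
          refine add_le_add le_rfl ?_
          exact (hsplit _).trans (add_le_add (measure_mono h3) le_rfl)
        have h2 : 1 ≤ RR μ r' r x + ((volume : Measure T) (closedBall x r ∩ O) / μ (closedBall x r) +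
            ν (closedBall x r ∩ Gᶜ) / μ (closedBall x r)) := by
          unfold RR
          rw [← ENNReal.add_div, ← ENNReal.add_div]
          rw [ENNReal.le_div_iff_mul_le (Or.inl hb0) (Or.inl hbt), one_mul]
          exact h1
        refine (tsub_le_iff_left.2 h2).trans ?_
        exact le_add_self
      · rw [indicator_of_mem (show x ∈ Nᶜ from hxN)]
        refine tsub_le_self.trans ?_
        calc (1 : ℝ≥0∞) ≤ Gᶜ.indicator (fun _ => (1 : ℝ≥0∞)) x + 1 := le_add_self
          _ ≤ _ := le_self_add
    · rw [indicator_of_mem (show x ∈ Gᶜ from hxG)]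
      refine tsub_le_self.trans ?_
      calc (1 : ℝ≥0∞) ≤ 1 + Nᶜ.indicator (fun _ => (1 : ℝ≥0∞)) x := le_self_add
        _ ≤ _ := le_self_add
  have hm1 : Measurable fun x => (volume : Measure T) (closedBall x r ∩ O) / μ (closedBall x r) :=
    (measurable_ball_inter _ r hOm).div (measurable_ball μ r)
  have hm2 : Measurable fun x => ν (closedBall x r ∩ Gᶜ) / μ (closedBall x r) :=
    (measurable_ball_inter _ r hGm.compl).div (measurable_ball μ r)
  have hmG : Measurable (Gᶜ.indicator (fun _ : T => (1 : ℝ≥0∞))) :=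
    measurable_const.indicator hGm.compl
  have hmN : Measurable (Nᶜ.indicator (fun _ : T => (1 : ℝ≥0∞))) :=
    measurable_const.indicator hN.compl
  have hmGN : Measurable fun x => Gᶜ.indicator (fun _ : T => (1 : ℝ≥0∞)) x +
      Nᶜ.indicator (fun _ : T => (1 : ℝ≥0∞)) x := hmG.add hmN
  refine (lintegral_mono_ae key).trans ?_
  rw [lintegral_add_left hmGN, lintegral_add_left hmG, lintegral_add_left hm1,
    lintegral_indicator_const hGm.compl, lintegral_indicator_const hN.compl, one_mul, one_mul]
  have hle : ν ≤ μ := Measure.restrict_le_self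
  gcongr
  · exact (lintegral_mono' hle le_rfl).trans (tonelli μ volume hr.le hOm)
  · exact (lintegral_mono' hle le_rfl).trans (tonelli μ ν hr.le hGm.compl)

end Pool.Agent.H806.Gap
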