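import Pool.Agent.H806_Gap.Four
import Pool.Agent.H806_Gap.Gen

/-!
The one scale inequality and the criterion of equidistribution.
-/

set_option autoImplicit false

open MeasureTheory Filter Topology Set
open scoped ENNReal

namespace Pool.Agent.H806.Gap

open Pool.Agent.W764.FB (T EssInj hh)
open Pool.Agent.W764.HL (win mem_win)
open Metric (closedBall mem_closedBall)

/-- **The one scale inequality.** -/
theorem fourier_scale {p q : ℕ} (hp : 2 ≤ p) (hq : 2 ≤ q)
    (hirr : Irrational (Real.log p / Real.log q)) {g : ℝ → ℝ}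
    (hg : Tendsto g atTop atTop) (hdio : Dio (Real.log p) (Real.log q) g) (A : ℕ)
    {s : ℝ → ℝ} (hs0 : ∀ᶠ r in 𝓝[>] 0, 0 < s r) (hs1 : Tendsto (fun r => s r / r) (𝓝[>] 0) (𝓝 0))
    (hs2 : ∀ᶠ r in 𝓝[>] 0, r ≤ g (-Real.log (s r)) ^ A * s r) {m : ℤ} (hm : m ≠ 0) {ε : ℝ}
    (hε : 0 < ε) : ∀ᶠ r in 𝓝[>] (0 : ℝ), ∀ μ : Measure T, IsProbabilityMeasure μ →
      MeasurePreserving (fun x : T => p • x) μ μ → MeasurePreserving (fun x : T => q • x) μ μ →
        ‖∫ x, (fourier m x : ℂ) ∂μ‖ ^ 2 ≤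
          ∫ x, μ.real (closedBall x (s r)) / μ.real (closedBall x r) ∂μ + ε := by
  obtain ⟨H, hH, τ0, hτ0, h⟩ := exp_win hp hq hirr hg hdio (A + 1) m.natAbs (η := ε / 2)
    (by positivity)
  set M : ℝ := 4 / ε + 2 with hM
  have hM0 : 0 < M := by positivity
  have hM2 : 2 ≤ M := by
    have : 0 < 4 / ε := by positivity
    linarith
  have hs3 : ∀ᶠ r in 𝓝[>] (0 : ℝ), s r / r < 1 := hs1.eventually_lt_const one_pos
  have hs4 : ∀ᶠ r in 𝓝[>] (0 : ℝ), r < min τ0 (1 / M) :=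
    nhdsWithin_le_nhds (Iio_mem_nhds (lt_min hτ0 (by positivity)))
  have hlog : Tendsto (fun r => -Real.log (s r)) (𝓝[>] 0) atTop := by
    have h1 : Tendsto (fun r : ℝ => -Real.log r) (𝓝[>] 0) atTop := by
      refine tendsto_log_inv.congr fun r => ?_
      rw [one_div, Real.log_inv]
    refine tendsto_atTop_mono' _ ?_ h1
    filter_upwards [hs0, hs3, self_mem_nhdsWithin] with r h2 h3 h4
    have h4 : (0 : ℝ) < r := h4
    rw [div_lt_one h4] at h3
    have := Real.log_le_log h2 h3.le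
    linarith
  have hs5 : ∀ᶠ r in 𝓝[>] (0 : ℝ), M ≤ g (-Real.log (s r)) :=
    (hg.comp hlog).eventually_ge_atTop M
  filter_upwards [hs0, hs2, hs3, hs4, hs5, self_mem_nhdsWithin] with r h0 h2 h3 h4 h5 hr μ hμ hip hiq
  have hr : (0 : ℝ) < r := hr
  rw [div_lt_one hr] at h3
  have hMr : M * r ≤ 1 := by
    have h6 := h4.trans_le (min_le_right _ _)
    rw [lt_div_iff₀ hM0] at h6
    linarith
  obtain ⟨hne, hW⟩ := h (s r) h0 (h3.trans (h4.trans_le (min_le_left _ _)))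
  have key := fourier_window μ _ hne m (τ := s r) (r := r) (R := M * r) (η := ε / 2) h3.le h0
    (by gcongr) hMr (by positivity) (fun n hn => by
      obtain ⟨⟨a, b, rfl⟩, -⟩ := (mem_win).1 hn
      exact pow_mp hip hiq a b) (by
      intro z hz1 hz2
      refine hW z hz1 ?_ m hm (by rw [Int.natCast_natAbs])
      refine hz2.trans ?_
      have h6 : 0 ≤ g (-Real.log (s r)) := hM0.le.trans h5
      calc M * r ≤ g (-Real.log (s r)) * (g (-Real.log (s r)) ^ A * s r) := by gcongr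
        _ = _ := by ring)
  refine key.trans ?_
  have h6 : 2 * r / (M * r) ≤ ε / 2 := by
    rw [mul_div_mul_right _ _ hr.ne', div_le_iff₀ hM0, hM]
    have : ε / 2 * (4 / ε + 2) = 2 + ε := by field_simp; ring
    rw [this]; linarith
  linarith

/-- **Weak convergence** from the mean ratios. -/
theorem weak_of_ratio {p q : ℕ} (hp : 2 ≤ p) (hq : 2 ≤ q)
    (hirr : Irrational (Real.log p / Real.log q)) {g : ℝ → ℝ}
    (hg : Tendsto g atTop atTop) (hdio : Dio (Real.log p) (Real.log q) g) (A : ℕ)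
    {s : ℝ → ℝ} (hs0 : ∀ᶠ r in 𝓝[>] 0, 0 < s r) (hs1 : Tendsto (fun r => s r / r) (𝓝[>] 0) (𝓝 0))
    (hs2 : ∀ᶠ r in 𝓝[>] 0, r ≤ g (-Real.log (s r)) ^ A * s r)
    {μ : ℕ → Measure T} (hμ : ∀ n, IsProbabilityMeasure (μ n))
    (hip : ∀ n, MeasurePreserving (fun x : T => p • x) (μ n) (μ n))
    (hiq : ∀ n, MeasurePreserving (fun x : T => q • x) (μ n) (μ n)) {r : ℕ → ℝ}
    (hr0 : ∀ n, 0 < r n) (hr : Tendsto r atTop (𝓝 0))
    (ht : Tendsto (fun n => ∫ x, (μ n).real (closedBall x (s (r n))) /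
      (μ n).real (closedBall x (r n)) ∂(μ n)) atTop (𝓝 0)) (f : C(T, ℝ)) :
    Tendsto (fun n => ∫ x, f x ∂(μ n)) atTop (𝓝 (∫ x, f x ∂(volume : Measure T))) := by
  have hr' : Tendsto r atTop (𝓝[>] 0) :=
    tendsto_nhdsWithin_iff.2 ⟨hr, Eventually.of_forall hr0⟩
  -- the Fourier coefficients
  have hcoef : ∀ m : ℤ, m ≠ 0 → Tendsto (fun n => ∫ x, (fourier m x : ℂ) ∂(μ n)) atTop (𝓝 0) := by
    intro m hm
    rw [tendsto_zero_iff_norm_tendsto_zero]
    rw [Metric.tendsto_nhds]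
    intro ε hε
    have h1 := hr'.eventually (fourier_scale hp hq hirr hg hdio A hs0 hs1 hs2 hm
      (ε := ε ^ 2 / 2) (by positivity))
    have h2 := ht.eventually_lt_const (show (0 : ℝ) < ε ^ 2 / 2 by positivity)
    filter_upwards [h1, h2] with n h1 h2
    rw [Real.dist_eq, sub_zero, abs_of_nonneg (norm_nonneg _)]
    have h3 := h1 (μ n) (hμ n) (hip n) (hiq n)
    have h4 : ‖∫ x, (fourier m x : ℂ) ∂(μ n)‖ ^ 2 < ε ^ 2 := by linarith
    exact lt_of_pow_lt_pow_left₀ 2 hε.le h4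
  rw [Metric.tendsto_nhds]
  intro ε hε
  obtain ⟨F, c, hFc⟩ := exists_trig f.continuous (ε := ε / 4) (by positivity)
  set P : T → ℂ := fun y => ∑ m ∈ F, c m * (fourier m y : ℂ) with hP
  have hPc : Continuous P := continuous_finsetSum _ fun m _ =>
    continuous_const.mul (map_continuous (fourier m))
  have hint : ∀ (σ : Measure T) (_ : IsFiniteMeasure σ) (h : T → ℂ), Continuous h →
      Integrable h σ := by
    intro σ _ h hh
    obtain ⟨C', hC'⟩ := isCompact_univ.exists_bound_of_continuousOn hh.continuousOn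
    exact Integrable.of_bound hh.aestronglyMeasurable C'
      (Eventually.of_forall fun y => hC' y (mem_univ _))
  have hfc : Continuous fun y => (f y : ℂ) := Complex.continuous_ofReal.comp f.continuous
  have hPint : ∀ (σ : Measure T) (_ : IsFiniteMeasure σ), ∫ y, P y ∂σ =
      ∑ m ∈ F, c m * ∫ y, (fourier m y : ℂ) ∂σ := by
    intro σ _
    have h1 : ∀ m ∈ F, Integrable (fun y : T => c m * (fourier m y : ℂ)) σ := fun m _ =>
      hint σ inferInstance _ (continuous_const.mul (map_continuous (fourier m)))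
    simp only [hP]
    rw [integral_finsetSum _ h1]
    simp_rw [integral_const_mul]
  have hlim : Tendsto (fun n => ∫ y, P y ∂(μ n)) atTop (𝓝 (∫ y, P y ∂(volume : Measure T))) := by
    have e1 : (fun n => ∫ y, P y ∂(μ n)) = fun n => ∑ m ∈ F, c m * ∫ y, (fourier m y : ℂ) ∂(μ n) :=
      funext fun n => hPint (μ n) inferInstance
    rw [e1, hPint volume inferInstance]
    refine tendsto_finsetSum _ fun m _ => Tendsto.const_mul _ ?_
    rcases eq_or_ne m 0 with rfl | hm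
    · simp
    · rw [Pool.Agent.H847R3.XpXq.integral_fourier_zero hm]
      exact hcoef m hm
  have h1 := (Metric.tendsto_nhds.1 hlim) (ε / 2) (by positivity)
  filter_upwards [h1] with n hn
  have hap : ∀ (σ : Measure T) (_ : IsProbabilityMeasure σ),
      ‖((∫ y, f y ∂σ : ℝ) : ℂ) - ∫ y, P y ∂σ‖ ≤ ε / 4 := by
    intro σ _
    rw [← integral_complex_ofReal, ← integral_sub (hint σ inferInstance _ hfc)
      (hint σ inferInstance _ hPc)]
    refine (norm_integral_le_of_norm_le_const (C := ε / 4) (Eventually.of_forall hFc)).trans ?_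
    simp
  rw [dist_eq_norm] at hn
  have e2 : ((∫ y, f y ∂(μ n) - ∫ y, f y ∂(volume : Measure T) : ℝ) : ℂ) =
      (((∫ y, f y ∂(μ n) : ℝ) : ℂ) - ∫ y, P y ∂(μ n)) +
      (∫ y, P y ∂(μ n) - ∫ y, P y ∂(volume : Measure T)) -
      (((∫ y, f y ∂(volume : Measure T) : ℝ) : ℂ) - ∫ y, P y ∂(volume : Measure T)) := by
    push_cast; ring
  have h3 : ‖((∫ y, f y ∂(μ n) - ∫ y, f y ∂(volume : Measure T) : ℝ) : ℂ)‖ < ε := by
    rw [e2]
    refine lt_of_le_of_lt (norm_sub_le _ _) ?_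
    have h4 := norm_add_le (((∫ y, f y ∂(μ n) : ℝ) : ℂ) - ∫ y, P y ∂(μ n))
      (∫ y, P y ∂(μ n) - ∫ y, P y ∂(volume : Measure T))
    have h5 := hap (μ n) inferInstance
    have h6 := hap volume inferInstance
    linarith
  rwa [Complex.norm_real, ← dist_eq_norm] at h3

/-- **The Lebesgue part** seen at one scale. -/
theorem leb_part {p q : ℕ} (hp : 2 ≤ p) (hq : 2 ≤ q)
    (hirr : Irrational (Real.log p / Real.log q)) {g : ℝ → ℝ}
    (hg : Tendsto g atTop atTop) (hdio : Dio (Real.log p) (Real.log q) g) (A : ℕ)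
    {s : ℝ → ℝ} (hs0 : ∀ᶠ r in 𝓝[>] 0, 0 < s r) (hs1 : Tendsto (fun r => s r / r) (𝓝[>] 0) (𝓝 0))
    (hs2 : ∀ᶠ r in 𝓝[>] 0, r ≤ g (-Real.log (s r)) ^ A * s r) {f : T → ℝ} (hf : Continuous f)
    (hf0 : ∀ x, 0 ≤ f x) {ε : ℝ} (hε : 0 < ε) : ∃ δ : ℝ, 0 < δ ∧
      ∀ᶠ r in 𝓝[>] (0 : ℝ), ∀ μ : Measure T, IsProbabilityMeasure μ →
      MeasurePreserving (fun x : T => p • x) μ μ → MeasurePreserving (fun x : T => q • x) μ μ →
        μ.real {x | μ.real (closedBall x (s r)) ≤ δ * μ.real (closedBall x r)} *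
          ∫ x, f x ∂(volume : Measure T) ≤ ∫ x, f x ∂μ + ε := by
  obtain ⟨δ, hδ, r0, hr0, h⟩ := single_scale hp hq hirr hg hdio A hf hε
  refine ⟨δ, hδ, ?_⟩
  have hs3 : ∀ᶠ r in 𝓝[>] (0 : ℝ), s r / r < 1 := hs1.eventually_lt_const one_pos
  have hs4 : ∀ᶠ r in 𝓝[>] (0 : ℝ), r < r0 := nhdsWithin_le_nhds (Iio_mem_nhds hr0)
  filter_upwards [hs0, hs2, hs3, hs4, self_mem_nhdsWithin] with r h0 h2 h3 h4 hr μ hμ hip hiq
  have hr : (0 : ℝ) < r := hr
  rw [div_lt_one hr] at h3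
  obtain ⟨W, hW, hWpq, hW2⟩ := h r (s r) h0 h3.le h4 h2
  set E : Set T := {x | μ.real (closedBall x (s r)) ≤ δ * μ.real (closedBall x r)} with hE
  have h5 := hW2 μ hμ E (measurableSet_ratio μ _ _ _) (fun x hx => hx)
  rw [abs_le] at h5
  have hAW0 : ∀ y, 0 ≤ AW W f y := fun y => by
    unfold AW
    exact mul_nonneg (by positivity) (Finset.sum_nonneg fun n _ => hf0 _)
  have hAWint : Integrable (AW W f) μ := by
    obtain ⟨C', hC'⟩ := isCompact_univ.exists_bound_of_continuousOn (continuous_AW W hf).continuousOn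
    exact Integrable.of_bound (continuous_AW W hf).aestronglyMeasurable C'
      (Eventually.of_forall fun y => hC' y (mem_univ _))
  have h6 : ∫ y in E, AW W f y ∂μ ≤ ∫ y, f y ∂μ := by
    rw [← integral_AW hW hf μ fun n hn => by
      obtain ⟨a, b, rfl⟩ := hWpq n hn
      exact pow_mp hip hiq a b]
    exact setIntegral_le_integral hAWint (Eventually.of_forall hAW0)
  linarith [h5.1]

end Pool.Agent.H806.Gap
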