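import Pool.Agent.H806_Gap.Local

/-!
The rates.
-/

set_option autoImplicit false

open MeasureTheory Filter Topology Set
open scoped ENNReal

namespace Pool.Agent.H806.Gap

open Pool.Agent.W764.FB (T EssInj hh)
open Metric (closedBall mem_closedBall)

lemma tendsto_log_inv : Tendsto (fun r : ℝ => Real.log (1 / r)) (𝓝[>] 0) atTop := by
  have h : Tendsto (fun r : ℝ => 1 / r) (𝓝[>] 0) atTop := by
    simpa using tendsto_inv_nhdsGT_zero (𝕜 := ℝ)
  exact Real.tendsto_log_atTop.comp h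

/-- the numerical facts about a gauge `L (log (1 / r))` -/
lemma gauge {L : ℝ → ℝ} (hL : Tendsto L atTop atTop) (hmono : ∀ᶠ x in atTop, ∀ y, x ≤ y → L x ≤ L y)
    {g : ℝ → ℝ} (n : ℕ) (hg : ∀ᶠ x in atTop, L x ≤ g x ^ n) {s : ℝ → ℝ}
    (hs : ∀ r, s r = r / L (Real.log (1 / r))) :
    (∀ᶠ r in 𝓝[>] (0 : ℝ), 0 < s r) ∧ Tendsto (fun r => s r / r) (𝓝[>] 0) (𝓝 0) ∧
      ∀ᶠ r in 𝓝[>] (0 : ℝ), r ≤ g (-Real.log (s r)) ^ n * s r := by
  have h1 : Tendsto (fun r : ℝ => L (Real.log (1 / r))) (𝓝[>] 0) atTop := hL.comp tendsto_log_inv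
  have hpos : ∀ᶠ r in 𝓝[>] (0 : ℝ), 0 < s r := by
    filter_upwards [h1.eventually_gt_atTop 0, self_mem_nhdsWithin] with r hr hr0
    rw [hs]
    exact div_pos hr0 hr
  refine ⟨hpos, ?_, ?_⟩
  · have h2 : Tendsto (fun r : ℝ => (L (Real.log (1 / r)))⁻¹) (𝓝[>] 0) (𝓝 0) :=
      tendsto_inv_atTop_zero.comp h1
    refine h2.congr' ?_
    filter_upwards [self_mem_nhdsWithin] with r hr0
    have hr0 : (0 : ℝ) < r := hr0
    rw [hs, div_right_comm, div_self hr0.ne', one_div (L _)]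
  · have h2 : ∀ᶠ r in 𝓝[>] (0 : ℝ), ∀ y, Real.log (1 / r) ≤ y → L (Real.log (1 / r)) ≤ L y :=
      tendsto_log_inv.eventually hmono
    have h3 : ∀ᶠ r in 𝓝[>] (0 : ℝ), ∀ y, Real.log (1 / r) ≤ y → L y ≤ g y ^ n :=
      tendsto_log_inv.eventually (eventually_forall_ge_atTop.2 hg)
    filter_upwards [h1.eventually_ge_atTop 1, h2, h3, hpos, self_mem_nhdsWithin] with r hr h2 h3 h4 hr0
    have hr0 : (0 : ℝ) < r := hr0
    have hL0 : 0 < L (Real.log (1 / r)) := by linarith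
    have h5 : Real.log (1 / r) ≤ -Real.log (s r) := by
      rw [hs, Real.log_div hr0.ne' hL0.ne']
      have h6 := Real.log_nonneg hr
      have h7 : Real.log (1 / r) = -Real.log r := by rw [one_div, Real.log_inv]
      linarith
    have h6 : L (Real.log (1 / r)) ≤ g (-Real.log (s r)) ^ n := (h2 _ h5).trans (h3 _ h5)
    calc r = L (Real.log (1 / r)) * s r := by
          rw [hs]; field_simp
      _ ≤ _ := by gcongr

/-- the gauge `log (1 / r) ^ A` -/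
lemma gauge_poly {θ : ℝ} (hθ : 0 < θ) {A : ℝ} (hA : 0 < A) : ∃ n : ℕ,
    (∀ᶠ r in 𝓝[>] (0 : ℝ), 0 < r / Real.log (1 / r) ^ A) ∧
      Tendsto (fun r : ℝ => (r / Real.log (1 / r) ^ A) / r) (𝓝[>] 0) (𝓝 0) ∧
      ∀ᶠ r in 𝓝[>] (0 : ℝ), r ≤ (fun x : ℝ => x ^ θ) (-Real.log (r / Real.log (1 / r) ^ A)) ^ n *
        (r / Real.log (1 / r) ^ A) := by
  obtain ⟨n, hn⟩ := exists_nat_gt (A / θ)
  refine ⟨n, gauge (L := fun x => x ^ A) (g := fun x : ℝ => x ^ θ) (tendsto_rpow_atTop hA) ?_ n ?_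
    fun r => rfl⟩
  · filter_upwards [eventually_ge_atTop 0] with x hx y hxy
    exact Real.rpow_le_rpow hx hxy hA.le
  · filter_upwards [eventually_ge_atTop 1] with x hx
    show x ^ A ≤ (x ^ θ) ^ n
    rw [← Real.rpow_natCast, ← Real.rpow_mul (by linarith)]
    refine Real.rpow_le_rpow_of_exponent_le hx ?_
    rw [div_lt_iff₀ hθ] at hn
    linarith

/-- the gauge `(log log (1 / r)) ^ A` -/
lemma gauge_log {θ : ℝ} (hθ : 0 < θ) {A : ℝ} (hA : 0 < A) : ∃ n : ℕ,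
    (∀ᶠ r in 𝓝[>] (0 : ℝ), 0 < r / Real.log (Real.log (1 / r)) ^ A) ∧
      Tendsto (fun r : ℝ => (r / Real.log (Real.log (1 / r)) ^ A) / r) (𝓝[>] 0) (𝓝 0) ∧
      ∀ᶠ r in 𝓝[>] (0 : ℝ), r ≤ (fun x : ℝ => θ * Real.log x)
        (-Real.log (r / Real.log (Real.log (1 / r)) ^ A)) ^ n *
          (r / Real.log (Real.log (1 / r)) ^ A) := by
  obtain ⟨n, hn⟩ := exists_nat_gt A
  refine ⟨n, gauge (L := fun x => Real.log x ^ A) (g := fun x : ℝ => θ * Real.log x)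
    ((tendsto_rpow_atTop hA).comp Real.tendsto_log_atTop) ?_ n ?_ fun r => rfl⟩
  · filter_upwards [eventually_ge_atTop 1] with x hx y hxy
    exact Real.rpow_le_rpow (Real.log_nonneg hx) (Real.log_le_log (by linarith) hxy) hA.le
  · have h1 : ∀ᶠ y : ℝ in atTop, y ^ A ≤ (θ * y) ^ n := by
      have h2 : Tendsto (fun y : ℝ => y ^ ((n : ℝ) - A)) atTop atTop :=
        tendsto_rpow_atTop (by linarith)
      filter_upwards [h2.eventually_ge_atTop ((θ ^ n)⁻¹), eventually_gt_atTop 0] with y hy hy0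
      have hθn : 0 < θ ^ n := by positivity
      rw [mul_pow, ← Real.rpow_natCast y, show (n : ℝ) = A + (n - A) by ring,
        Real.rpow_add hy0]
      have h3 : 1 ≤ θ ^ n * y ^ ((n : ℝ) - A) := by
        calc (1 : ℝ) = θ ^ n * (θ ^ n)⁻¹ := (mul_inv_cancel₀ hθn.ne').symm
          _ ≤ _ := by gcongr
      calc y ^ A = y ^ A * 1 := (mul_one _).symm
        _ ≤ y ^ A * (θ ^ n * y ^ ((n : ℝ) - A)) := by gcongr
        _ = _ := by ring
    exact Real.tendsto_log_atTop.eventually h1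

end Pool.Agent.H806.Gap
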