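import Pool.Agent.H806_Gap.Exp
import Pool.Agent.H806_Gap.Mass

/-!
The criterion at a single scale: the local second moment.
-/

set_option autoImplicit false

open MeasureTheory Filter Topology Set
open scoped ENNReal

namespace Pool.Agent.H806.Gap

open Pool.Agent.W764.FB (T EssInj hh)
open Metric (closedBall mem_closedBall)

/-- the exponential sum -/
noncomputable def ES (W : Finset ℕ) (m : ℤ) (y : T) : ℂ := ∑ n ∈ W, (fourier m (n • y) : ℂ)

lemma norm_fourier_one (m : ℤ) (y : T) : ‖(fourier m y : ℂ)‖ = 1 := by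
  rw [fourier_apply]; exact Circle.norm_coe _

lemma norm_ES (W : Finset ℕ) (m : ℤ) (y : T) : ‖ES W m y‖ ≤ W.card := by
  unfold ES
  refine (norm_sum_le _ _).trans ?_
  simp

lemma continuous_ES (W : Finset ℕ) (m : ℤ) : Continuous (ES W m) := by
  unfold ES
  exact continuous_finsetSum _ fun n _ => (map_continuous (fourier m)).comp (continuous_nsmul n)

/-- the second moment -/
lemma second_moment (W : Finset ℕ) (m : ℤ) (ν : Measure T) [IsFiniteMeasure ν] {τ R η b : ℝ}
    (hη : 0 ≤ η) (hb : 0 ≤ b) {B : Set T} (hB : ∀ᵐ y ∂ν, y ∈ B)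
    (hR : ∀ y ∈ B, ∀ y' ∈ B, ‖y - y'‖ ≤ R)
    (hsum : ∀ z : T, τ ≤ ‖z‖ → ‖z‖ ≤ R → ‖ES W m z‖ ≤ η * W.card)
    (hsm : ∀ᵐ y ∂ν, ν.real (closedBall y τ) ≤ b) :
    ‖∫ y, ES W m y ∂ν‖ ^ 2 ≤ (W.card : ℝ) ^ 2 * (η * ν.real univ ^ 2 + b * ν.real univ) := by
  classical
  have hint : ∀ n : ℕ, Integrable (fun y : T => (fourier m (n • y) : ℂ)) ν := fun n =>
    Integrable.of_bound (((map_continuous (fourier m)).comp (continuous_nsmul n)).aestronglyMeasurable)
      1 (Eventually.of_forall fun y => (norm_fourier_one m _).le)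
  set c : ℕ → ℂ := fun n => ∫ y, (fourier m (n • y) : ℂ) ∂ν with hc
  have h1 : ∫ y, ES W m y ∂ν = ∑ n ∈ W, c n := by
    unfold ES
    rw [integral_finsetSum _ fun n _ => hint n]
  have h2 : ‖∑ n ∈ W, c n‖ ^ 2 ≤ W.card * ∑ n ∈ W, ‖c n‖ ^ 2 := by
    calc ‖∑ n ∈ W, c n‖ ^ 2 ≤ (∑ n ∈ W, ‖c n‖) ^ 2 := by
          gcongr; exact norm_sum_le _ _
      _ ≤ W.card * ∑ n ∈ W, ‖c n‖ ^ 2 := sq_sum_le_card_mul_sum_sq
  -- the product measure
  have h3 : ∀ n : ℕ, ((‖c n‖ ^ 2 : ℝ) : ℂ) =
      ∫ w : T × T, (fourier m (n • (w.1 - w.2)) : ℂ) ∂(ν.prod ν) := by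
    intro n
    have e1 : ∀ w : T × T, (fourier m (n • (w.1 - w.2)) : ℂ) =
        (fourier m (n • w.1) : ℂ) * (starRingEnd ℂ) (fourier m (n • w.2) : ℂ) := by
      intro w
      rw [← fourier_neg, fourier_apply, fourier_apply, fourier_apply, ← Circle.coe_mul,
        ← AddCircle.toCircle_add, neg_smul, smul_sub, smul_sub, sub_eq_add_neg]
    simp_rw [e1]
    rw [integral_prod_mul (fun y : T => (fourier m (n • y) : ℂ))
      (fun y : T => (starRingEnd ℂ) (fourier m (n • y) : ℂ)), integral_conj]
    rw [RCLike.mul_conj]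
    norm_cast
  have hint2 : ∀ n : ℕ, Integrable (fun w : T × T => (fourier m (n • (w.1 - w.2)) : ℂ))
      (ν.prod ν) := fun n =>
    Integrable.of_bound (((map_continuous (fourier m)).comp
      ((continuous_nsmul n).comp (continuous_fst.sub continuous_snd))).aestronglyMeasurable)
      1 (Eventually.of_forall fun y => (norm_fourier_one m _).le)
  have h4 : ((∑ n ∈ W, ‖c n‖ ^ 2 : ℝ) : ℂ) = ∫ w : T × T, ES W m (w.1 - w.2) ∂(ν.prod ν) := by
    unfold ES
    rw [integral_finsetSum _ fun n _ => hint2 n]
    push_cast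
    refine Finset.sum_congr rfl fun n _ => ?_
    rw [← h3 n]
    push_cast
    rfl
  set S : Set (T × T) := {w | ‖w.1 - w.2‖ ≤ τ} with hS
  have hSm : MeasurableSet S := by
    have : IsClosed S := isClosed_le (by fun_prop) continuous_const
    exact this.measurableSet
  have h5 : ∑ n ∈ W, ‖c n‖ ^ 2 ≤ W.card * (η * ν.real univ ^ 2 + (ν.prod ν).real S) := by
    have h6 : ∑ n ∈ W, ‖c n‖ ^ 2 = ‖∫ w : T × T, ES W m (w.1 - w.2) ∂(ν.prod ν)‖ := by
      rw [← h4, Complex.norm_real, Real.norm_of_nonneg (Finset.sum_nonneg fun n _ => by positivity)]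
    rw [h6]
    have hB2 : ∀ᵐ w ∂(ν.prod ν), w.1 ∈ B ∧ w.2 ∈ B :=
      (Measure.quasiMeasurePreserving_fst.ae hB).and (Measure.quasiMeasurePreserving_snd.ae hB)
    calc ‖∫ w : T × T, ES W m (w.1 - w.2) ∂(ν.prod ν)‖
        ≤ ∫ w : T × T, (η * W.card + S.indicator (fun _ => (W.card : ℝ)) w) ∂(ν.prod ν) := by
          refine norm_integral_le_of_norm_le ?_ ?_
          · exact (integrable_const _).add ((integrable_const _).indicator hSm)
          · filter_upwards [hB2] with w hw
            by_cases hwS : w ∈ S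
            · rw [indicator_of_mem hwS]
              have := norm_ES W m (w.1 - w.2)
              have h0 : 0 ≤ η * W.card := by positivity
              linarith
            · rw [indicator_of_notMem hwS, add_zero]
              have h7 : τ < ‖w.1 - w.2‖ := not_le.1 hwS
              exact hsum _ h7.le (hR _ hw.1 _ hw.2)
      _ = W.card * (η * ν.real univ ^ 2 + (ν.prod ν).real S) := by
          rw [integral_add (integrable_const _) ((integrable_const _).indicator hSm),
            integral_const, integral_indicator_const _ hSm]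
          have h8 : (ν.prod ν).real univ = ν.real univ ^ 2 := by
            rw [← univ_prod_univ, measureReal_prod_prod]; ring
          rw [h8, smul_eq_mul, smul_eq_mul]
          ring
  have h9 : (ν.prod ν).real S ≤ b * ν.real univ := by
    have h10 : (ν.prod ν) S = ∫⁻ y, ν (Prod.mk y ⁻¹' S) ∂ν := Measure.prod_apply hSm
    have h11 : ∀ y, Prod.mk y ⁻¹' S = closedBall y τ := by
      intro y
      ext y'
      rw [mem_preimage, hS, mem_ofPred_eq, mem_closedBall, dist_comm, dist_eq_norm]
    simp_rw [h11] at h10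
    have h12 : (ν.prod ν) S ≤ ENNReal.ofReal b * ν univ := by
      rw [h10]
      calc ∫⁻ y, ν (closedBall y τ) ∂ν ≤ ∫⁻ _, ENNReal.ofReal b ∂ν := by
            refine lintegral_mono_ae ?_
            filter_upwards [hsm] with y hy
            rw [measureReal_def] at hy
            exact (ENNReal.le_ofReal_iff_toReal_le (measure_ne_top _ _) hb).2 hy
        _ = _ := lintegral_const _
    rw [measureReal_def, measureReal_def]
    have h13 := ENNReal.toReal_mono (ENNReal.mul_ne_top ENNReal.ofReal_ne_top (measure_ne_top _ _)) h12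
    rwa [ENNReal.toReal_mul, ENNReal.toReal_ofReal hb] at h13
  rw [h1]
  calc ‖∑ n ∈ W, c n‖ ^ 2 ≤ W.card * ∑ n ∈ W, ‖c n‖ ^ 2 := h2
    _ ≤ W.card * (W.card * (η * ν.real univ ^ 2 + (ν.prod ν).real S)) := by gcongr
    _ ≤ W.card * (W.card * (η * ν.real univ ^ 2 + b * ν.real univ)) := by gcongr
    _ = _ := by ring

/-- local averages -/
lemma local_average (σ : Measure T) [IsFiniteMeasure σ] {h : T → ℂ} (hh : Continuous h) {C : ℝ}
    (hC : ∀ y, ‖h y‖ ≤ C) {r : ℝ} (hr : 0 < r) (hr1 : r ≤ 1) :
    (r : ℂ) * ∫ y, h y ∂σ = ∫ x, (∫ y in closedBall x (r / 2), h y ∂σ) ∂(volume : Measure T) := by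
  set S : Set (T × T) := {w | dist w.2 w.1 ≤ r / 2} with hS
  have hSm : MeasurableSet S := by
    have : IsClosed S := isClosed_le (by fun_prop) continuous_const
    exact this.measurableSet
  have hmeas : AEStronglyMeasurable (S.indicator fun w : T × T => h w.2)
      ((volume : Measure T).prod σ) :=
    ((hh.comp continuous_snd).aestronglyMeasurable).indicator hSm
  have hint : Integrable (S.indicator fun w : T × T => h w.2) ((volume : Measure T).prod σ) := by
    refine Integrable.of_bound hmeas C (Eventually.of_forall fun w => ?_)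
    have h0 : 0 ≤ C := (norm_nonneg _).trans (hC 0)
    by_cases hw : w ∈ S
    · rw [indicator_of_mem hw]; exact hC _
    · rw [indicator_of_notMem hw, norm_zero]; exact h0
  have hswap := integral_integral_swap (f := fun (x : T) (y : T) => S.indicator (fun w => h w.2) (x, y))
    (μ := (volume : Measure T)) (ν := σ) (by exact hint)
  have e1 : ∀ x : T, ∫ y, S.indicator (fun w => h w.2) (x, y) ∂σ =
      ∫ y in closedBall x (r / 2), h y ∂σ := by
    intro x
    rw [← integral_indicator measurableSet_closedBall]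
    refine integral_congr_ae (Eventually.of_forall fun y => ?_)
    simp only
    by_cases hy : y ∈ closedBall x (r / 2)
    · rw [indicator_of_mem hy, indicator_of_mem (show (x, y) ∈ S from mem_closedBall.1 hy)]
    · rw [indicator_of_notMem hy, indicator_of_notMem (show (x, y) ∉ S from fun hc =>
        hy (mem_closedBall.2 hc))]
  have e2 : ∀ y : T, ∫ x, S.indicator (fun w => h w.2) (x, y) ∂(volume : Measure T) =
      (r : ℂ) * h y := by
    intro y
    have e3 : (fun x : T => S.indicator (fun w => h w.2) (x, y)) =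
        (closedBall y (r / 2)).indicator fun _ => h y := by
      funext x
      by_cases hx : x ∈ closedBall y (r / 2)
      · rw [indicator_of_mem hx, indicator_of_mem (show (x, y) ∈ S by
          show dist y x ≤ r / 2
          rw [dist_comm]; exact mem_closedBall.1 hx)]
      · rw [indicator_of_notMem hx, indicator_of_notMem (show (x, y) ∉ S from fun hc => by
          apply hx
          rw [mem_closedBall, dist_comm]; exact hc)]
    rw [e3, integral_indicator_const _ measurableSet_closedBall, measureReal_def,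
      AddCircle.volume_closedBall, show 2 * (r / 2) = r by ring, min_eq_right hr1,
      ENNReal.toReal_ofReal hr.le]
    exact Complex.real_smul
  simp_rw [e1, e2] at hswap
  rw [hswap, integral_const_mul]

/-- **The local estimate.** -/
theorem local_bound (μ : Measure T) [IsProbabilityMeasure μ] {E : Set T} (hE : MeasurableSet E)
    (W : Finset ℕ) (m : ℤ) {τ r η δ : ℝ} (hr : 0 < r) (hr1 : r ≤ 1) (hη : 0 ≤ η) (hδ : 0 ≤ δ)
    (hsum : ∀ z : T, τ ≤ ‖z‖ → ‖z‖ ≤ r → ‖ES W m z‖ ≤ η * W.card)
    (hEδ : ∀ x ∈ E, μ.real (closedBall x τ) ≤ δ * μ.real (closedBall x r)) :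
    ‖∫ y in E, ES W m y ∂μ‖ ≤ 3 * √(η + δ) * W.card := by
  set σ := μ.restrict E with hσ
  set Mx : T → ℝ := fun x => μ.real (closedBall x (3 * r / 2)) with hMx
  have hle : ∀ F : Set T, σ.real F ≤ μ.real F := fun F => by
    rw [measureReal_def, measureReal_def]
    exact ENNReal.toReal_mono (measure_ne_top _ _) (Measure.restrict_apply_le _ _)
  have h1 : ∀ x : T, ‖∫ y in closedBall x (r / 2), ES W m y ∂σ‖ ≤ √(η + δ) * W.card * Mx x := by
    intro x
    have hM0 : 0 ≤ Mx x := measureReal_nonneg
    have hν : (σ.restrict (closedBall x (r / 2))).real univ ≤ Mx x := by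
      rw [measureReal_restrict_apply_univ]
      refine (hle _).trans ?_
      rw [hMx]
      exact measureReal_mono (Metric.closedBall_subset_closedBall (by linarith))
    have hν0 : 0 ≤ (σ.restrict (closedBall x (r / 2))).real univ := measureReal_nonneg
    have h2 := second_moment W m (σ.restrict (closedBall x (r / 2))) (τ := τ) (R := r) (η := η)
      (b := δ * Mx x) hη (by positivity) (B := closedBall x (r / 2))
      (ae_restrict_mem measurableSet_closedBall) (by
        intro y hy y' hy'
        rw [mem_closedBall, dist_eq_norm] at hy hy'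
        have := norm_sub_le (y - x) (y' - x)
        rw [sub_sub_sub_cancel_right] at this
        linarith) hsum (by
        have hE' : ∀ᵐ y ∂(σ.restrict (closedBall x (r / 2))), y ∈ E :=
          ae_restrict_of_ae (ae_restrict_mem hE)
        filter_upwards [hE', ae_restrict_mem measurableSet_closedBall] with y hyE hy
        rw [mem_closedBall] at hy
        calc (σ.restrict (closedBall x (r / 2))).real (closedBall y τ) ≤ σ.real (closedBall y τ) := by
              rw [measureReal_def, measureReal_def]
              exact ENNReal.toReal_mono (measure_ne_top _ _) (Measure.restrict_apply_le _ _)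
          _ ≤ μ.real (closedBall y τ) := hle _
          _ ≤ δ * μ.real (closedBall y r) := hEδ y hyE
          _ ≤ δ * Mx x := by
            refine mul_le_mul_of_nonneg_left ?_ hδ
            rw [hMx]
            refine measureReal_mono (Metric.closedBall_subset_closedBall' ?_)
            linarith)
    refine le_of_sq_le_sq (h2.trans ?_) (by positivity)
    rw [mul_pow, mul_pow, Real.sq_sqrt (by positivity)]
    have h3 : η * (σ.restrict (closedBall x (r / 2))).real univ ^ 2 +
        δ * Mx x * (σ.restrict (closedBall x (r / 2))).real univ ≤ (η + δ) * Mx x ^ 2 := by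
      calc _ ≤ η * Mx x ^ 2 + δ * Mx x * Mx x := by gcongr
        _ = _ := by ring
    calc _ ≤ (W.card : ℝ) ^ 2 * ((η + δ) * Mx x ^ 2) := by gcongr
      _ = _ := by ring
  have h4 := local_average σ (continuous_ES W m) (norm_ES W m) hr hr1
  have hMint : Integrable Mx (volume : Measure T) := by
    refine Integrable.of_bound ?_ 1 (Eventually.of_forall fun x => ?_)
    · rw [hMx]
      have := (measurable_ball μ (3 * r / 2)).ennreal_toReal
      exact this.aestronglyMeasurable
    · rw [Real.norm_of_nonneg measureReal_nonneg]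
      exact measureReal_le_one
  have h5 : ∫ x, Mx x ∂(volume : Measure T) ≤ 3 * r := by
    have e1 : ∫ x, Mx x ∂(volume : Measure T) =
        (∫⁻ x, μ (closedBall x (3 * r / 2)) ∂(volume : Measure T)).toReal := by
      rw [← integral_toReal (measurable_ball μ _).aemeasurable
        (Eventually.of_forall fun x => measure_lt_top _ _)]
      rfl
    rw [e1, swap_ball]
    have e2 : ∫⁻ y, (volume : Measure T) (closedBall y (3 * r / 2)) ∂μ ≤ ENNReal.ofReal (3 * r) := by
      calc _ ≤ ∫⁻ _, ENNReal.ofReal (3 * r) ∂μ := by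
            refine lintegral_mono fun y => ?_
            rw [AddCircle.volume_closedBall, show 2 * (3 * r / 2) = 3 * r by ring]
            exact ENNReal.ofReal_le_ofReal (min_le_right _ _)
        _ = _ := by rw [lintegral_const, measure_univ, mul_one]
    have := ENNReal.toReal_mono ENNReal.ofReal_ne_top e2
    rwa [ENNReal.toReal_ofReal (by positivity)] at this
  have h6 : r * ‖∫ y, ES W m y ∂σ‖ ≤ √(η + δ) * W.card * (3 * r) := by
    calc r * ‖∫ y, ES W m y ∂σ‖ = ‖(r : ℂ) * ∫ y, ES W m y ∂σ‖ := by
          rw [norm_mul, Complex.norm_real, Real.norm_of_nonneg hr.le]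
      _ = ‖∫ x, (∫ y in closedBall x (r / 2), ES W m y ∂σ) ∂(volume : Measure T)‖ := by rw [h4]
      _ ≤ ∫ x, √(η + δ) * W.card * Mx x ∂(volume : Measure T) :=
          norm_integral_le_of_norm_le (hMint.const_mul _) (Eventually.of_forall h1)
      _ = √(η + δ) * W.card * ∫ x, Mx x ∂(volume : Measure T) := integral_const_mul _ _
      _ ≤ _ := by gcongr
  have h7 : r * ‖∫ y, ES W m y ∂σ‖ ≤ r * (3 * √(η + δ) * W.card) := by
    refine h6.trans (le_of_eq ?_); ring
  exact le_of_mul_le_mul_left h7 hr

end Pool.Agent.H806.Gap
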