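import Pool.Agent.H806_Gap.Sum
import Pool.Agent.W764.SH.Comp

/-!
Exponential sums over the lattice points of a slab.
-/

set_option autoImplicit false

open Finset Filter Topology

namespace Pool.Agent.H806.Gap

open Pool.Agent.H469R2.NK (e norm_e)
open Pool.Agent.W764.SH (slab slab_finite cnt slab_mono cnt_mono compare growth)

/-- the linear form -/
def ell (α β : ℝ) (u : ℕ × ℕ) : ℝ := u.1 * α + u.2 * β

/-- the points of the slab, as a finite set -/
noncomputable def slabF {α β : ℝ} (hα : 0 < α) (hβ : 0 < β) (x L : ℝ) : Finset (ℕ × ℕ) :=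
  (slab_finite hα hβ x L).toFinset

lemma mem_slabF {α β : ℝ} {hα : 0 < α} {hβ : 0 < β} {x L : ℝ} {u : ℕ × ℕ} :
    u ∈ slabF hα hβ x L ↔ x ≤ ell α β u ∧ ell α β u < x + L := by
  unfold slabF
  rw [Set.Finite.mem_toFinset]
  exact Iff.rfl

lemma card_slabF {α β : ℝ} (hα : 0 < α) (hβ : 0 < β) (x L : ℝ) :
    (slabF hα hβ x L).card = cnt α β x L := by
  unfold cnt slabF
  rw [Set.ncard_eq_toFinset_card _ (slab_finite hα hβ x L)]

/-- the points of a slab near the axes -/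
lemma near_axes' {α β : ℝ} (hα : 0 < α) (hβ : 0 < β) (M : ℕ) (x δ : ℝ) :
    {u ∈ slab α β x δ | u.1 < M ∨ u.2 < M}.ncard ≤
      M * (⌈δ / β⌉₊ + 1) + M * (⌈δ / α⌉₊ + 1) := by
  have hfib : ∀ (γ : ℝ), 0 < γ → ∀ y : ℝ,
      {b : ℕ | y ≤ b * γ ∧ b * γ < y + δ}.ncard ≤ ⌈δ / γ⌉₊ + 1 := by
    intro γ hγ y
    have hsub : {b : ℕ | y ≤ b * γ ∧ b * γ < y + δ} ⊆
        (Finset.Ico ⌈y / γ⌉₊ (⌈y / γ⌉₊ + (⌈δ / γ⌉₊ + 1)) : Set ℕ) := by
      rintro b ⟨hb1, hb2⟩
      rw [Finset.coe_Ico, Set.mem_Ico]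
      constructor
      · rw [Nat.ceil_le, div_le_iff₀ hγ]; exact hb1
      · have h1 : (b : ℝ) < y / γ + δ / γ := by
          rw [← add_div, lt_div_iff₀ hγ]; exact hb2
        have h2 : (b : ℝ) < (⌈y / γ⌉₊ : ℝ) + ⌈δ / γ⌉₊ :=
          h1.trans_le (add_le_add (Nat.le_ceil _) (Nat.le_ceil _))
        have h3 : b < ⌈y / γ⌉₊ + ⌈δ / γ⌉₊ := by exact_mod_cast h2
        omega
    refine (Set.ncard_le_ncard hsub (Finset.finite_toSet _)).trans ?_
    rw [Set.ncard_coe_finset, Nat.card_Ico]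
    omega
  have hsub : {u ∈ slab α β x δ | u.1 < M ∨ u.2 < M} ⊆
      (⋃ a ∈ Finset.range M, (fun b => (a, b)) '' {b : ℕ | x - a * α ≤ b * β ∧
        b * β < x - a * α + δ}) ∪
      (⋃ b ∈ Finset.range M, (fun a => (a, b)) '' {a : ℕ | x - b * β ≤ a * α ∧
        a * α < x - b * β + δ}) := by
    rintro ⟨a, b⟩ ⟨⟨h1, h2⟩, h3⟩
    simp only at h1 h2 h3
    rcases h3 with h3 | h3
    · left
      simp only [Set.mem_iUnion]
      exact ⟨a, Finset.mem_range.2 h3, b, ⟨by linarith, by linarith⟩, rfl⟩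
    · right
      simp only [Set.mem_iUnion]
      exact ⟨b, Finset.mem_range.2 h3, a, ⟨by linarith, by linarith⟩, rfl⟩
  have hfin1 : ∀ (γ : ℝ), 0 < γ → ∀ y : ℝ, {b : ℕ | y ≤ b * γ ∧ b * γ < y + δ}.Finite := by
    intro γ hγ y
    refine (Set.finite_Iio (⌈(y + δ) / γ⌉₊)).subset ?_
    rintro b ⟨-, hb⟩
    rw [Set.mem_Iio, Nat.lt_ceil, lt_div_iff₀ hγ]
    exact hb
  refine (Set.ncard_le_ncard hsub ?_).trans ?_
  · refine Set.Finite.union ?_ ?_
    · exact (Finset.range M).finite_toSet.biUnion fun a _ => (hfin1 β hβ _).image _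
    · exact (Finset.range M).finite_toSet.biUnion fun b _ => (hfin1 α hα _).image _
  · refine (Set.ncard_union_le _ _).trans (add_le_add ?_ ?_)
    · refine (Finset.set_ncard_biUnion_le _ _).trans ?_
      refine (Finset.sum_le_card_nsmul _ _ (⌈δ / β⌉₊ + 1) fun a _ => ?_).trans ?_
      · exact (Set.ncard_image_le (hfin1 β hβ _)).trans (hfib β hβ _)
      · rw [Finset.card_range, smul_eq_mul]
    · refine (Finset.set_ncard_biUnion_le _ _).trans ?_
      refine (Finset.sum_le_card_nsmul _ _ (⌈δ / α⌉₊ + 1) fun a _ => ?_).trans ?_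
      · exact (Set.ncard_image_le (hfin1 α hα _)).trans (hfib α hα _)
      · rw [Finset.card_range, smul_eq_mul]

/-- **Shifting a sum over a slab.** -/
lemma shift_slab {α β : ℝ} (hα : 0 < α) (hβ : 0 < β) {x L : ℝ} (f : ℝ → ℂ) (hf : ∀ t, ‖f t‖ ≤ 1)
    (v : ℤ × ℤ) {δ : ℝ} (hv : (v.1 : ℝ) * α + v.2 * β = δ) (hδ : 0 ≤ δ) (b N : ℕ)
    (h1 : b * v.1.natAbs ≤ N) (h2 : b * v.2.natAbs ≤ N) (hbδ : b * δ ≤ 1) :
    ‖∑ u ∈ slabF hα hβ x L, f (ell α β u) - ∑ u ∈ slabF hα hβ x L, f (ell α β u + b * δ)‖ ≤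
      2 * ((slabF hα hβ x L).filter fun u => (u.1 < N ∨ u.2 < N) ∨ x + L - 1 ≤ ell α β u).card := by
  classical
  set S := slabF hα hβ x L with hS
  set Bad := S.filter fun u => (u.1 < N ∨ u.2 < N) ∨ x + L - 1 ≤ ell α β u with hBad
  set G := S.filter fun u => ¬ ((u.1 < N ∨ u.2 < N) ∨ x + L - 1 ≤ ell α β u) with hG
  set φ : ℕ × ℕ → ℕ × ℕ := fun u =>
    (((u.1 : ℤ) + b * v.1).toNat, ((u.2 : ℤ) + b * v.2).toNat) with hφ
  have hGN : ∀ u ∈ G, N ≤ u.1 ∧ N ≤ u.2 ∧ ell α β u < x + L - 1 ∧ x ≤ ell α β u := by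
    intro u hu
    rw [hG, mem_filter, hS, mem_slabF] at hu
    push Not at hu
    exact ⟨hu.2.1.1, hu.2.1.2, hu.2.2, hu.1.1⟩
  have hval : ∀ u ∈ G, (((φ u).1 : ℕ) : ℤ) = (u.1 : ℤ) + b * v.1 ∧
      (((φ u).2 : ℕ) : ℤ) = (u.2 : ℤ) + b * v.2 := by
    intro u hu
    obtain ⟨h3, h4, -, -⟩ := hGN u hu
    have h5 : -((b * v.1.natAbs : ℕ) : ℤ) ≤ b * v.1 := by
      push_cast
      have h6 : -|v.1| ≤ v.1 := neg_abs_le v.1
      have : (0 : ℤ) ≤ b := Nat.cast_nonneg b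
      nlinarith
    have h5' : -((b * v.2.natAbs : ℕ) : ℤ) ≤ b * v.2 := by
      push_cast
      have h6 : -|v.2| ≤ v.2 := neg_abs_le v.2
      have : (0 : ℤ) ≤ b := Nat.cast_nonneg b
      nlinarith
    have h7 : ((b * v.1.natAbs : ℕ) : ℤ) ≤ N := by exact_mod_cast h1
    have h8 : ((b * v.2.natAbs : ℕ) : ℤ) ≤ N := by exact_mod_cast h2
    have h9 : (N : ℤ) ≤ u.1 := by exact_mod_cast h3
    have h10 : (N : ℤ) ≤ u.2 := by exact_mod_cast h4
    simp only [hφ]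
    exact ⟨Int.toNat_of_nonneg (by linarith), Int.toNat_of_nonneg (by linarith)⟩
  have hell : ∀ u ∈ G, ell α β (φ u) = ell α β u + b * δ := by
    intro u hu
    obtain ⟨h3, h4⟩ := hval u hu
    have h3' : (((φ u).1 : ℕ) : ℝ) = (u.1 : ℝ) + b * v.1 := by exact_mod_cast h3
    have h4' : (((φ u).2 : ℕ) : ℝ) = (u.2 : ℝ) + b * v.2 := by exact_mod_cast h4
    unfold ell
    rw [h3', h4', ← hv]
    ring
  have hinj : Set.InjOn φ (G : Set (ℕ × ℕ)) := by
    intro u hu w hw huw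
    obtain ⟨h3, h4⟩ := hval u hu
    obtain ⟨h5, h6⟩ := hval w hw
    rw [huw] at h3 h4
    exact Prod.ext (by omega) (by omega)
  have hsub : G.image φ ⊆ S := by
    intro w hw
    rw [mem_image] at hw
    obtain ⟨u, hu, rfl⟩ := hw
    obtain ⟨-, -, h5, h6⟩ := hGN u hu
    rw [hS, mem_slabF, hell u hu]
    constructor
    · have : 0 ≤ b * δ := by positivity
      linarith
    · linarith
  have hcardG : G.card + Bad.card = S.card := by
    rw [add_comm, hBad, hG]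
    exact card_filter_add_card_filter_not _
  have e1 : ∑ u ∈ S, f (ell α β u + b * δ) =
      ∑ u ∈ G.image φ, f (ell α β u) + ∑ u ∈ Bad, f (ell α β u + b * δ) := by
    rw [sum_image hinj]
    have e0 : ∑ u ∈ G, f (ell α β (φ u)) = ∑ u ∈ G, f (ell α β u + b * δ) :=
      sum_congr rfl fun u hu => by rw [hell u hu]
    rw [e0, hBad, hG, add_comm, sum_filter_add_sum_filter_not]
  have e2 : ∑ u ∈ S, f (ell α β u) = ∑ u ∈ S \ G.image φ, f (ell α β u) +
      ∑ u ∈ G.image φ, f (ell α β u) := (sum_sdiff hsub).symm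
  rw [e1, e2]
  have e3 : ∑ u ∈ S \ G.image φ, f (ell α β u) + ∑ u ∈ G.image φ, f (ell α β u) -
      (∑ u ∈ G.image φ, f (ell α β u) + ∑ u ∈ Bad, f (ell α β u + b * δ)) =
      ∑ u ∈ S \ G.image φ, f (ell α β u) - ∑ u ∈ Bad, f (ell α β u + b * δ) := by ring
  rw [e3]
  have hn : ∀ (A : Finset (ℕ × ℕ)) (h : ℕ × ℕ → ℂ), (∀ u, ‖h u‖ ≤ 1) → ‖∑ u ∈ A, h u‖ ≤ A.card := by
    intro A h hh
    refine (norm_sum_le _ _).trans ?_
    refine (sum_le_card_nsmul _ _ 1 fun u _ => hh u).trans ?_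
    simp
  have hc : (S \ G.image φ).card = Bad.card := by
    rw [card_sdiff_of_subset hsub, card_image_of_injOn hinj]
    omega
  calc _ ≤ ‖∑ u ∈ S \ G.image φ, f (ell α β u)‖ + ‖∑ u ∈ Bad, f (ell α β u + b * δ)‖ :=
        norm_sub_le _ _
    _ ≤ (S \ G.image φ).card + Bad.card :=
        add_le_add (hn _ _ fun u => hf _) (hn _ _ fun u => hf _)
    _ = 2 * Bad.card := by rw [hc]; ring

/-- the Diophantine hypothesis: small values of the linear form, of size between `1 / g` and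
`(Q + Q') / √x` -/
def Dio (α β : ℝ) (g : ℝ → ℝ) : Prop :=
  ∀ᶠ x in atTop, ∃ Q Q' : ℕ, 0 < |(Q : ℝ) * α - Q' * β| ∧ |(Q : ℝ) * α - Q' * β| * g x ≤ 1 ∧
    (Q : ℝ) + Q' ≤ |(Q : ℝ) * α - Q' * β| * √x

/-- One slab. -/
lemma slab_one {α β : ℝ} (hα : 0 < α) (hβ : 0 < β) {x L : ℝ} {y D δ ε : ℝ} (hε : 0 < ε)
    (hδ : 0 < δ)
    (hδ1 : δ ≤ 1 / 2) (v : ℤ × ℤ) (hv : (v.1 : ℝ) * α + v.2 * β = δ) {N : ℕ}
    (hN1 : (v.1.natAbs : ℝ) ≤ δ * N) (hN2 : (v.2.natAbs : ℝ) ≤ δ * N)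
    (hS : ∀ t : ℝ, D ≤ t → t < L → ∀ B : ℕ, B * δ ≤ 1 →
      ‖SS (y * Real.exp t) δ B‖ ≤ ε / δ) :
    ‖∑ u ∈ slabF hα hβ x L, e (y * Real.exp (ell α β u - x))‖ ≤
      2 * ε * (slabF hα hβ x L).card + (cnt α β x D +
      2 * ((slabF hα hβ x L).filter fun u => (u.1 < N ∨ u.2 < N) ∨ x + L - 1 ≤ ell α β u).card) := by
  classical
  set S := slabF hα hβ x L with hSd
  set Bad := S.filter fun u => (u.1 < N ∨ u.2 < N) ∨ x + L - 1 ≤ ell α β u with hBad
  set f : ℝ → ℂ := fun t => e (y * Real.exp (t - x)) with hf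
  set B : ℕ := ⌊1 / δ⌋₊ with hB
  have hBle : (B : ℝ) ≤ 1 / δ := Nat.floor_le (by positivity)
  have hBδ : B * δ ≤ 1 := by rwa [le_div_iff₀ hδ] at hBle
  have hBge : 1 / δ ≤ 2 * B := by
    have h1 : 1 / δ < B + 1 := Nat.lt_floor_add_one _
    have h2 : 2 ≤ 1 / δ := by rw [le_div_iff₀ hδ]; linarith
    linarith
  have hB0 : (0 : ℝ) < B := by
    have : 0 < 1 / δ := by positivity
    linarith
  -- shifting
  have h1 : ∀ b ∈ range B, ‖∑ u ∈ S, f (ell α β u) - ∑ u ∈ S, f (ell α β u + b * δ)‖ ≤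
      2 * Bad.card := by
    intro b hb
    rw [mem_range] at hb
    have hbB : (b : ℝ) ≤ B := by exact_mod_cast hb.le
    have hbδ : b * δ ≤ 1 := (by gcongr : (b : ℝ) * δ ≤ B * δ).trans hBδ
    refine shift_slab hα hβ f (fun t => (norm_e _).le) v hv hδ.le b N ?_ ?_ hbδ
    · have : ((b * v.1.natAbs : ℕ) : ℝ) ≤ N := by
        push_cast
        calc (b : ℝ) * (v.1.natAbs : ℝ) ≤ b * (δ * N) := by gcongr
          _ = (b * δ) * N := by ring
          _ ≤ 1 * N := by gcongr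
          _ = N := one_mul _
      exact_mod_cast this
    · have : ((b * v.2.natAbs : ℕ) : ℝ) ≤ N := by
        push_cast
        calc (b : ℝ) * (v.2.natAbs : ℝ) ≤ b * (δ * N) := by gcongr
          _ = (b * δ) * N := by ring
          _ ≤ 1 * N := by gcongr
          _ = N := one_mul _
      exact_mod_cast this
  have h2 : ‖(B : ℂ) * ∑ u ∈ S, f (ell α β u) - ∑ b ∈ range B, ∑ u ∈ S, f (ell α β u + b * δ)‖ ≤
      B * (2 * Bad.card) := by
    have e1 : (B : ℂ) * ∑ u ∈ S, f (ell α β u) = ∑ b ∈ range B, ∑ u ∈ S, f (ell α β u) := by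
      rw [sum_const, card_range, nsmul_eq_mul]
    rw [e1, ← sum_sub_distrib]
    refine (norm_sum_le _ _).trans ((sum_le_card_nsmul _ _ _ h1).trans ?_)
    rw [card_range, nsmul_eq_mul]
  -- inner sums
  have h3 : ∑ b ∈ range B, ∑ u ∈ S, f (ell α β u + b * δ) =
      ∑ u ∈ S, SS (y * Real.exp (ell α β u - x)) δ B := by
    rw [sum_comm]
    refine sum_congr rfl fun u _ => ?_
    unfold SS
    refine sum_congr rfl fun b _ => ?_
    simp only [hf]
    congr 1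
    rw [mul_assoc, ← Real.exp_add]
    congr 2
    ring
  have h4 : ‖∑ u ∈ S, SS (y * Real.exp (ell α β u - x)) δ B‖ ≤
      cnt α β x D * B + S.card * (ε / δ) := by
    have hle : ∀ u ∈ S, ‖SS (y * Real.exp (ell α β u - x)) δ B‖ ≤
        (if ell α β u < x + D then (B : ℝ) else 0) + (if x + D ≤ ell α β u then ε / δ else 0) := by
      intro u hu
      rw [hSd, mem_slabF] at hu
      rcases lt_or_ge (ell α β u) (x + D) with h | h
      · rw [if_pos h, if_neg (not_le.2 h), add_zero]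
        exact SS_triv _ _ _
      · rw [if_neg (not_lt.2 h), if_pos h, zero_add]
        exact hS _ (by linarith) (by linarith) B hBδ
    refine (norm_sum_le _ _).trans ((sum_le_sum hle).trans ?_)
    rw [sum_add_distrib]
    refine add_le_add ?_ ?_
    · rw [← sum_filter, sum_const, nsmul_eq_mul]
      gcongr
      rw [← card_slabF hα hβ]
      refine card_le_card fun u hu => ?_
      rw [mem_filter, hSd, mem_slabF] at hu
      rw [mem_slabF]
      exact ⟨hu.1.1, hu.2⟩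
    · refine (sum_le_card_nsmul _ _ (ε / δ) fun u _ => ?_).trans (by rw [nsmul_eq_mul])
      split_ifs
      · exact le_rfl
      · positivity
  have h5 : ‖(B : ℂ) * ∑ u ∈ S, f (ell α β u)‖ ≤
      (cnt α β x D * B + S.card * (ε / δ)) + B * (2 * Bad.card) := by
    rw [h3] at h2
    calc ‖(B : ℂ) * ∑ u ∈ S, f (ell α β u)‖ = ‖(∑ u ∈ S, SS (y * Real.exp (ell α β u - x)) δ B) +
          ((B : ℂ) * ∑ u ∈ S, f (ell α β u) -
            ∑ u ∈ S, SS (y * Real.exp (ell α β u - x)) δ B)‖ := by congr 1; ring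
      _ ≤ _ := norm_add_le _ _
      _ ≤ _ := add_le_add h4 h2
  rw [norm_mul, Complex.norm_natCast] at h5
  have h6 : (S.card : ℝ) * (ε / δ) ≤ B * (2 * ε * S.card) := by
    calc (S.card : ℝ) * (ε / δ) = S.card * ε * (1 / δ) := by ring
      _ ≤ S.card * ε * (2 * B) := by gcongr
      _ = _ := by ring
  have h7 : (B : ℝ) * ‖∑ u ∈ S, f (ell α β u)‖ ≤
      B * (2 * ε * S.card + (cnt α β x D + 2 * Bad.card)) := by
    refine h5.trans ?_
    linarith
  exact le_of_mul_le_mul_left h7 hB0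

/-- **Exponential sums over a slab.** -/
theorem slab_sum {α β : ℝ} (hα : 0 < α) (hβ : 0 < β) (hirr : Irrational (α / β)) {g : ℝ → ℝ}
    (hg : Tendsto g atTop atTop) (hdio : Dio α β g) (A : ℕ) {M : ℝ} (hM : 1 ≤ M) {ε : ℝ}
    (hε : 0 < ε) : ∃ L0 : ℝ, ∀ L : ℝ, L0 ≤ L → ∀ᶠ x in atTop, ∀ y : ℝ, 1 ≤ y →
      y ≤ M * g x ^ A → ‖∑ u ∈ slabF hα hβ x L, e (y * Real.exp (ell α β u - x))‖ ≤
        ε * cnt α β x L := by
  classical
  obtain ⟨Y0, δ0, c, hY0, hδ0, hδ01, hc, hS⟩ := SS_small (A + 1) (by omega) (Λ := 1) le_rfl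
    (ε := ε / 8) (by positivity)
  set D : ℝ := max 1 (Real.log Y0) with hD
  have hD1 : 1 ≤ D := le_max_left _ _
  have hY0D : Y0 ≤ Real.exp D := by
    rw [← Real.log_le_iff_le_exp (by linarith)]
    exact le_max_right _ _
  obtain ⟨J, hJ⟩ := exists_nat_ge (24 / ε)
  have hJ0 : (0 : ℝ) < J := lt_of_lt_of_le (by positivity) hJ
  have hJ1 : 1 ≤ J := by exact_mod_cast hJ0
  refine ⟨2 * J * D, fun L hL => ?_⟩
  have hL0 : 0 < L := lt_of_lt_of_le (by positivity) hL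
  have hLD : D ≤ L / (2 * J) := by
    rw [le_div_iff₀ (by positivity)]; linarith
  have hLD' : D ≤ L := hLD.trans (div_le_self hL0.le (by
    have : (1 : ℝ) ≤ J := by exact_mod_cast hJ1
    linarith))
  obtain ⟨M1, hM1⟩ := compare hα hβ hirr (L := L) (R := L) hL0 hJ1
  obtain ⟨cg, Mg, hcg, hgrow⟩ := growth hα hβ hirr hL0
  set CL : ℝ := ((⌈L / β⌉₊ + 1 : ℕ) : ℝ) + ((⌈L / α⌉₊ + 1 : ℕ) : ℝ) with hCL
  have hCL0 : 0 < CL := by positivity
  have hthin : ∀ x x' : ℝ, |x - x'| ≤ L → (J : ℝ) * cnt α β x' D ≤ cnt α β x L + M1 := by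
    intro x x' hxx
    have h1 := hM1 x' x hxx
    have h2 : cnt α β x' D ≤ cnt α β x' (L / (2 * J)) := cnt_mono hα hβ le_rfl (by linarith)
    calc (J : ℝ) * cnt α β x' D ≤ J * cnt α β x' (L / (2 * J)) := by
          gcongr
      _ ≤ cnt α β x L + M1 := by exact_mod_cast h1
  have hbig : ∀ᶠ x in atTop, max (M1 : ℝ) (16 / ε * (√x + 1) * CL) ≤ cnt α β x L := by
    have h1 : ∀ᶠ x : ℝ in atTop, max (M1 : ℝ) (16 / ε * (√x + 1) * CL) ≤ cg * x - Mg := by
      have h2 : Tendsto (fun x : ℝ => cg * x - Mg) atTop atTop :=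
        tendsto_atTop_add_const_right _ _ (tendsto_id.const_mul_atTop hcg)
      have h3 : ∀ᶠ x : ℝ in atTop, 16 / ε * (√x + 1) * CL ≤ cg * x - Mg := by
        set a : ℝ := 16 / ε * CL with ha
        have ha0 : 0 < a := by positivity
        have h4 : ∀ᶠ x : ℝ in atTop, 2 * a / cg ≤ √x :=
          Real.tendsto_sqrt_atTop.eventually_ge_atTop _
        have h5 : ∀ᶠ x : ℝ in atTop, 2 * (a + Mg) / cg ≤ x := eventually_ge_atTop _
        filter_upwards [h4, h5, eventually_ge_atTop 0] with x h6 h7 h8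
        rw [div_le_iff₀ hcg] at h6 h7
        have h9 : √x * √x = x := Real.mul_self_sqrt h8
        have h10 : 0 ≤ √x := Real.sqrt_nonneg x
        have e : 16 / ε * (√x + 1) * CL = a * √x + a := by rw [ha]; ring
        rw [e]
        nlinarith
      filter_upwards [h2.eventually_ge_atTop (M1 : ℝ), h3] with x h4 h5
      exact max_le h4 h5
    filter_upwards [h1, eventually_ge_atTop 0] with x h2 h3
    exact h2.trans (hgrow x h3)
  have hglarge : ∀ᶠ x in atTop, max (max 2 (1 / δ0)) (M * Real.exp L / c) ≤ g x :=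
    hg.eventually_ge_atTop _
  filter_upwards [hdio, hbig, hglarge, eventually_ge_atTop 1] with x hd hb hgx hx1
  intro y hy1 hy2
  obtain ⟨Q, Q', hQ0, hQg, hQQ⟩ := hd
  set δ : ℝ := |(Q : ℝ) * α - Q' * β| with hδ
  have hg2 : 2 ≤ g x := (le_max_left _ _).trans ((le_max_left _ _).trans hgx)
  have hg0 : 0 < g x := by linarith
  have hg3 : 1 / δ0 ≤ g x := (le_max_right _ _).trans ((le_max_left _ _).trans hgx)
  have hg4 : M * Real.exp L / c ≤ g x := (le_max_right _ _).trans hgx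
  have hδg : δ ≤ 1 / g x := by rwa [le_div_iff₀ hg0]
  have hδhalf : δ ≤ 1 / 2 := hδg.trans (by gcongr)
  have hδδ0 : δ ≤ δ0 := by
    refine hδg.trans ?_
    rw [div_le_iff₀ hδ0] at hg3
    rw [div_le_iff₀ hg0]
    linarith
  set N : ℕ := ⌈√x⌉₊ with hN
  have hNx : √x ≤ N := Nat.le_ceil _
  have hNx2 : (N : ℝ) ≤ √x + 1 := (Nat.ceil_lt_add_one (Real.sqrt_nonneg x)).le
  obtain ⟨v, hv, hv1, hv2⟩ : ∃ v : ℤ × ℤ, (v.1 : ℝ) * α + v.2 * β = δ ∧
      (v.1.natAbs : ℝ) ≤ δ * N ∧ (v.2.natAbs : ℝ) ≤ δ * N := by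
    have hle : ∀ k : ℕ, (k : ℝ) ≤ Q + Q' → (k : ℝ) ≤ δ * N := fun k hk =>
      (hk.trans hQQ).trans (by gcongr)
    have hQ'0 : (0 : ℝ) ≤ Q' := Nat.cast_nonneg _
    have hQ0' : (0 : ℝ) ≤ Q := Nat.cast_nonneg _
    rcases le_or_gt 0 ((Q : ℝ) * α - Q' * β) with h | h
    · refine ⟨((Q : ℤ), -(Q' : ℤ)), ?_, hle _ ?_, hle _ ?_⟩
      · rw [hδ, abs_of_nonneg h]; push_cast; ring
      · simp only [Int.natAbs_natCast]; linarith
      · simp only [Int.natAbs_neg, Int.natAbs_natCast]; linarith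
    · refine ⟨(-(Q : ℤ), (Q' : ℤ)), ?_, hle _ ?_, hle _ ?_⟩
      · rw [hδ, abs_of_neg h]; push_cast; ring
      · simp only [Int.natAbs_neg, Int.natAbs_natCast]; linarith
      · simp only [Int.natAbs_natCast]; linarith
  have hmain := slab_one hα hβ (x := x) (L := L) (y := y) (D := D) (δ := δ) (ε := ε / 8)
    (by positivity) hQ0 hδhalf v hv hv1 hv2 (by
      intro t ht1 ht2 B hB
      refine hS δ hQ0 hδδ0 _ ?_ ?_ B hB
      · calc Y0 ≤ 1 * Real.exp D := by rw [one_mul]; exact hY0D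
          _ ≤ y * Real.exp t := by gcongr
      · have h1 : δ ^ (A + 1) ≤ (1 / g x) ^ (A + 1) := by gcongr
        calc y * Real.exp t * δ ^ (A + 1) ≤ (M * g x ^ A) * Real.exp L * (1 / g x) ^ (A + 1) := by
              gcongr
          _ = M * Real.exp L / g x := by
              rw [one_div, pow_succ, inv_pow]
              field_simp
          _ ≤ c := by
              rw [div_le_iff₀ hc] at hg4
              rw [div_le_iff₀ hg0]
              linarith)
  refine hmain.trans ?_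
  rw [card_slabF hα hβ]
  set C : ℝ := (cnt α β x L : ℝ) with hCdef
  have hC0 : 0 ≤ C := Nat.cast_nonneg _
  have hb1 : (M1 : ℝ) ≤ C := (le_max_left _ _).trans hb
  have hb2 : 16 / ε * (√x + 1) * CL ≤ C := (le_max_right _ _).trans hb
  have ht1 : (J : ℝ) * cnt α β x D ≤ 2 * C := by
    have := hthin x x (by rw [sub_self, abs_zero]; exact hL0.le)
    linarith
  have ht2 : (J : ℝ) * cnt α β (x + L - D) D ≤ 2 * C := by
    have := hthin x (x + L - D) (by
      rw [show x - (x + L - D) = -(L - D) by ring, abs_neg, abs_of_nonneg (by linarith)]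
      linarith)
    linarith
  have hJε : ∀ k : ℝ, J * k ≤ 2 * C → k ≤ ε / 12 * C := by
    intro k hk
    have h1 : 24 ≤ ε * J := by
      rw [div_le_iff₀ hε] at hJ; linarith
    have h3 := mul_le_mul_of_nonneg_right h1 hC0
    have h2 : J * k ≤ J * (ε / 12 * C) := by
      have e : J * (ε / 12 * C) = ε * J * C / 12 := by ring
      rw [e]
      linarith
    exact le_of_mul_le_mul_left h2 hJ0
  have ht1' := hJε _ ht1
  have ht2' := hJε _ ht2
  have hBad : (((slabF hα hβ x L).filter fun u => (u.1 < N ∨ u.2 < N) ∨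
      x + L - 1 ≤ ell α β u).card : ℝ) ≤ N * CL + cnt α β (x + L - D) D := by
    have h1 : (slabF hα hβ x L).filter (fun u => (u.1 < N ∨ u.2 < N) ∨ x + L - 1 ≤ ell α β u) ⊆
        (slabF hα hβ x L).filter (fun u => u.1 < N ∨ u.2 < N) ∪ slabF hα hβ (x + L - D) D := by
      intro u hu
      rw [mem_filter] at hu
      rw [mem_union, mem_filter]
      rcases hu.2 with h | h
      · exact Or.inl ⟨hu.1, h⟩
      · right
        rw [mem_slabF] at hu ⊢
        exact ⟨by linarith, by linarith [hu.1.2]⟩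
    have h2 : ((slabF hα hβ x L).filter (fun u => u.1 < N ∨ u.2 < N)).card ≤
        N * (⌈L / β⌉₊ + 1) + N * (⌈L / α⌉₊ + 1) := by
      rw [← Set.ncard_coe_finset]
      refine le_trans (le_of_eq ?_) (near_axes' hα hβ N x L)
      congr 1
      ext u
      simp only [coe_filter, mem_slabF, Set.mem_setOf_eq]
      exact Iff.rfl
    have h3 := (card_le_card h1).trans (card_union_le _ _)
    rw [card_slabF hα hβ] at h3
    have h4 : (((slabF hα hβ x L).filter fun u => (u.1 < N ∨ u.2 < N) ∨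
      x + L - 1 ≤ ell α β u).card : ℝ) ≤
        ((N * (⌈L / β⌉₊ + 1) + N * (⌈L / α⌉₊ + 1) + cnt α β (x + L - D) D : ℕ) : ℝ) := by
      exact_mod_cast h3.trans (Nat.add_le_add_right h2 _)
    refine h4.trans (le_of_eq ?_)
    rw [hCL]
    push_cast
    ring
  have hNC : N * CL ≤ ε / 16 * C := by
    have h1 : (√x + 1) * CL ≤ ε / 16 * C := by
      calc (√x + 1) * CL = ε / 16 * (16 / ε * (√x + 1) * CL) := by field_simp
        _ ≤ ε / 16 * C := by gcongr
    exact (by gcongr : (N : ℝ) * CL ≤ (√x + 1) * CL).trans h1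
  have hεC : 0 ≤ ε * C := by positivity
  have e1 : ε / 12 * C = ε * C / 12 := by ring
  have e2 : ε / 16 * C = ε * C / 16 := by ring
  have e3 : 2 * (ε / 8) * C = ε * C / 4 := by ring
  rw [e1] at ht1' ht2'
  rw [e2] at hNC
  rw [e3]
  linarith

end Pool.Agent.H806.Gap
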