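import Pool.Agent.H469R2.NK.Vdc

/-!
Exponential sums with the phases `Y exp (b δ)`.
-/

set_option autoImplicit false

open Finset

namespace Pool.Agent.H806.Gap

open Pool.Agent.H469R2.NK (e norm_e e_add conj_e e_zero kusmin_landau_mono vdcH)

/-- the sums over `b < B` of `e (Y exp (b δ))` -/
noncomputable def SS (Y δ : ℝ) (B : ℕ) : ℂ := ∑ b ∈ range B, e (Y * Real.exp (b * δ))

lemma SS_triv (Y δ : ℝ) (B : ℕ) : ‖SS Y δ B‖ ≤ B := by
  unfold SS
  refine (norm_sum_le _ _).trans ?_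
  simp [norm_e]

lemma exp_sub_one_le {x : ℝ} (h0 : 0 ≤ x) (h1 : x ≤ 1) : Real.exp x - 1 ≤ 2 * x := by
  have h2 := Real.abs_exp_sub_one_le (x := x) (by rwa [abs_of_nonneg h0])
  rw [abs_of_nonneg h0] at h2
  exact (le_abs_self _).trans h2

lemma le_exp_sub_one (x : ℝ) : x ≤ Real.exp x - 1 := by
  have := Real.add_one_le_exp x
  linarith

/-- The first derivative range. -/
lemma SS_first {Y δ Λ : ℝ} (hY : 0 < Y) (hδ : 0 < δ) (hδ1 : δ ≤ 1)
    (h : 4 * (Y * δ) * Real.exp Λ ≤ 1) {B : ℕ} (hB : B * δ ≤ Λ) :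
    ‖SS Y δ B‖ ≤ 2 / (Y * δ) := by
  have hYδΛ : 0 < Y * δ := by positivity
  have hd : ∀ n : ℕ, Y * Real.exp ((n + 1 : ℕ) * δ) - Y * Real.exp (n * δ) =
      Y * Real.exp (n * δ) * (Real.exp δ - 1) := by
    intro n
    have : (((n + 1 : ℕ) : ℝ)) * δ = n * δ + δ := by push_cast; ring
    rw [this, Real.exp_add]; ring
  have h2 := exp_sub_one_le hδ.le hδ1
  have h3 := le_exp_sub_one δ
  have hup : ∀ n < B, Y * Real.exp ((n + 1 : ℕ) * δ) - Y * Real.exp (n * δ) ≤ 1 / 2 := by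
    intro n hn
    rw [hd]
    have h4 : (n : ℝ) * δ ≤ Λ := by
      have : (n : ℝ) ≤ B := by exact_mod_cast hn.le
      exact (by gcongr : (n : ℝ) * δ ≤ B * δ).trans hB
    have h5 : Real.exp (n * δ) ≤ Real.exp Λ := Real.exp_le_exp.2 h4
    have h6 : 0 ≤ Real.exp δ - 1 := by linarith
    calc Y * Real.exp (n * δ) * (Real.exp δ - 1) ≤ Y * Real.exp Λ * (2 * δ) := by gcongr
      _ ≤ 1 / 2 := by nlinarith
  have hlow : ∀ n : ℕ, Y * δ ≤ Y * Real.exp ((n + 1 : ℕ) * δ) - Y * Real.exp (n * δ) := by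
    intro n
    rw [hd]
    have h5 : 1 ≤ Real.exp (n * δ) := Real.one_le_exp (by positivity)
    calc Y * δ = Y * 1 * δ := by ring
      _ ≤ Y * Real.exp (n * δ) * (Real.exp δ - 1) := by gcongr
  rcases Nat.eq_zero_or_pos B with rfl | hB0
  · simp only [SS, range_zero, sum_empty, norm_zero]; positivity
  have hθ : Y * δ ≤ 1 / 2 := (hlow 0).trans (hup 0 hB0)
  refine kusmin_landau_mono (fun n : ℕ => Y * Real.exp (n * δ)) B hYδΛ (fun n _ => hlow n)
    (fun n hn => (hup n hn).trans (by linarith)) ?_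
  intro n _
  show Y * Real.exp ((n + 1 : ℕ) * δ) - Y * Real.exp (n * δ) ≤
    Y * Real.exp ((n + 1 + 1 : ℕ) * δ) - Y * Real.exp ((n + 1 : ℕ) * δ)
  rw [hd n, hd (n + 1)]
  have h6 : Real.exp (n * δ) ≤ Real.exp ((n + 1 : ℕ) * δ) := by
    apply Real.exp_le_exp.2
    push_cast
    nlinarith
  have h7 : 0 ≤ Real.exp δ - 1 := by linarith
  gcongr

/-- **Exponential sums.** For `Y0 ≤ Y ≤ c δ ^ (-r)` the sums over `b ≤ Λ / δ` are small. -/
theorem SS_small (r : ℕ) (hr : 1 ≤ r) {Λ : ℝ} (hΛ : 1 ≤ Λ) {ε : ℝ} (hε : 0 < ε) :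
    ∃ Y0 δ0 c : ℝ, 1 ≤ Y0 ∧ 0 < δ0 ∧ δ0 ≤ 1 ∧ 0 < c ∧ ∀ δ : ℝ, 0 < δ → δ ≤ δ0 → ∀ Y : ℝ,
      Y0 ≤ Y → Y * δ ^ r ≤ c → ∀ B : ℕ, B * δ ≤ Λ → ‖SS Y δ B‖ ≤ ε / δ := by
  -- the first range
  have hfirst : ∀ ε : ℝ, 0 < ε → ∀ δ : ℝ, 0 < δ → δ ≤ 1 → ∀ Y : ℝ, max 1 (2 / ε) ≤ Y →
      Y * δ ≤ (4 * Real.exp Λ)⁻¹ → ∀ B : ℕ, B * δ ≤ Λ → ‖SS Y δ B‖ ≤ ε / δ := by
    intro ε hε δ hδ hδ1 Y hY hYδ B hB
    have hY0 : 0 < Y := lt_of_lt_of_le one_pos ((le_max_left _ _).trans hY)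
    have h1 : 4 * (Y * δ) * Real.exp Λ ≤ 1 := by
      have h2 : Y * δ * (4 * Real.exp Λ) ≤ (4 * Real.exp Λ)⁻¹ * (4 * Real.exp Λ) := by gcongr
      rw [inv_mul_cancel₀ (by positivity)] at h2
      linarith
    refine (SS_first hY0 hδ hδ1 h1 hB).trans ?_
    have h3 : 2 / ε ≤ Y := (le_max_right _ _).trans hY
    rw [div_le_iff₀ hε] at h3
    rw [div_le_div_iff₀ (by positivity) hδ]
    nlinarith
  induction r, hr using Nat.le_induction generalizing ε with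
  | base =>
    refine ⟨max 1 (2 / ε), 1, (4 * Real.exp Λ)⁻¹, le_max_left _ _, one_pos, le_rfl, by positivity,
      fun δ hδ hδ1 Y hY hYδ B hB => hfirst ε hε δ hδ hδ1 Y hY (by simpa using hYδ) B hB⟩
  | succ r hr ih =>
    set ε' : ℝ := ε ^ 2 / (8 * Λ) with hε'
    have hΛ0 : 0 < Λ := by linarith
    have hε'0 : 0 < ε' := by positivity
    obtain ⟨Y1, δ1, c1, hY1, hδ1, hδ11, hc1, h1⟩ := ih hε'0
    set c0 : ℝ := (4 * Real.exp Λ)⁻¹ with hc0
    have hc00 : 0 < c0 := by positivity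
    obtain ⟨h0, hh0⟩ := exists_nat_ge (Y1 / c0)
    obtain ⟨H, hH⟩ := exists_nat_ge (max 1 (4 * Λ ^ 2 * (1 + 2 * h0) / ε ^ 2))
    have hH1 : (1 : ℝ) ≤ H := (le_max_left _ _).trans hH
    have hH0 : (0 : ℝ) < H := by linarith
    have hH2 : 4 * Λ ^ 2 * (1 + 2 * h0) / ε ^ 2 ≤ H := (le_max_right _ _).trans hH
    refine ⟨max 1 (2 / ε), min δ1 (1 / H), c1 / (2 * H), le_max_left _ _, by positivity,
      (min_le_left _ _).trans hδ11, by positivity, fun δ hδ hδ0 Y hY hYr B hB => ?_⟩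
    have hδ2 : δ ≤ δ1 := hδ0.trans (min_le_left _ _)
    have hδ3 : δ ≤ 1 / H := hδ0.trans (min_le_right _ _)
    have hδ4 : δ ≤ 1 := hδ2.trans hδ11
    have hHδ : H * δ ≤ 1 := by
      rw [le_div_iff₀ hH0] at hδ3; linarith
    have hYpos : 0 < Y := lt_of_lt_of_le one_pos ((le_max_left _ _).trans hY)
    rcases le_or_gt (Y * δ) c0 with hc | hc
    · exact hfirst ε hε δ hδ hδ4 Y hY hc B hB
    -- van der Corput
    have hv := vdcH (fun n : ℕ => e (Y * Real.exp (n * δ))) (fun n => (norm_e _).le) B H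
    have hterm : ∀ l : ℕ, ∑ n ∈ range (B - l), e (Y * Real.exp ((n + l : ℕ) * δ)) *
        (starRingEnd ℂ) (e (Y * Real.exp (n * δ))) =
        SS (Y * (Real.exp (l * δ) - 1)) δ (B - l) := by
      intro l
      unfold SS
      refine sum_congr rfl fun n _ => ?_
      rw [conj_e, ← e_add]
      congr 1
      have : (((n + l : ℕ) : ℝ)) * δ = n * δ + l * δ := by push_cast; ring
      rw [this, Real.exp_add]; ring
    have hBΛ : (B : ℝ) ≤ Λ / δ := by rwa [le_div_iff₀ hδ]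
    have hBl : ∀ l : ℕ, ((B - l : ℕ) : ℝ) ≤ B := fun l => by exact_mod_cast Nat.sub_le _ _
    have hsum : ∑ l ∈ Ico 1 H, ‖SS (Y * (Real.exp (l * δ) - 1)) δ (B - l)‖ ≤
        h0 * (Λ / δ) + H * (ε' / δ) := by
      have hle : ∀ l ∈ Ico 1 H, ‖SS (Y * (Real.exp (l * δ) - 1)) δ (B - l)‖ ≤
          (if l < h0 then Λ / δ else 0) + ε' / δ := by
        intro l hl
        rw [mem_Ico] at hl
        split_ifs with hlh
        · refine (SS_triv _ _ _).trans ?_
          have : 0 < ε' / δ := by positivity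
          linarith [hBl l]
        · push Not at hlh
          rw [zero_add]
          have hlH : (l : ℝ) ≤ H := by exact_mod_cast hl.2.le
          have hlδ : (l : ℝ) * δ ≤ 1 := (by gcongr : (l : ℝ) * δ ≤ H * δ).trans hHδ
          have e1 := exp_sub_one_le (x := l * δ) (by positivity) hlδ
          have e2 := le_exp_sub_one (l * δ)
          refine h1 δ hδ hδ2 _ ?_ ?_ _ ?_
          · have h3 : Y1 ≤ c0 * h0 := by
              rw [div_le_iff₀ hc00] at hh0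
              linarith
            have h4 : (h0 : ℝ) ≤ l := by exact_mod_cast hlh
            calc Y1 ≤ c0 * h0 := h3
              _ ≤ (Y * δ) * l := by gcongr
              _ = Y * (l * δ) := by ring
              _ ≤ Y * (Real.exp (l * δ) - 1) := by gcongr
          · rw [le_div_iff₀ (by positivity)] at hYr
            calc Y * (Real.exp (l * δ) - 1) * δ ^ r ≤ Y * (2 * (H * δ)) * δ ^ r := by
                  gcongr
                  calc Real.exp (l * δ) - 1 ≤ 2 * (l * δ) := e1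
                    _ ≤ 2 * (H * δ) := by gcongr
              _ = Y * δ ^ (r + 1) * (2 * H) := by ring
              _ ≤ c1 := hYr
          · exact (mul_le_mul_of_nonneg_right (hBl l) hδ.le).trans hB
      refine (sum_le_sum hle).trans ?_
      rw [sum_add_distrib]
      refine add_le_add ?_ ?_
      · rw [← sum_filter, sum_const, nsmul_eq_mul]
        gcongr
        have : (Ico 1 H).filter (fun l => l < h0) ⊆ range h0 := by
          intro l hl
          rw [mem_filter] at hl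
          exact mem_range.2 hl.2
        simpa only [card_range] using card_le_card this
      · rw [sum_const, nsmul_eq_mul]
        gcongr
        simp
    simp_rw [hterm] at hv
    have hS0 : 0 ≤ ‖SS Y δ B‖ := norm_nonneg _
    have hv2 : (H : ℝ) * ‖SS Y δ B‖ ^ 2 ≤ (2 * Λ / δ) * ((Λ / δ) + 2 * (h0 * (Λ / δ) + H * (ε' / δ))) := by
      refine hv.trans ?_
      have hHB : (H : ℝ) ≤ Λ / δ := by
        rw [le_div_iff₀ hδ]; linarith
      have e3 : 2 * Λ / δ = Λ / δ + Λ / δ := by ring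
      rw [e3]
      gcongr
    have hHe : 4 * Λ ^ 2 * (1 + 2 * h0) ≤ H * ε ^ 2 := by
      rwa [div_le_iff₀ (by positivity)] at hH2
    have e4 : (2 * Λ / δ) * ((Λ / δ) + 2 * (h0 * (Λ / δ) + H * (ε' / δ))) =
        (4 * Λ ^ 2 * (1 + 2 * h0) / 2 + H * (ε ^ 2 / 2)) / δ ^ 2 := by
      rw [hε']
      field_simp
      ring
    rw [e4] at hv2
    have hv3 : (H : ℝ) * ‖SS Y δ B‖ ^ 2 ≤ H * (ε / δ) ^ 2 := by
      refine hv2.trans ?_
      have e5 : (H : ℝ) * (ε / δ) ^ 2 = H * ε ^ 2 / δ ^ 2 := by rw [div_pow]; ring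
      rw [e5]
      have h9 : 4 * Λ ^ 2 * (1 + 2 * h0) / 2 + H * (ε ^ 2 / 2) ≤ H * ε ^ 2 := by linarith
      exact div_le_div_of_nonneg_right h9 (sq_nonneg δ)
    have hv4 : ‖SS Y δ B‖ ^ 2 ≤ (ε / δ) ^ 2 := le_of_mul_le_mul_left hv3 hH0
    exact (pow_le_pow_iff_left₀ hS0 (by positivity) (by norm_num)).1 hv4

end Pool.Agent.H806.Gap
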