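import Pool.Agent.H806_Gap.One

/-!
Weak limits of invariant measures and their Lebesgue part.
-/

set_option autoImplicit false

open MeasureTheory Filter Topology Set
open scoped ENNReal NNReal

namespace Pool.Agent.H806.Gap

open Pool.Agent.W764.FB (T EssInj hh)
open Metric (closedBall mem_closedBall)

lemma le_of_integral {c : ℝ} (hc : 0 ≤ c) (μ : Measure T) [IsProbabilityMeasure μ]
    (h : ∀ f : C(T, ℝ), (∀ x, 0 ≤ f x) → c * ∫ x, f x ∂(volume : Measure T) ≤ ∫ x, f x ∂μ) :
    ENNReal.ofReal c • (volume : Measure T) ≤ μ := by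
  have hclosed : ∀ F : Set T, IsClosed F → ENNReal.ofReal c * (volume : Measure T) F ≤ μ F := by
    intro F hF
    set δs : ℕ → ℝ := fun n => 1 / ((n : ℝ) + 1) with hδs
    have hpos : ∀ n, 0 < δs n := fun n => by rw [hδs]; positivity
    have hlim : Tendsto δs atTop (𝓝 0) := tendsto_one_div_add_atTop_nhds_zero_nat
    have h1 := tendsto_lintegral_thickenedIndicator_of_isClosed (volume : Measure T) hF hpos hlim
    have h2 := tendsto_lintegral_thickenedIndicator_of_isClosed μ hF hpos hlim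
    refine le_of_tendsto_of_tendsto (ENNReal.Tendsto.const_mul h1 (Or.inr ENNReal.ofReal_ne_top)) h2
      (Eventually.of_forall fun n => ?_)
    set f : C(T, ℝ) := ⟨fun x => ((thickenedIndicator (hpos n) F x : ℝ≥0) : ℝ),
      NNReal.continuous_coe.comp (thickenedIndicator (hpos n) F).continuous⟩ with hf
    have h3 := h f fun x => NNReal.coe_nonneg _
    have e1 : ∀ σ : Measure T, IsProbabilityMeasure σ →
        ∫⁻ x, (thickenedIndicator (hpos n) F x : ℝ≥0∞) ∂σ = ENNReal.ofReal (∫ x, f x ∂σ) := by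
      intro σ _
      rw [ofReal_integral_eq_lintegral_ofReal]
      · refine lintegral_congr fun x => ?_
        rw [hf]
        simp only [ContinuousMap.coe_mk]
        rw [ENNReal.ofReal_coe_nnreal]
      · refine Integrable.of_bound f.continuous.aestronglyMeasurable 1 (Eventually.of_forall fun x => ?_)
        rw [hf]
        simp only [ContinuousMap.coe_mk]
        rw [Real.norm_of_nonneg (NNReal.coe_nonneg _)]
        exact_mod_cast thickenedIndicator_le_one (hpos n) F x
      · exact Eventually.of_forall fun x => NNReal.coe_nonneg _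
    show ENNReal.ofReal c * ∫⁻ x, (thickenedIndicator (hpos n) F x : ℝ≥0∞) ∂(volume : Measure T) ≤
      ∫⁻ x, (thickenedIndicator (hpos n) F x : ℝ≥0∞) ∂μ
    rw [e1 _ inferInstance, e1 _ inferInstance, ← ENNReal.ofReal_mul hc]
    exact ENNReal.ofReal_le_ofReal h3
  rw [Measure.le_iff]
  intro S hS
  rw [Measure.smul_apply, smul_eq_mul]
  rw [hS.measure_eq_iSup_isClosed_of_ne_top (measure_ne_top _ _)]
  simp_rw [ENNReal.mul_iSup]
  refine iSup_le fun F => iSup_le fun hFS => iSup_le fun hF => ?_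
  exact (hclosed F hF).trans (measure_mono hFS)

/-- **The Lebesgue part of weak limits.** -/
theorem leb_limit {p q : ℕ} (hp : 2 ≤ p) (hq : 2 ≤ q)
    (hirr : Irrational (Real.log p / Real.log q)) {g : ℝ → ℝ}
    (hg : Tendsto g atTop atTop) (hdio : Dio (Real.log p) (Real.log q) g) (A : ℕ)
    {s : ℝ → ℝ} (hs0 : ∀ᶠ r in 𝓝[>] 0, 0 < s r) (hs1 : Tendsto (fun r => s r / r) (𝓝[>] 0) (𝓝 0))
    (hs2 : ∀ᶠ r in 𝓝[>] 0, r ≤ g (-Real.log (s r)) ^ A * s r)
    {μ : ℕ → Measure T} (hμ : ∀ n, IsProbabilityMeasure (μ n))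
    (hip : ∀ n, MeasurePreserving (fun x : T => p • x) (μ n) (μ n))
    (hiq : ∀ n, MeasurePreserving (fun x : T => q • x) (μ n) (μ n))
    (μ' : Measure T) [IsProbabilityMeasure μ']
    (hlim : ∀ f : C(T, ℝ), Tendsto (fun n => ∫ x, f x ∂(μ n)) atTop (𝓝 (∫ x, f x ∂μ')))
    {r δ : ℕ → ℝ} (hr0 : ∀ n, 0 < r n) (hr : Tendsto r atTop (𝓝 0))
    (hδ : Tendsto δ atTop (𝓝 0)) {c : ℝ} (hc : 0 ≤ c)
    (hfreq : ∃ᶠ n in atTop, c ≤ (μ n).real {x | (μ n).real (closedBall x (s (r n))) ≤
      δ n * (μ n).real (closedBall x (r n))}) :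
    ENNReal.ofReal c • (volume : Measure T) ≤ μ' := by
  have hr' : Tendsto r atTop (𝓝[>] 0) :=
    tendsto_nhdsWithin_iff.2 ⟨hr, Eventually.of_forall hr0⟩
  refine le_of_integral hc μ' fun f hf => ?_
  refine le_of_forall_pos_le_add fun ε hε => ?_
  obtain ⟨d, hd, h⟩ := leb_part hp hq hirr hg hdio A hs0 hs1 hs2 f.continuous hf
    (ε := ε / 2) (by positivity)
  have h1 := hr'.eventually h
  have h2 := hδ.eventually_lt_const hd
  have h3 := (hlim f).eventually_lt_const (show ∫ x, f x ∂μ' < ∫ x, f x ∂μ' + ε / 2 by linarith)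
  obtain ⟨n, hn, h1, h2, h3⟩ := (hfreq.and_eventually (h1.and (h2.and h3))).exists
  have h4 := h1 (μ n) (hμ n) (hip n) (hiq n)
  have h5 : c ≤ (μ n).real {x | (μ n).real (closedBall x (s (r n))) ≤
      d * (μ n).real (closedBall x (r n))} := by
    refine hn.trans (measureReal_mono fun x hx => ?_)
    have hx' : (μ n).real (closedBall x (s (r n))) ≤ δ n * (μ n).real (closedBall x (r n)) := hx
    show (μ n).real (closedBall x (s (r n))) ≤ d * (μ n).real (closedBall x (r n))
    exact hx'.trans (mul_le_mul_of_nonneg_right h2.le measureReal_nonneg)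
  have h6 : 0 ≤ ∫ x, f x ∂(volume : Measure T) := integral_nonneg hf
  have h7 := mul_le_mul_of_nonneg_right h5 h6
  linarith

end Pool.Agent.H806.Gap
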