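import Pool.Agent.H806_Gap.Crit
import Pool.Agent.H806_Gap.Dio

/-!
Invariant measures singular to Lebesgue measure are carried by small unions of arcs, for all
multiplicatively independent `p, q`; from the criterion at a single scale.
-/

set_option autoImplicit false

open MeasureTheory Filter Topology Set
open scoped ENNReal

namespace Pool.Agent.H806.Gap

open Pool.Agent.W764.FB (T EssInj hh)
open Pool.Agent.H706R2.Ren (U measurableSet_U)
open Metric (closedBall mem_closedBall)

/-- the measure is carried by small unions of arcs -/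
def Cov (μ : Measure T) : Prop :=
  ∀ (κ c : ℝ), 0 < κ → 0 < c → ∀ k : ℕ, ∃ (K : ℕ) (cen : Fin K → T) (ρ : ℝ), 1 ≤ K ∧ 0 < ρ ∧
    ρ * (K : ℝ) ^ k ≤ c ∧ μ.real (U cen ρ)ᶜ ≤ κ

lemma pow_mp {p q : ℕ} {μ : Measure T} (hip : MeasurePreserving (fun x : T => p • x) μ μ)
    (hiq : MeasurePreserving (fun x : T => q • x) μ μ) (a b : ℕ) :
    MeasurePreserving (fun x : T => (p ^ a * q ^ b) • x) μ μ := by
  have h := (hip.iterate a).comp (hiq.iterate b)
  have e : (fun x : T => (p ^ a * q ^ b) • x) =
      (fun x : T => p • x)^[a] ∘ (fun x : T => q • x)^[b] := by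
    funext x
    rw [smul_iterate, smul_iterate]
    simp only [Function.comp_apply, mul_smul]
  rw [e]
  exact h

/-- a nonnegative function which sees Lebesgue measure but not `μ` -/
lemma exists_sep (μ : Measure T) [IsProbabilityMeasure μ] (hs : μ ⟂ₘ (volume : Measure T)) {ε : ℝ}
    (hε : 0 < ε) : ∃ f : T → ℝ, Continuous f ∧ (∀ x, 0 ≤ f x) ∧ ∫ x, f x ∂μ ≤ ε ∧
      1 / 2 ≤ ∫ x, f x ∂(volume : Measure T) := by
  obtain ⟨S, hSm, hS1, hS2⟩ := hs
  have hε' : ENNReal.ofReal ε ≠ 0 := (ENNReal.ofReal_pos.2 hε).ne'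
  obtain ⟨O, hOS, hOo, hO⟩ := Sᶜ.exists_isOpen_lt_of_lt (μ := (volume : Measure T))
    (ENNReal.ofReal (1 / 2)) (by rw [hS2]; exact ENNReal.ofReal_pos.2 (by norm_num))
  obtain ⟨K0, hK0S, hK0c, hK0⟩ := hSm.compl.exists_isClosed_lt_add (μ := μ) (measure_ne_top _ _) hε'
  have hμS : μ Sᶜ = 1 := by
    rw [prob_compl_eq_one_iff hSm]; exact hS1
  obtain ⟨f, hf0, hf1, hf⟩ := exists_continuous_zero_one_of_isClosed hK0c hOo.isClosed_compl (by
    rw [Set.disjoint_left]
    intro x hx hx2
    exact hx2 (hOS (hK0S hx)))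
  have hint : ∀ σ : Measure T, IsFiniteMeasure σ → Integrable (fun x => f x) σ := fun σ _ =>
    Integrable.of_bound f.continuous.aestronglyMeasurable 1 (Eventually.of_forall fun x => by
      rw [Real.norm_of_nonneg (hf x).1]; exact (hf x).2)
  refine ⟨f, f.continuous, fun x => (hf x).1, ?_, ?_⟩
  · have h1 : ∫ x, f x ∂μ ≤ ∫ x, K0ᶜ.indicator (fun _ => (1 : ℝ)) x ∂μ := by
      refine integral_mono (hint μ inferInstance)
        ((integrable_const _).indicator hK0c.measurableSet.compl) fun x => ?_
      by_cases hx : x ∈ K0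
      · rw [indicator_of_notMem (show x ∉ K0ᶜ from fun h => h hx)]
        exact (hf0 hx).le
      · rw [indicator_of_mem (show x ∈ K0ᶜ from hx)]
        exact (hf x).2
    refine h1.trans ?_
    rw [integral_indicator_const _ hK0c.measurableSet.compl, smul_eq_mul, mul_one,
      probReal_compl_eq_one_sub hK0c.measurableSet]
    have h2 : (1 : ℝ≥0∞) ≤ μ K0 + ENNReal.ofReal ε := by rw [← hμS]; exact hK0.le
    have h3 := ENNReal.toReal_mono (ENNReal.add_ne_top.2 ⟨measure_ne_top _ _, ENNReal.ofReal_ne_top⟩)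
      h2
    rw [ENNReal.toReal_add (measure_ne_top _ _) ENNReal.ofReal_ne_top, ENNReal.toReal_ofReal hε.le,
      ENNReal.toReal_one] at h3
    rw [measureReal_def]
    linarith
  · have h1 : ∫ x, Oᶜ.indicator (fun _ => (1 : ℝ)) x ∂(volume : Measure T) ≤
        ∫ x, f x ∂(volume : Measure T) := by
      refine integral_mono ((integrable_const _).indicator hOo.measurableSet.compl)
        (hint _ inferInstance) fun x => ?_
      by_cases hx : x ∈ O
      · rw [indicator_of_notMem (show x ∉ Oᶜ from fun h => h hx)]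
        exact (hf x).1
      · rw [indicator_of_mem (show x ∈ Oᶜ from hx)]
        exact (hf1 hx).ge
    refine le_trans ?_ h1
    rw [integral_indicator_const _ hOo.measurableSet.compl, smul_eq_mul, mul_one,
      probReal_compl_eq_one_sub hOo.measurableSet]
    have h3 := ENNReal.toReal_mono ENNReal.ofReal_ne_top hO.le
    rw [ENNReal.toReal_ofReal (by norm_num)] at h3
    rw [measureReal_def]
    linarith

lemma measurableSet_ratio (μ : Measure T) [IsProbabilityMeasure μ] (δ r s : ℝ) :
    MeasurableSet {x : T | μ.real (closedBall x s) ≤ δ * μ.real (closedBall x r)} :=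
  measurableSet_le (measurable_ball μ s).ennreal_toReal
    ((measurable_ball μ r).ennreal_toReal.const_mul δ)

/-- For a singular invariant measure the ratios are bounded below, outside of a small set; the
bound does not depend on the ratio of the radii. -/
lemma sing_ratio {p q : ℕ} (hp : 2 ≤ p) (hq : 2 ≤ q)
    (hirr : Irrational (Real.log p / Real.log q)) (μ : Measure T) [IsProbabilityMeasure μ]
    (hip : MeasurePreserving (fun x : T => p • x) μ μ)
    (hiq : MeasurePreserving (fun x : T => q • x) μ μ) (hs : μ ⟂ₘ (volume : Measure T))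
    {ε : ℝ} (hε : 0 < ε) : ∃ δ : ℝ, 0 < δ ∧ ∀ C : ℝ, 1 ≤ C → ∃ r1 : ℝ, 0 < r1 ∧
      ∀ r : ℝ, 0 < r → r < r1 →
        μ.real {x | μ.real (closedBall x (r / C)) ≤ δ * μ.real (closedBall x r)} ≤ ε := by
  obtain ⟨f, hf, hf0, hfμ, hfv⟩ := exists_sep μ hs (ε := ε / 4) (by positivity)
  obtain ⟨θ, hθ, hdio⟩ := dio_log hp hq hirr
  have hg : Tendsto (fun x : ℝ => θ * Real.log x) atTop atTop :=
    Real.tendsto_log_atTop.const_mul_atTop hθ
  obtain ⟨δ, hδ, r0, hr0, h⟩ := single_scale hp hq hirr hg hdio 1 hf (ε := ε / 4) (by positivity)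
  refine ⟨δ, hδ, fun C hC => ?_⟩
  obtain ⟨X, hX⟩ := eventually_atTop.1 (hg.eventually_ge_atTop C)
  refine ⟨min r0 (Real.exp (-X)), lt_min hr0 (Real.exp_pos _), fun r hr hrr => ?_⟩
  have hC0 : 0 < C := by linarith
  have hsr : r / C ≤ r := div_le_self hr.le hC
  have h2 : X ≤ -Real.log (r / C) := by
    have h3 : r / C < Real.exp (-X) := hsr.trans_lt (hrr.trans_le (min_le_right _ _))
    have := (Real.log_lt_iff_lt_exp (by positivity)).2 h3
    linarith
  obtain ⟨W, hW, hWpq, hW2⟩ := h r (r / C) (by positivity) hsr (hrr.trans_le (min_le_left _ _)) (by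
    have h3 := hX _ h2
    rw [pow_one]
    calc r = C * (r / C) := by field_simp
      _ ≤ _ := by gcongr)
  set E : Set T := {x | μ.real (closedBall x (r / C)) ≤ δ * μ.real (closedBall x r)} with hE
  have h3 := hW2 μ inferInstance E (measurableSet_ratio μ _ _ _) (fun x hx => hx)
  rw [abs_le] at h3
  have hAW0 : ∀ y, 0 ≤ AW W f y := fun y => by
    unfold AW
    exact mul_nonneg (by positivity) (Finset.sum_nonneg fun n _ => hf0 _)
  have hAWint : Integrable (AW W f) μ := by
    obtain ⟨C', hC'⟩ := isCompact_univ.exists_bound_of_continuousOn (continuous_AW W hf).continuousOn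
    exact Integrable.of_bound (continuous_AW W hf).aestronglyMeasurable C'
      (Eventually.of_forall fun y => hC' y (mem_univ _))
  have h4 : ∫ y in E, AW W f y ∂μ ≤ ∫ y, f y ∂μ := by
    rw [← integral_AW hW hf μ fun n hn => by
      obtain ⟨a, b, rfl⟩ := hWpq n hn
      exact pow_mp hip hiq a b]
    exact setIntegral_le_integral hAWint (Eventually.of_forall hAW0)
  have h5 : μ.real E * (1 / 2) ≤ μ.real E * ∫ y, f y ∂(volume : Measure T) := by
    gcongr
  linarith [h3.1]

/-- the mass of larger balls -/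
lemma expand (μ : Measure T) [IsProbabilityMeasure μ] {r : ℝ} (hr : 0 < r) (C : ℕ) :
    ∫⁻ x, μ (closedBall x (C * r)) / μ (closedBall x r) ∂μ ≤ 2 * (C + 1) := by
  have hcov : ∀ x : T, closedBall x (C * r) ⊆ ⋃ i ∈ Finset.range (C + 1),
      closedBall (x + (((2 * (i : ℝ) - C) * r : ℝ) : T)) r := by
    intro x y hy
    rw [mem_closedBall, dist_eq_norm] at hy
    -- a real representative of `y - x`
    obtain ⟨t, ht, htC⟩ : ∃ t : ℝ, ((t : ℝ) : T) = y - x ∧ |t| ≤ C * r := by
      rcases Pool.Agent.W764.HL.eq_or_neg (y - x) with h | h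
      · exact ⟨‖y - x‖, h.symm, by rwa [abs_norm]⟩
      · refine ⟨-‖y - x‖, ?_, by rwa [abs_neg, abs_norm]⟩
        rw [AddCircle.coe_neg]; exact h.symm
    rw [abs_le] at htC
    set u : ℝ := (t / r + C) / 2 with hu
    have hu0 : 0 ≤ u := by
      have : -(C : ℝ) ≤ t / r := by rw [le_div_iff₀ hr]; linarith
      rw [hu]; linarith
    have huC : u ≤ C := by
      have : t / r ≤ C := by rw [div_le_iff₀ hr]; exact htC.2
      rw [hu]; linarith
    -- the nearest integer
    have hround : ∃ i : ℕ, i ≤ C ∧ |u - i| ≤ 1 / 2 := by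
      set i : ℕ := ⌊u + 1 / 2⌋₊ with hi
      have h1 : (i : ℝ) ≤ u + 1 / 2 := Nat.floor_le (by linarith)
      have h2 : u + 1 / 2 < i + 1 := Nat.lt_floor_add_one _
      refine ⟨i, ?_, ?_⟩
      · by_contra hc
        push Not at hc
        have : (C : ℝ) + 1 ≤ i := by exact_mod_cast hc
        linarith
      · rw [abs_le]
        constructor <;> linarith
    obtain ⟨i, hiC, hi⟩ := hround
    rw [mem_iUnion₂]
    refine ⟨i, Finset.mem_range.2 (by omega), ?_⟩
    rw [mem_closedBall, dist_eq_norm]
    have e1 : y - (x + (((2 * (i : ℝ) - C) * r : ℝ) : T)) =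
        ((t - (2 * (i : ℝ) - C) * r : ℝ) : T) := by
      rw [AddCircle.coe_sub, ht]; abel
    rw [e1]
    refine (norm_coe_le _).trans ?_
    have e2 : t - (2 * (i : ℝ) - C) * r = 2 * r * (u - i) := by
      rw [hu]; field_simp; ring
    rw [e2, abs_mul, abs_of_pos (by positivity)]
    calc 2 * r * |u - i| ≤ 2 * r * (1 / 2) := by gcongr
      _ = r := by ring
  have hone : ∀ a : T, ∫⁻ x, μ (closedBall (x + a) r) / μ (closedBall x r) ∂μ ≤ 2 := by
    intro a
    set σ : Measure T := μ.map (fun y => y - a) with hσ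
    have hm : Measurable fun y : T => y - a := (continuous_id.sub continuous_const).measurable
    have hσp : IsProbabilityMeasure σ := Measure.isProbabilityMeasure_map hm.aemeasurable
    have h1 := tonelli μ σ hr.le MeasurableSet.univ
    rw [measure_univ, mul_one] at h1
    refine le_trans (le_of_eq ?_) h1
    refine lintegral_congr fun x => ?_
    congr 1
    rw [inter_univ, hσ, Measure.map_apply hm measurableSet_closedBall]
    congr 1
    ext y
    rw [mem_preimage, mem_closedBall, mem_closedBall, dist_eq_norm, dist_eq_norm]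
    rw [show y - (x + a) = y - a - x by abel]
  calc ∫⁻ x, μ (closedBall x (C * r)) / μ (closedBall x r) ∂μ
      ≤ ∫⁻ x, ∑ i ∈ Finset.range (C + 1),
          μ (closedBall (x + (((2 * (i : ℝ) - C) * r : ℝ) : T)) r) / μ (closedBall x r) ∂μ := by
        refine lintegral_mono fun x => ?_
        simp only
        rw [div_eq_mul_inv]
        simp_rw [div_eq_mul_inv]
        rw [← Finset.sum_mul]
        gcongr
        exact (measure_mono (hcov x)).trans (measure_biUnion_finset_le _ _)
    _ = ∑ i ∈ Finset.range (C + 1),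
          ∫⁻ x, μ (closedBall (x + (((2 * (i : ℝ) - C) * r : ℝ) : T)) r) / μ (closedBall x r) ∂μ := by
        refine lintegral_finsetSum _ fun i _ => ?_
        refine Measurable.div ?_ (measurable_ball μ r)
        exact (measurable_ball μ r).comp (continuous_id.add continuous_const).measurable
    _ ≤ ∑ i ∈ Finset.range (C + 1), 2 := Finset.sum_le_sum fun i _ => hone _
    _ = 2 * (C + 1) := by
        rw [Finset.sum_const, Finset.card_range, nsmul_eq_mul]
        push_cast
        ring

end Pool.Agent.H806.Gap
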